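import Pool.Agent.Helper793.CM.Dir

set_option autoImplicit false

open MeasureTheory Set Real Complex Filter Topology
open scoped ENNReal NNReal ComplexConjugate

namespace Pool.Agent.Helper793.CM

lemma norm_bpt' (θ : ℝ) : ‖bpt θ‖ = 1 := by
  unfold bpt; exact Complex.norm_exp_ofReal_mul_I θ

/-- integration over a small disc in polar coordinates -/
lemma polar_ball' (F : ℂ → ℝ≥0∞) (z₀ : ℂ) {R : ℝ} :
    ∫⁻ z in Metric.ball z₀ R, F z =
      ∫⁻ p in (Ioo (0:ℝ) R ×ˢ Ioo (-π) π),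
        ENNReal.ofReal p.1 * F (z₀ + (p.1 : ℂ) * Complex.exp (p.2 * I)) := by
  rw [← lintegral_indicator Metric.isOpen_ball.measurableSet,
    ← lintegral_add_left_eq_self (μ := volume) _ z₀,
    ← Complex.lintegral_comp_polarCoord_symm, polarCoord_target]
  have hms : MeasurableSet (Ioi (0:ℝ) ×ˢ Ioo (-π) π) := measurableSet_Ioi.prod measurableSet_Ioo
  have hms2 : MeasurableSet (Ioo (0:ℝ) R ×ˢ Ioo (-π) π) := measurableSet_Ioo.prod measurableSet_Ioo
  rw [← lintegral_indicator hms, ← lintegral_indicator hms2]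
  apply lintegral_congr
  rintro ⟨r, θ⟩
  by_cases h : (r, θ) ∈ Ioi (0:ℝ) ×ˢ Ioo (-π) π
  · rw [indicator_of_mem h]
    have hr : 0 < r := h.1
    have e : Complex.polarCoord.symm (r, θ) = (r : ℂ) * Complex.exp (θ * I) := by
      rw [Complex.polarCoord_symm_apply, Complex.exp_mul_I]
      push_cast; rfl
    have hn : ‖(r : ℂ) * Complex.exp (θ * I)‖ = r := by
      rw [norm_mul, Complex.norm_exp_ofReal_mul_I, mul_one, Complex.norm_real, Real.norm_eq_abs,
        abs_of_pos hr]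
    rw [e, smul_eq_mul]
    by_cases h1 : r < R
    · have m1 : (r, θ) ∈ Ioo (0:ℝ) R ×ˢ Ioo (-π) π := ⟨⟨hr, h1⟩, h.2⟩
      rw [indicator_of_mem m1, indicator_of_mem]
      rw [mem_ball_iff_norm, add_sub_cancel_left, hn]; exact h1
    · have m1 : (r, θ) ∉ Ioo (0:ℝ) R ×ˢ Ioo (-π) π := fun hh => h1 hh.1.2
      rw [indicator_of_notMem m1, indicator_of_notMem, mul_zero]
      rw [mem_ball_iff_norm, add_sub_cancel_left, hn]; exact h1
  · have m1 : (r, θ) ∉ Ioo (0:ℝ) R ×ˢ Ioo (-π) π := fun hh => h ⟨hh.1.1, hh.2⟩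
    rw [indicator_of_notMem h, indicator_of_notMem m1]

/-- mean value inequality on a circle -/
lemma circle_mvi {F : ℂ → ℂ} {z₀ : ℂ} {R : ℝ} (hF : DifferentiableOn ℂ F (Metric.ball z₀ R))
    {r : ℝ} (hr : 0 < r) (hrR : r < R) :
    2 * π * ‖F z₀‖ ^ 2 ≤ ∫ θ in (-π)..π, ‖F (z₀ + (r : ℂ) * Complex.exp (θ * I))‖ ^ 2 := by
  have hd : DiffContOnCl ℂ (fun z => F z ^ 2) (Metric.ball z₀ |r|) := by
    have hd1 : DifferentiableOn ℂ (fun z => F z ^ 2) (Metric.closedBall z₀ |r|) := by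
      refine (hF.mono ?_).pow 2
      intro z hz
      rw [Metric.mem_closedBall, abs_of_pos hr] at hz
      exact lt_of_le_of_lt hz hrR
    exact hd1.diffContOnCl_ball (le_refl _)
  have hm := hd.circleAverage
  rw [Real.circleAverage_def] at hm
  have hper : Function.Periodic (fun θ : ℝ => F (circleMap z₀ r θ) ^ 2) (2 * π) := by
    intro θ
    simp only [circleMap]
    have : Complex.exp (((θ + 2 * π : ℝ) : ℂ) * I) = Complex.exp (θ * I) := by
      push_cast
      rw [add_mul, Complex.exp_add, Complex.exp_two_pi_mul_I, mul_one]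
    rw [this]
  have h1 : ∫ θ in (0:ℝ)..(2 * π), F (circleMap z₀ r θ) ^ 2 =
      ∫ θ in (-π)..π, F (circleMap z₀ r θ) ^ 2 := by
    have := hper.intervalIntegral_add_eq 0 (-π)
    rw [zero_add] at this
    rw [this]
    congr 1; ring
  rw [h1] at hm
  have h2 : ‖F z₀‖ ^ 2 = (2 * π)⁻¹ * ‖∫ θ in (-π)..π, F (circleMap z₀ r θ) ^ 2‖ := by
    rw [← norm_pow, ← hm, norm_smul, Real.norm_eq_abs, abs_of_pos (by positivity)]
  have h3 : ‖∫ θ in (-π)..π, F (circleMap z₀ r θ) ^ 2‖ ≤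
      ∫ θ in (-π)..π, ‖F (circleMap z₀ r θ) ^ 2‖ :=
    intervalIntegral.norm_integral_le_integral_norm (by linarith [Real.pi_pos])
  have h4 : ∫ θ in (-π)..π, ‖F (circleMap z₀ r θ) ^ 2‖ =
      ∫ θ in (-π)..π, ‖F (z₀ + (r : ℂ) * Complex.exp (θ * I))‖ ^ 2 := by
    apply intervalIntegral.integral_congr
    intro θ _
    simp only [norm_pow, circleMap]
  rw [h4] at h3
  rw [h2, mul_inv_cancel_left₀ (by positivity)]
  exact h3

/-- mean value inequality on a disc -/
lemma disc_mvi {F : ℂ → ℂ} {z₀ : ℂ} {R : ℝ} (hR : 0 < R)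
    (hF : DifferentiableOn ℂ F (Metric.ball z₀ R)) :
    ENNReal.ofReal (π * R ^ 2 * ‖F z₀‖ ^ 2) ≤
      ∫⁻ z in Metric.ball z₀ R, ENNReal.ofReal (‖F z‖ ^ 2) := by
  have hFm : AEMeasurable (fun p : ℝ × ℝ => ENNReal.ofReal p.1 *
      ENNReal.ofReal (‖F (z₀ + (p.1 : ℂ) * Complex.exp (p.2 * I))‖ ^ 2))
      ((volume.prod volume).restrict (Ioo (0:ℝ) R ×ˢ Ioo (-π) π)) := by
    have hc : ContinuousOn (fun p : ℝ × ℝ => ‖F (z₀ + (p.1 : ℂ) * Complex.exp (p.2 * I))‖ ^ 2)
        (Ioo (0:ℝ) R ×ˢ Ioo (-π) π) := by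
      refine (ContinuousOn.norm ?_).pow 2
      refine hF.continuousOn.comp (Continuous.continuousOn (by fun_prop)) ?_
      rintro ⟨r, θ⟩ ⟨h1, _⟩
      simp only
      rw [mem_ball_iff_norm, add_sub_cancel_left, norm_mul, Complex.norm_exp_ofReal_mul_I, mul_one,
        Complex.norm_real, Real.norm_eq_abs, abs_of_pos h1.1]
      exact h1.2
    have hm := hc.aemeasurable (μ := volume.prod volume)
      (measurableSet_Ioo.prod measurableSet_Ioo)
    exact (ENNReal.measurable_ofReal.comp measurable_fst).aemeasurable.mul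
      (ENNReal.measurable_ofReal.comp_aemeasurable hm)
  rw [polar_ball', Measure.volume_eq_prod, setLIntegral_prod _ hFm]
  have h1 : ∫⁻ r in Ioo 0 R, ENNReal.ofReal r * ENNReal.ofReal (2 * π * ‖F z₀‖ ^ 2) ≤
      ∫⁻ r in Ioo 0 R, ∫⁻ θ in Ioo (-π) π, ENNReal.ofReal r *
        ENNReal.ofReal (‖F (z₀ + (r : ℂ) * Complex.exp (θ * I))‖ ^ 2) := by
    refine lintegral_mono_ae ?_
    filter_upwards [ae_restrict_mem measurableSet_Ioo] with r hr
    rw [lintegral_const_mul' _ _ ENNReal.ofReal_ne_top]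
    gcongr
    have hc : Continuous (fun θ : ℝ => ‖F (z₀ + (r : ℂ) * Complex.exp (θ * I))‖ ^ 2) := by
      have : ContinuousOn (fun θ : ℝ => F (z₀ + (r : ℂ) * Complex.exp (θ * I))) univ := by
        refine hF.continuousOn.comp (Continuous.continuousOn (by fun_prop)) ?_
        intro θ _
        rw [mem_ball_iff_norm, add_sub_cancel_left, norm_mul, Complex.norm_exp_ofReal_mul_I,
          mul_one, Complex.norm_real, Real.norm_eq_abs, abs_of_pos hr.1]
        exact hr.2
      exact (continuousOn_univ.1 this).norm.pow 2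
    refine (ENNReal.ofReal_le_ofReal (circle_mvi hF hr.1 hr.2)).trans ?_
    rw [intervalIntegral.integral_of_le (by linarith [Real.pi_pos]),
      integral_Ioc_eq_integral_Ioo, ofReal_integral_eq_lintegral_ofReal]
    · exact (hc.integrableOn_Icc (a := -π) (b := π)).mono_set Ioo_subset_Icc_self
    · exact ae_of_all _ fun θ => by positivity
  refine le_trans (le_of_eq ?_) h1
  rw [lintegral_mul_const' _ _ ENNReal.ofReal_ne_top]
  have h2 : ∫⁻ r in Ioo (0:ℝ) R, ENNReal.ofReal r = ENNReal.ofReal (R ^ 2 / 2) := by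
    rw [← ofReal_integral_eq_lintegral_ofReal]
    · rw [← integral_Ioc_eq_integral_Ioo, ← intervalIntegral.integral_of_le hR.le, integral_id]
      congr 1; ring
    · exact (continuous_id.integrableOn_Icc (a := 0) (b := R)).mono_set Ioo_subset_Icc_self
    · filter_upwards [ae_restrict_mem measurableSet_Ioo] with r hr
      exact hr.1.le
  rw [h2, ← ENNReal.ofReal_mul (by positivity)]
  congr 1; ring

end Pool.Agent.Helper793.CM
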