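import Pool.Agent.Helper793.CM.Bdry

set_option autoImplicit false

open MeasureTheory Set Real Complex Filter Topology
open scoped ENNReal NNReal ComplexConjugate

namespace Pool.Agent.Helper793.CM

/-- functions with finite Dirichlet integral: `(1 - |z|) |f'(z)| → 0` at the boundary -/
lemma little_bloch {f : ℂ → ℂ} (hf : DifferentiableOn ℂ f (Metric.ball 0 1))
    (hfin : ∫⁻ z in Metric.ball (0:ℂ) 1, ENNReal.ofReal (‖deriv f z‖ ^ 2) ≠ ∞)
    {ε : ℝ} (hε : 0 < ε) :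
    ∃ δ > 0, ∀ z : ℂ, ‖z‖ < 1 → 1 - ‖z‖ < δ → ‖deriv f z‖ * (1 - ‖z‖) ≤ ε := by
  have ho : IsOpen (Metric.ball (0:ℂ) 1) := Metric.isOpen_ball
  have hf1 : DifferentiableOn ℂ (deriv f) (Metric.ball 0 1) := hf.deriv ho
  have hε' : ENNReal.ofReal (π * ε ^ 2) ≠ 0 := by
    rw [ne_eq, ENNReal.ofReal_eq_zero, not_le]; positivity
  obtain ⟨η, hη, h⟩ := exists_pos_setLIntegral_lt_of_measure_lt hfin hε'
  have hc : Tendsto (fun R : ℝ => ENNReal.ofReal R ^ 2 * (NNReal.pi : ℝ≥0∞)) (𝓝 0) (𝓝 0) := by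
    have h1 : Continuous (fun R : ℝ => ENNReal.ofReal (R ^ 2 * π)) := by
      exact ENNReal.continuous_ofReal.comp (by fun_prop)
    have h2 := h1.tendsto 0
    simp only [ne_eq, OfNat.ofNat_ne_zero, not_false_eq_true, zero_pow, zero_mul,
      ENNReal.ofReal_zero] at h2
    refine tendsto_of_tendsto_of_tendsto_of_le_of_le tendsto_const_nhds h2
      (fun _ => bot_le) ?_
    intro R
    simp only
    rw [ENNReal.ofReal_mul (by positivity), ← NNReal.coe_real_pi, ENNReal.ofReal_coe_nnreal]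
    gcongr
    rcases le_total 0 R with hR | hR
    · rw [ENNReal.ofReal_pow hR]
    · rw [ENNReal.ofReal_of_nonpos hR]; simp
  have hev := hc.eventually_lt_const hη
  rw [Metric.eventually_nhds_iff] at hev
  obtain ⟨δ, hδ, hδ'⟩ := hev
  refine ⟨δ, hδ, fun z hz1 hz2 => ?_⟩
  set R := 1 - ‖z‖ with hR
  have hR0 : 0 < R := by rw [hR]; linarith
  have hsub : Metric.ball z R ⊆ Metric.ball 0 1 := by
    intro w hw
    rw [mem_ball_iff_norm] at hw
    rw [mem_ball_zero_iff]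
    have : ‖w‖ ≤ ‖w - z‖ + ‖z‖ := by simpa using norm_add_le (w - z) z
    linarith
  have h1 := disc_mvi hR0 (hf1.mono hsub)
  have h2 : (volume.restrict (Metric.ball (0:ℂ) 1)) (Metric.ball z R) < η := by
    refine lt_of_le_of_lt (Measure.restrict_apply_le _ _) ?_
    rw [Complex.volume_ball]
    apply hδ'
    rw [Real.dist_eq, sub_zero, abs_of_pos hR0]
    exact hz2
  have h3 := h _ h2
  rw [Measure.restrict_restrict Metric.isOpen_ball.measurableSet, inter_eq_left.2 hsub] at h3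
  have h4 := h1.trans_lt h3
  have h5 := (ENNReal.ofReal_lt_ofReal_iff (by positivity)).1 h4
  have h6 : (‖deriv f z‖ * R) ^ 2 < ε ^ 2 := by
    have : π * (‖deriv f z‖ * R) ^ 2 < π * ε ^ 2 := by nlinarith
    exact lt_of_mul_lt_mul_left this Real.pi_pos.le
  exact (abs_le_of_sq_le_sq' h6.le hε.le).2

/-- nontangential limits from radial limits -/
lemma nt_of_radial {f : ℂ → ℂ} (hf : DifferentiableOn ℂ f (Metric.ball 0 1))
    (hfin : ∫⁻ z in Metric.ball (0:ℂ) 1, ENNReal.ofReal (‖deriv f z‖ ^ 2) ≠ ∞) {θ : ℝ} {w : ℂ}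
    (h : Tendsto (fun r : ℝ => f ((r : ℂ) * bpt θ)) (𝓝[<] 1) (𝓝 w)) : IsNTLimit f θ w := by
  have ho : IsOpen (Metric.ball (0:ℂ) 1) := Metric.isOpen_ball
  intro M
  set S := {z : ℂ | ‖z‖ < 1 ∧ ‖z - bpt θ‖ < M * (1 - ‖z‖)} with hS
  have hn : Tendsto (fun z : ℂ => ‖z‖) (𝓝[S] (bpt θ)) (𝓝[<] 1) := by
    rw [tendsto_nhdsWithin_iff]
    refine ⟨?_, ?_⟩
    · have := continuous_norm.tendsto (bpt θ)
      rw [norm_bpt'] at this
      exact this.mono_left nhdsWithin_le_nhds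
    · filter_upwards [self_mem_nhdsWithin] with z hz
      exact hz.1
  have h1 : Tendsto (fun z : ℂ => f ((‖z‖ : ℂ) * bpt θ)) (𝓝[S] (bpt θ)) (𝓝 w) := h.comp hn
  have h2 : Tendsto (fun z : ℂ => f z - f ((‖z‖ : ℂ) * bpt θ)) (𝓝[S] (bpt θ)) (𝓝 0) := by
    rw [Metric.tendsto_nhds]
    intro ε hε
    set M' := |M| + 1 with hM'
    have hM0 : 0 < M' := by positivity
    obtain ⟨δ, hδ, hb⟩ := little_bloch hf hfin (ε := ε / (2 * M')) (by positivity)
    have hev : ∀ᶠ z in 𝓝[S] (bpt θ), 1 - δ / (1 + M') < ‖z‖ := by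
      have : Tendsto (fun z : ℂ => ‖z‖) (𝓝[S] (bpt θ)) (𝓝 1) :=
        hn.mono_right nhdsWithin_le_nhds
      apply this.eventually_const_lt
      have : 0 < δ / (1 + M') := by positivity
      linarith
    filter_upwards [hev, self_mem_nhdsWithin] with z hz hzS
    obtain ⟨hz1, hz2⟩ := hzS
    have hd0 : 0 < 1 - ‖z‖ := by linarith
    have hzδ : (1 + M') * (1 - ‖z‖) < δ := by
      have h3 : 1 - ‖z‖ < δ / (1 + M') := by linarith
      rw [lt_div_iff₀ (by positivity)] at h3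
      linarith
    have hdist : ‖(‖z‖ : ℂ) * bpt θ - z‖ ≤ M' * (1 - ‖z‖) := by
      have e1 : (‖z‖ : ℂ) * bpt θ - z = -(z - bpt θ) - ((1 - ‖z‖ : ℝ) : ℂ) * bpt θ := by
        push_cast; ring
      rw [e1]
      refine (norm_sub_le _ _).trans ?_
      rw [norm_neg, norm_mul, norm_bpt', mul_one, Complex.norm_real, Real.norm_eq_abs,
        abs_of_pos hd0, hM']
      have : M * (1 - ‖z‖) ≤ |M| * (1 - ‖z‖) := by
        gcongr; exact le_abs_self M
      linarith
    have hseg : ∀ x ∈ segment ℝ z ((‖z‖ : ℂ) * bpt θ), ‖x‖ ≤ ‖z‖ ∧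
        ‖x - z‖ ≤ M' * (1 - ‖z‖) := by
      intro x hx
      constructor
      · have hcv : Convex ℝ (Metric.closedBall (0:ℂ) ‖z‖) := convex_closedBall _ _
        have := hcv.segment_subset (by simp : z ∈ Metric.closedBall (0:ℂ) ‖z‖) (by
          rw [mem_closedBall_zero_iff, norm_mul, norm_bpt', mul_one, Complex.norm_real,
            norm_norm]) hx
        simpa using this
      · have hcv : Convex ℝ (Metric.closedBall z (M' * (1 - ‖z‖))) := convex_closedBall _ _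
        have := hcv.segment_subset (Metric.mem_closedBall_self (by positivity)) (by
          rw [mem_closedBall_iff_norm]; exact hdist) hx
        rwa [mem_closedBall_iff_norm] at this
    have hbd : ∀ x ∈ segment ℝ z ((‖z‖ : ℂ) * bpt θ),
        ‖deriv f x‖ ≤ ε / (2 * M') / (1 - ‖z‖) := by
      intro x hx
      obtain ⟨hx1, hx2⟩ := hseg x hx
      have h3 : ‖z‖ ≤ ‖x‖ + ‖x - z‖ := by
        have := norm_sub_le x (x - z)
        simpa using this
      have h4 := hb x (by linarith) (by linarith)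
      rw [le_div_iff₀ hd0]
      have h5 : (0:ℝ) ≤ ‖deriv f x‖ := norm_nonneg _
      nlinarith
    have h6 := Convex.norm_image_sub_le_of_norm_deriv_le (f := f)
      (fun x hx => hf.differentiableAt (ho.mem_nhds (by
        rw [mem_ball_zero_iff]; exact (hseg x hx).1.trans_lt hz1))) hbd
      (convex_segment z ((‖z‖ : ℂ) * bpt θ)) (right_mem_segment ℝ _ _) (left_mem_segment ℝ _ _)
    rw [dist_zero_right]
    refine h6.trans_lt ?_
    rw [norm_sub_rev] at hdist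
    calc ε / (2 * M') / (1 - ‖z‖) * ‖z - (‖z‖ : ℂ) * bpt θ‖
        ≤ ε / (2 * M') / (1 - ‖z‖) * (M' * (1 - ‖z‖)) := by gcongr
      _ = ε / 2 := by field_simp
      _ < ε := by linarith
  have h3 := h2.add h1
  rw [zero_add] at h3
  simpa using h3

lemma radial_exists {f : ℂ → ℂ} (hf : DifferentiableOn ℂ f (Metric.ball 0 1)) {θ : ℝ}
    (hθ : ∫⁻ r in Ioo (0:ℝ) 1, ENNReal.ofReal r *
      ENNReal.ofReal (‖deriv f ((r:ℂ) * bpt θ)‖ ^ 2) < ∞) :
    ∃ w, Tendsto (fun r : ℝ => f ((r : ℂ) * bpt θ)) (𝓝[<] 1) (𝓝 w) := by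
  have ho : IsOpen (Metric.ball (0:ℂ) 1) := Metric.isOpen_ball
  have hf1 : DifferentiableOn ℂ (deriv f) (Metric.ball 0 1) := hf.deriv ho
  have hmem : ∀ r ∈ Ioo (0:ℝ) 1, (r:ℂ) * bpt θ ∈ Metric.ball (0:ℂ) 1 := by
    intro r hr
    rw [mem_ball_zero_iff, norm_mul, norm_bpt', mul_one, Complex.norm_real, Real.norm_eq_abs,
      abs_of_pos hr.1]
    exact hr.2
  have hsub : Ioo (1/2:ℝ) 1 ⊆ Ioo 0 1 := Ioo_subset_Ioo_left (by norm_num)
  set φ : ℝ → ℂ := fun r => deriv f ((r:ℂ) * bpt θ) * bpt θ with hφ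
  have hcont : ContinuousOn φ (Ioo 0 1) := by
    refine ContinuousOn.mul ?_ continuousOn_const
    exact hf1.continuousOn.comp (Continuous.continuousOn (by fun_prop)) hmem
  have hint : IntegrableOn φ (Ioo (1/2) 1) := by
    refine ⟨(hcont.mono hsub).aestronglyMeasurable measurableSet_Ioo, ?_⟩
    rw [hasFiniteIntegral_iff_norm]
    have hle : ∫⁻ r in Ioo (1/2:ℝ) 1, ENNReal.ofReal ‖φ r‖ ≤
        ∫⁻ r in Ioo (1/2:ℝ) 1, (1 + 2 * (ENNReal.ofReal r *
          ENNReal.ofReal (‖deriv f ((r:ℂ) * bpt θ)‖ ^ 2))) := by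
      refine lintegral_mono_ae ?_
      filter_upwards [ae_restrict_mem measurableSet_Ioo] with r hr
      have hr0 : 0 < r := (hsub hr).1
      rw [← ENNReal.ofReal_mul hr0.le, show (2:ℝ≥0∞) = ENNReal.ofReal 2 by simp,
        ← ENNReal.ofReal_mul (by norm_num), ← ENNReal.ofReal_one,
        ← ENNReal.ofReal_add (by norm_num) (by positivity)]
      apply ENNReal.ofReal_le_ofReal
      simp only [hφ]
      rw [norm_mul, norm_bpt', mul_one]
      have h1 : (1/2:ℝ) < r := hr.1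
      nlinarith [sq_nonneg (‖deriv f ((r:ℂ) * bpt θ)‖ - 1/2),
        sq_nonneg ‖deriv f ((r:ℂ) * bpt θ)‖]
    refine hle.trans_lt ?_
    rw [lintegral_add_left measurable_const, lintegral_const_mul' _ _ (by simp)]
    refine ENNReal.add_lt_top.2 ⟨by simp, ENNReal.mul_lt_top (by simp) ?_⟩
    exact (lintegral_mono_set hsub).trans_lt hθ
  have hder : ∀ r ∈ Ioo (0:ℝ) 1, HasDerivAt (fun r : ℝ => f ((r : ℂ) * bpt θ)) (φ r) r := by
    intro r hr
    have h1 : HasDerivAt f (deriv f ((r:ℂ) * bpt θ)) ((r:ℂ) * bpt θ) :=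
      (hf.differentiableAt (ho.mem_nhds (hmem r hr))).hasDerivAt
    have h2 : HasDerivAt (fun r : ℝ => (r : ℂ) * bpt θ) (bpt θ) r := by
      have := (Complex.ofRealCLM.hasDerivAt (x := r)).mul_const (bpt θ)
      simpa using this
    exact h1.comp r h2
  have hint2 : IntegrableOn φ (uIcc (1/2) 1) := by
    rw [uIcc_of_le (by norm_num), integrableOn_Icc_iff_integrableOn_Ioo]
    exact hint
  have hprim := intervalIntegral.continuousOn_primitive_interval hint2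
  set w := f (((3/4:ℝ):ℂ) * bpt θ) + (∫ t in (1/2:ℝ)..1, φ t) - ∫ t in (1/2:ℝ)..(3/4), φ t with hw
  refine ⟨w, ?_⟩
  have h1 : Tendsto (fun r : ℝ => ∫ t in (1/2:ℝ)..r, φ t) (𝓝[<] 1) (𝓝 (∫ t in (1/2:ℝ)..1, φ t)) := by
    have h2 := hprim 1 right_mem_uIcc
    rw [uIcc_of_le (by norm_num)] at h2
    have h3 : 𝓝[<] (1:ℝ) = 𝓝[Ioo (1/2) 1] 1 := (nhdsWithin_Ioo_eq_nhdsLT (by norm_num)).symm
    rw [h3]
    exact h2.mono_left (nhdsWithin_mono _ Ioo_subset_Icc_self)
  have h4 : Tendsto (fun r : ℝ => f (((3/4:ℝ):ℂ) * bpt θ) + (∫ t in (1/2:ℝ)..r, φ t) -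
      ∫ t in (1/2:ℝ)..(3/4), φ t) (𝓝[<] 1) (𝓝 w) := (h1.const_add _).sub_const _
  refine (tendsto_congr' ?_).2 h4
  have h5 : Ioo (1/2:ℝ) 1 ∈ 𝓝[<] (1:ℝ) := Ioo_mem_nhdsLT (by norm_num)
  filter_upwards [h5] with r hr
  have hi : ∀ x ∈ Ioo (1/2:ℝ) 1, IntervalIntegrable φ volume (1/2) x := by
    intro x hx
    rw [intervalIntegrable_iff_integrableOn_Ioo_of_le hx.1.le]
    exact hint.mono_set (Ioo_subset_Ioo_right hx.2.le)
  have h34 : (3/4:ℝ) ∈ Ioo (1/2:ℝ) 1 := by constructor <;> norm_num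
  have hF : ∫ t in (3/4:ℝ)..r, φ t = f ((r:ℂ) * bpt θ) - f (((3/4:ℝ):ℂ) * bpt θ) := by
    apply intervalIntegral.integral_eq_sub_of_hasDerivAt
    · intro x hx
      apply hder
      have : uIcc (3/4:ℝ) r ⊆ Ioo 0 1 := by
        intro y hy
        rw [mem_uIcc] at hy
        rcases hy with hy | hy
        · exact ⟨by linarith [hy.1], by linarith [hy.2, hr.2]⟩
        · exact ⟨by linarith [hy.1, hr.1], by linarith [hy.2]⟩
      exact this hx
    · exact (hi _ h34).symm.trans (hi r hr)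
  have h6 := intervalIntegral.integral_add_adjacent_intervals (hi _ h34)
    ((hi _ h34).symm.trans (hi r hr))
  rw [← h6, hF]
  ring

lemma ae_shift {P : ℝ → Prop} (hP : ∀ θ, P (θ + 2 * π) ↔ P θ)
    (h : ∀ᵐ θ ∂(volume.restrict (Ioo (-π) π)), P θ) :
    ∀ᵐ θ ∂(volume.restrict (Ioc 0 (2 * π))), P θ := by
  rw [ae_restrict_iff' measurableSet_Ioo] at h
  rw [ae_restrict_iff' measurableSet_Ioc]
  have h2 := (measurePreserving_sub_right (volume : Measure ℝ) (2 * π)).quasiMeasurePreserving.ae h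
  have h3 : ∀ᵐ θ : ℝ, θ ≠ π := by
    rw [ae_iff]; simp
  filter_upwards [h, h2, h3] with θ h1 h2 h3 hθ
  rcases lt_or_gt_of_ne h3 with h4 | h4
  · exact h1 ⟨by linarith [hθ.1, Real.pi_pos], h4⟩
  · have h5 := h2 ⟨by linarith, by linarith [hθ.2, Real.pi_pos]⟩
    have := (hP (θ - 2 * π)).2 h5
    rwa [sub_add_cancel] at this

/-- every function of finite Dirichlet integral has a boundary function -/
theorem exists_bdry {f : ℂ → ℂ} (hf : DifferentiableOn ℂ f (Metric.ball 0 1))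
    (hfin : ∫⁻ z in Metric.ball (0:ℂ) 1, ENNReal.ofReal (‖deriv f z‖ ^ 2) ≠ ∞) :
    ∃ b : ℝ → ℂ, IsBoundaryFn f b := by
  have hfin0 := hfin
  have h1 : ∀ᵐ θ ∂(volume.restrict (Ioo (-π) π)), ∫⁻ r in Ioo (0:ℝ) 1, ENNReal.ofReal r *
      ENNReal.ofReal (‖deriv f ((r:ℂ) * bpt θ)‖ ^ 2) < ∞ := by
    rw [polar_ball, Measure.volume_eq_prod, ← Measure.prod_restrict,
      lintegral_prod_symm _ (measurable_polar f).aemeasurable] at hfin
    exact ae_lt_top (measurable_polar f).lintegral_prod_left' hfin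
  have h2 : ∀ᵐ θ ∂(volume.restrict (Ioo (-π) π)), ∃ w, IsNTLimit f θ w := by
    filter_upwards [h1] with θ hθ
    obtain ⟨w, hw⟩ := radial_exists hf hθ
    exact ⟨w, nt_of_radial hf hfin0 hw⟩
  have h3 : ∀ᵐ θ ∂(volume.restrict (Ioc 0 (2 * π))), ∃ w, IsNTLimit f θ w := by
    refine ae_shift (P := fun θ => ∃ w, IsNTLimit f θ w) ?_ h2
    intro θ
    have : bpt (θ + 2 * π) = bpt θ := by
      unfold bpt
      push_cast
      rw [add_mul, Complex.exp_add, Complex.exp_two_pi_mul_I, mul_one]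
    simp only [IsNTLimit, this]
  classical
  refine ⟨fun θ => if h : ∃ w, IsNTLimit f θ w then h.choose else 0, ?_⟩
  filter_upwards [h3] with θ hθ
  simp only [hθ, dite_true]
  exact hθ.choose_spec

lemma fin_of_classF {f : ℂ → ℂ} (hf : f ∈ ClassF) :
    ∫⁻ z in Metric.ball (0:ℂ) 1, ENNReal.ofReal (‖deriv f z‖ ^ 2) ≠ ∞ := by
  intro h
  have h1 := hf.2.2
  unfold dirichletSq at h1
  rw [h, ENNReal.mul_top (by simp)] at h1
  exact absurd h1 (by simp)

end Pool.Agent.Helper793.CM
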