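import Mathlib

set_option autoImplicit false

open MeasureTheory Set Filter Topology
open scoped ENNReal

/-!
Definitions for the sharp Chang-Marshall inequality.
-/

namespace Pool.Agent.Helper793.CM

/-- `J(f)² = (1/π) ∬_𝔻 |f'(z)|² dx dy`, the square of the normalised Dirichlet integral
(an extended nonnegative real). -/
noncomputable def dirichletSq (f : ℂ → ℂ) : ℝ≥0∞ :=
  (ENNReal.ofReal Real.pi)⁻¹ *
    ∫⁻ z in Metric.ball (0 : ℂ) 1, ENNReal.ofReal (‖deriv f z‖ ^ 2)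

/-- The class `𝓕`: analytic functions on the open unit disc with `f(0) = 0` and `J(f) ≤ 1`. -/
def ClassF : Set (ℂ → ℂ) :=
  {f | DifferentiableOn ℂ f (Metric.ball 0 1) ∧ f 0 = 0 ∧ dirichletSq f ≤ 1}

/-- The boundary point `e^{iθ}`. -/
noncomputable def bpt (θ : ℝ) : ℂ := Complex.exp (θ * Complex.I)

/-- `w` is the nontangential limit of `f` at `e^{iθ}`: for every aperture `M`, `f(z) → w` as
`z → e^{iθ}` inside the Stolz region `{z : |z| < 1, |z - e^{iθ}| < M (1 - |z|)}`. -/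
def IsNTLimit (f : ℂ → ℂ) (θ : ℝ) (w : ℂ) : Prop :=
  ∀ M : ℝ, Tendsto f
    (𝓝[{z : ℂ | ‖z‖ < 1 ∧ ‖z - bpt θ‖ < M * (1 - ‖z‖)}] (bpt θ)) (𝓝 w)

/-- `b` is the boundary function of `f`: `b θ` is the nontangential limit of `f` at `e^{iθ}` for
almost every `θ ∈ (0, 2π]`. -/
def IsBoundaryFn (f : ℂ → ℂ) (b : ℝ → ℂ) : Prop :=
  ∀ᵐ θ ∂(volume.restrict (Ioc 0 (2 * Real.pi))), IsNTLimit f θ (b θ)

/-- `∫_0^{2π} e^{|b(θ)|²} dθ`. -/
noncomputable def expInt (b : ℝ → ℂ) : ℝ≥0∞ :=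
  ∫⁻ θ in Ioc 0 (2 * Real.pi), ENNReal.ofReal (Real.exp (‖b θ‖ ^ 2))

end Pool.Agent.Helper793.CM
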