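import Pool.Agent.Helper793.CM.Limit

set_option autoImplicit false

open MeasureTheory Set Real Complex Filter Topology
open scoped ENNReal NNReal ComplexConjugate

namespace Pool.Agent.Helper793.CM

/-- integration over the disc in polar coordinates -/
lemma polar_ball (F : ℂ → ℝ≥0∞) :
    ∫⁻ z in Metric.ball (0:ℂ) 1, F z =
      ∫⁻ p in (Ioo (0:ℝ) 1 ×ˢ Ioo (-π) π),
        ENNReal.ofReal p.1 * F ((p.1 : ℂ) * Complex.exp (p.2 * I)) := by
  rw [← lintegral_indicator Metric.isOpen_ball.measurableSet,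
    ← Complex.lintegral_comp_polarCoord_symm, polarCoord_target]
  have hms : MeasurableSet (Ioi (0:ℝ) ×ˢ Ioo (-π) π) := measurableSet_Ioi.prod measurableSet_Ioo
  have hms2 : MeasurableSet (Ioo (0:ℝ) 1 ×ˢ Ioo (-π) π) := measurableSet_Ioo.prod measurableSet_Ioo
  rw [← lintegral_indicator hms, ← lintegral_indicator hms2]
  apply lintegral_congr
  rintro ⟨r, θ⟩
  by_cases h : (r, θ) ∈ Ioi (0:ℝ) ×ˢ Ioo (-π) π
  · rw [indicator_of_mem h]
    have hr : 0 < r := h.1
    have e : Complex.polarCoord.symm (r, θ) = (r : ℂ) * Complex.exp (θ * I) := by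
      rw [Complex.polarCoord_symm_apply, Complex.exp_mul_I]
      push_cast; rfl
    have hn : ‖(r : ℂ) * Complex.exp (θ * I)‖ = r := by
      rw [norm_mul, Complex.norm_exp_ofReal_mul_I, mul_one, Complex.norm_real, Real.norm_eq_abs,
        abs_of_pos hr]
    rw [e, smul_eq_mul]
    by_cases h1 : r < 1
    · have m1 : (r, θ) ∈ Ioo (0:ℝ) 1 ×ˢ Ioo (-π) π := ⟨⟨hr, h1⟩, h.2⟩
      rw [indicator_of_mem m1, indicator_of_mem]
      rw [mem_ball_zero_iff, hn]; exact h1
    · have m1 : (r, θ) ∉ Ioo (0:ℝ) 1 ×ˢ Ioo (-π) π := fun hh => h1 hh.1.2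
      rw [indicator_of_notMem m1, indicator_of_notMem, mul_zero]
      rw [mem_ball_zero_iff, hn]; exact h1
  · have m1 : (r, θ) ∉ Ioo (0:ℝ) 1 ×ˢ Ioo (-π) π := fun hh => h ⟨hh.1.1, hh.2⟩
    rw [indicator_of_notMem h, indicator_of_notMem m1]

lemma measurable_polar (f : ℂ → ℂ) :
    Measurable (fun p : ℝ × ℝ => ENNReal.ofReal p.1 *
      ENNReal.ofReal (‖deriv f ((p.1 : ℂ) * Complex.exp (p.2 * I))‖ ^ 2)) := by
  have h1 : Measurable (deriv f) := measurable_deriv f
  have h2 : Measurable (fun p : ℝ × ℝ => (p.1 : ℂ) * Complex.exp (p.2 * I)) := by fun_prop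
  have h3 : Measurable (fun p : ℝ × ℝ => ‖deriv f ((p.1 : ℂ) * Complex.exp (p.2 * I))‖ ^ 2) :=
    ((h1.comp h2).norm).pow_const 2
  exact (ENNReal.measurable_ofReal.comp measurable_fst).mul (ENNReal.measurable_ofReal.comp h3)

/-- the radial density -/
lemma area'_log {f : ℂ → ℂ} {r : ℝ} (hr : 0 < r) :
    area' (h1 f) (Real.log r) =
      (1 / π) * (r ^ 2 * ∫ θ in (-π)..π, ‖deriv f ((r : ℂ) * Complex.exp (θ * I))‖ ^ 2) := by
  unfold area'
  congr 1
  have e : ∀ θ : ℝ, ‖h1 f (pt (Real.log r) θ)‖ ^ 2 =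
      r ^ 2 * ‖deriv f ((r : ℂ) * Complex.exp (θ * I))‖ ^ 2 := by
    intro θ
    have : Complex.exp (pt (Real.log r) θ) = (r : ℂ) * Complex.exp (θ * I) := by
      unfold pt
      rw [Complex.exp_add, ← Complex.ofReal_exp, Real.exp_log hr]
    simp only [h1, this]
    rw [norm_mul, norm_mul, Complex.norm_exp_ofReal_mul_I, mul_one, Complex.norm_real,
      Real.norm_eq_abs, abs_of_pos hr, mul_pow]
  simp only [e]
  rw [intervalIntegral.integral_const_mul]
  congr 1
  have hper : Function.Periodic (fun θ : ℝ => ‖deriv f ((r : ℂ) * Complex.exp (θ * I))‖ ^ 2)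
      (2 * π) := by
    intro θ
    have : Complex.exp (((θ + 2 * π : ℝ) : ℂ) * I) = Complex.exp (θ * I) := by
      push_cast
      rw [add_mul, Complex.exp_add, Complex.exp_two_pi_mul_I, mul_one]
    simp only [this]
  have := hper.intervalIntegral_add_eq 0 (-π)
  rw [zero_add] at this
  rw [this]
  congr 1
  ring

lemma ar_sub_le {f : ℂ → ℂ} (hf : DifferentiableOn ℂ f (Metric.ball 0 1)) {r1 r2 : ℝ}
    (h01 : 0 < r1) (h12 : r1 < r2) (h2 : r2 < 1) :
    ENNReal.ofReal (π * (ar f (Real.log r2) - ar f (Real.log r1))) ≤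
      ∫⁻ z in Metric.ball (0:ℂ) 1, ENNReal.ofReal (‖deriv f z‖ ^ 2) := by
  have H := mkHP hf
  have ho : IsOpen (Metric.ball (0:ℂ) 1) := Metric.isOpen_ball
  have hf1 : DifferentiableOn ℂ (deriv f) (Metric.ball 0 1) := hf.deriv ho
  -- FTC in `r`
  have hd : ∀ r ∈ uIcc r1 r2, HasDerivAt (fun r => π * ar f (Real.log r))
      (r * ∫ θ in (-π)..π, ‖deriv f ((r : ℂ) * Complex.exp (θ * I))‖ ^ 2) r := by
    intro r hr
    rw [uIcc_of_le h12.le] at hr
    have hr0 : 0 < r := h01.trans_le hr.1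
    have hr1 : r < 1 := hr.2.trans_lt h2
    have k := ((H.area_deriv (Real.log_neg hr0 hr1)).comp r (Real.hasDerivAt_log hr0.ne')).const_mul π
    have e : π * (area' (h1 f) (Real.log r) * r⁻¹) =
        r * ∫ θ in (-π)..π, ‖deriv f ((r : ℂ) * Complex.exp (θ * I))‖ ^ 2 := by
      rw [area'_log hr0]
      generalize (∫ θ in (-π)..π, ‖deriv f ((r : ℂ) * Complex.exp (θ * I))‖ ^ 2) = J
      field_simp
    rw [← e]
    exact k
  have hcont : ContinuousOn (fun r : ℝ => r * ∫ θ in (-π)..π,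
      ‖deriv f ((r : ℂ) * Complex.exp (θ * I))‖ ^ 2) (Icc r1 r2) := by
    have k : ContinuousOn (fun r : ℝ => π * area' (h1 f) (Real.log r) / r) (Icc r1 r2) := by
      refine ContinuousOn.div (continuousOn_const.mul (H.area'_cont.comp
        (Real.continuousOn_log.mono ?_) ?_)) continuousOn_id ?_
      · intro r hr; exact (h01.trans_le hr.1).ne'
      · intro r hr; exact Real.log_neg (h01.trans_le hr.1) (hr.2.trans_lt h2)
      · intro r hr; exact (h01.trans_le hr.1).ne'
    refine k.congr ?_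
    intro r hr
    have hr0 : 0 < r := h01.trans_le hr.1
    simp only
    rw [area'_log hr0]
    generalize (∫ θ in (-π)..π, ‖deriv f ((r : ℂ) * Complex.exp (θ * I))‖ ^ 2) = J
    field_simp
  have hint : IntervalIntegrable (fun r : ℝ => r * ∫ θ in (-π)..π,
      ‖deriv f ((r : ℂ) * Complex.exp (θ * I))‖ ^ 2) volume r1 r2 :=
    (hcont.mono (by rw [uIcc_of_le h12.le])).intervalIntegrable
  have hFTC := intervalIntegral.integral_eq_sub_of_hasDerivAt hd hint
  rw [← mul_sub] at hFTC
  rw [← hFTC, intervalIntegral.integral_of_le h12.le]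
  rw [ofReal_integral_eq_lintegral_ofReal]
  · rw [polar_ball, Measure.volume_eq_prod, setLIntegral_prod _ (measurable_polar f).aemeasurable]
    calc ∫⁻ r in Ioc r1 r2, ENNReal.ofReal (r * ∫ θ in (-π)..π,
          ‖deriv f ((r : ℂ) * Complex.exp (θ * I))‖ ^ 2)
        ≤ ∫⁻ r in Ioc r1 r2, ∫⁻ θ in Ioo (-π) π, ENNReal.ofReal r *
          ENNReal.ofReal (‖deriv f ((r : ℂ) * Complex.exp (θ * I))‖ ^ 2) := by
          refine lintegral_mono_ae ?_
          filter_upwards [ae_restrict_mem measurableSet_Ioc] with r hr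
          have hr0 : 0 < r := h01.trans hr.1
          have hr1 : r < 1 := hr.2.trans_lt h2
          have hc : Continuous (fun θ : ℝ => ‖deriv f ((r : ℂ) * Complex.exp (θ * I))‖ ^ 2) := by
            have hk : ContinuousOn (deriv f) (Metric.ball 0 1) := hf1.continuousOn
            have : ContinuousOn (fun θ : ℝ => deriv f ((r : ℂ) * Complex.exp (θ * I))) univ := by
              refine hk.comp (Continuous.continuousOn (by fun_prop)) ?_
              intro θ _
              rw [mem_ball_zero_iff, norm_mul, Complex.norm_exp_ofReal_mul_I, mul_one,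
                Complex.norm_real, Real.norm_eq_abs, abs_of_pos hr0]
              exact hr1
            exact (continuousOn_univ.1 this).norm.pow 2
          rw [lintegral_const_mul' _ _ ENNReal.ofReal_ne_top,
            ENNReal.ofReal_mul hr0.le]
          gcongr
          rw [intervalIntegral.integral_of_le (by linarith [Real.pi_pos]),
            ← ofReal_integral_eq_lintegral_ofReal, integral_Ioc_eq_integral_Ioo]
          · exact (hc.integrableOn_Icc (a := -π) (b := π)).mono_set Ioo_subset_Icc_self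
          · exact ae_of_all _ fun θ => by positivity
      _ ≤ ∫⁻ r in Ioo 0 1, ∫⁻ θ in Ioo (-π) π, ENNReal.ofReal r *
          ENNReal.ofReal (‖deriv f ((r : ℂ) * Complex.exp (θ * I))‖ ^ 2) := by
          refine lintegral_mono_set ?_
          intro r hr
          exact ⟨h01.trans hr.1, hr.2.trans_lt h2⟩
  · exact (hint.1)
  · filter_upwards [ae_restrict_mem measurableSet_Ioc] with r hr
    have hr0 : 0 < r := h01.trans hr.1
    have : 0 ≤ ∫ θ in (-π)..π, ‖deriv f ((r : ℂ) * Complex.exp (θ * I))‖ ^ 2 :=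
      intervalIntegral.integral_nonneg (by linarith [Real.pi_pos]) (fun θ _ => by positivity)
    simp only [Pi.zero_apply]
    positivity

lemma ar_le {f : ℂ → ℂ} (hf : DifferentiableOn ℂ f (Metric.ball 0 1)) {t : ℝ} (ht : t < 0) :
    ENNReal.ofReal (ar f t) ≤ dirichletSq f := by
  have h1 : ∀ s < t, ENNReal.ofReal (π * (ar f t - ar f s)) ≤
      ∫⁻ z in Metric.ball (0:ℂ) 1, ENNReal.ofReal (‖deriv f z‖ ^ 2) := by
    intro s hs
    have := ar_sub_le hf (r1 := Real.exp s) (r2 := Real.exp t) (Real.exp_pos s)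
      (Real.exp_lt_exp.2 hs) (Real.exp_lt_one_iff.2 ht)
    rwa [Real.log_exp, Real.log_exp] at this
  have h2 : ENNReal.ofReal (π * ar f t) ≤
      ∫⁻ z in Metric.ball (0:ℂ) 1, ENNReal.ofReal (‖deriv f z‖ ^ 2) := by
    have hl : Tendsto (fun s => ENNReal.ofReal (π * (ar f t - ar f s))) atBot
        (𝓝 (ENNReal.ofReal (π * ar f t))) := by
      have := ((ar_tendsto hf).const_sub (ar f t)).const_mul π
      rw [sub_zero] at this
      exact (ENNReal.continuous_ofReal.tendsto _).comp this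
    refine le_of_tendsto hl ?_
    filter_upwards [Iio_mem_atBot t] with s hs
    exact h1 s hs
  unfold dirichletSq
  rw [ENNReal.ofReal_mul Real.pi_pos.le] at h2
  have hp : ENNReal.ofReal π ≠ 0 := by
    rw [ne_eq, ENNReal.ofReal_eq_zero, not_le]; exact Real.pi_pos
  calc ENNReal.ofReal (ar f t) = (ENNReal.ofReal π)⁻¹ * (ENNReal.ofReal π * ENNReal.ofReal (ar f t)) := by
        rw [← mul_assoc, ENNReal.inv_mul_cancel hp ENNReal.ofReal_ne_top, one_mul]
    _ ≤ _ := by gcongr

lemma ar_le_one {f : ℂ → ℂ} (hf : f ∈ ClassF) {t : ℝ} (ht : t < 0) : ar f t ≤ 1 := by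
  have := (ar_le hf.1 ht).trans hf.2.2
  rw [← ENNReal.ofReal_one] at this
  exact (ENNReal.ofReal_le_ofReal_iff zero_le_one).1 this

end Pool.Agent.Helper793.CM
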