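import Pool.Agent.Helper793.CM.Dir

set_option autoImplicit false

open MeasureTheory Set Real Complex Filter Topology
open scoped ENNReal NNReal ComplexConjugate

namespace Pool.Agent.Helper793.CM

lemma exp_pt_eq (t θ : ℝ) : Complex.exp (pt t θ) = (Real.exp t : ℂ) * bpt θ := by
  unfold pt bpt
  rw [Complex.exp_add, Complex.ofReal_exp]

lemma norm_bpt (θ : ℝ) : ‖bpt θ‖ = 1 := by
  unfold bpt; exact Complex.norm_exp_ofReal_mul_I θ

/-- radial limits from nontangential limits -/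
lemma radial {f : ℂ → ℂ} {θ : ℝ} {w : ℂ} (h : IsNTLimit f θ w) :
    Tendsto (fun t : ℝ => h0 f (pt t θ)) (𝓝[<] 0) (𝓝 w) := by
  have h2 := h 2
  have hp : Tendsto (fun t : ℝ => Complex.exp (pt t θ)) (𝓝[<] 0)
      (𝓝[{z : ℂ | ‖z‖ < 1 ∧ ‖z - bpt θ‖ < 2 * (1 - ‖z‖)}] (bpt θ)) := by
    rw [tendsto_nhdsWithin_iff]
    constructor
    · have hc : Continuous (fun t : ℝ => Complex.exp (pt t θ)) := by unfold pt; fun_prop
      have := hc.tendsto 0
      rw [exp_pt_eq, Real.exp_zero, Complex.ofReal_one, one_mul] at this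
      exact this.mono_left nhdsWithin_le_nhds
    · filter_upwards [self_mem_nhdsWithin] with t ht
      have ht0 : t < 0 := ht
      have he : Real.exp t < 1 := Real.exp_lt_one_iff.2 ht0
      refine ⟨by rw [norm_exp_pt]; exact he, ?_⟩
      rw [norm_exp_pt, exp_pt_eq]
      have : (Real.exp t : ℂ) * bpt θ - bpt θ = ((Real.exp t - 1 : ℝ) : ℂ) * bpt θ := by
        push_cast; ring
      rw [this, norm_mul, norm_bpt, mul_one, Complex.norm_real, Real.norm_eq_abs,
        abs_of_neg (by linarith)]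
      linarith
  exact h2.comp hp

lemma ph_eq {f : ℂ → ℂ} (hf : DifferentiableOn ℂ f (Metric.ball 0 1)) {t : ℝ} (ht : t < 0) :
    ∫⁻ θ in Ioc 0 (2 * π), ENNReal.ofReal (Real.exp (‖h0 f (pt t θ)‖ ^ 2 / ar f t)) =
      ENNReal.ofReal (ph f t) := by
  have H := mkHP hf
  have hc : Continuous (fun θ : ℝ => Real.exp (‖h0 f (pt t θ)‖ ^ 2 / ar f t)) :=
    Real.continuous_exp.comp (((comp_pt' H.c0 ht).norm.pow 2).div_const _)
  rw [show ph f t = ∫ θ in (0:ℝ)..(2 * π), Real.exp (‖h0 f (pt t θ)‖ ^ 2 / ar f t) from rfl,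
    intervalIntegral.integral_of_le (by positivity), ofReal_integral_eq_lintegral_ofReal]
  · exact hc.integrableOn_Ioc
  · exact ae_of_all _ fun θ => (Real.exp_pos _).le

lemma expInt_le_ph {f : ℂ → ℂ} (hf : f ∈ ClassF) (hne : ¬ ∀ᶠ z in 𝓝 (0:ℂ), f z = 0)
    {b : ℝ → ℂ} (hb : IsBoundaryFn f b) {t : ℝ} (ht : t < 0) :
    expInt b ≤ ENNReal.ofReal (ph f t) := by
  have H := mkHP hf.1
  have hpos := ar_pos hf.1 hf.2.1 hne
  have hanti := H.Phi_antitone hpos
  set u : ℕ → ℝ := fun k => -(1 / ((k:ℝ) + 1)) with hu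
  have hu0 : ∀ k, u k < 0 := fun k => by simp only [hu]; rw [neg_lt_zero]; positivity
  have hulim0 : Tendsto u atTop (𝓝 0) := by
    have := (tendsto_one_div_add_atTop_nhds_zero_nat (𝕜 := ℝ)).neg
    rw [neg_zero] at this
    exact this
  have hulim : Tendsto u atTop (𝓝[<] 0) :=
    tendsto_nhdsWithin_iff.2 ⟨hulim0, Eventually.of_forall hu0⟩
  set F : ℕ → ℝ → ℝ≥0∞ := fun k θ => ENNReal.ofReal (Real.exp (‖h0 f (pt (u k) θ)‖ ^ 2)) with hF
  have hFm : ∀ k, Measurable (F k) := by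
    intro k
    have : Continuous (fun θ : ℝ => Real.exp (‖h0 f (pt (u k) θ)‖ ^ 2)) :=
      Real.continuous_exp.comp ((comp_pt' H.c0 (hu0 k)).norm.pow 2)
    exact ENNReal.measurable_ofReal.comp this.measurable
  have h1 : expInt b = ∫⁻ θ in Ioc 0 (2 * π), liminf (fun k => F k θ) atTop := by
    unfold expInt
    apply lintegral_congr_ae
    filter_upwards [hb] with θ hθ
    have h2 := (radial hθ).comp hulim
    have h3 : Tendsto (fun k => F k θ) atTop (𝓝 (ENNReal.ofReal (Real.exp (‖b θ‖ ^ 2)))) := by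
      have h4 : Continuous (fun w : ℂ => ENNReal.ofReal (Real.exp (‖w‖ ^ 2))) :=
        ENNReal.continuous_ofReal.comp (Real.continuous_exp.comp (continuous_norm.pow 2))
      exact (h4.tendsto _).comp h2
    exact h3.liminf_eq.symm
  rw [h1]
  refine (lintegral_liminf_le hFm).trans ?_
  have h5 : ∀ᶠ k in atTop, ∫⁻ θ in Ioc 0 (2 * π), F k θ ≤ ENNReal.ofReal (ph f t) := by
    have h6 : ∀ᶠ k in atTop, t < u k := hulim0.eventually_const_lt ht
    filter_upwards [h6] with k hk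
    calc ∫⁻ θ in Ioc 0 (2 * π), F k θ ≤ ∫⁻ θ in Ioc 0 (2 * π),
          ENNReal.ofReal (Real.exp (‖h0 f (pt (u k) θ)‖ ^ 2 / ar f (u k))) := by
          apply lintegral_mono
          intro θ
          apply ENNReal.ofReal_le_ofReal
          apply Real.exp_le_exp.2
          rw [le_div_iff₀ (hpos _ (hu0 k))]
          have h7 := ar_le_one hf (hu0 k)
          have h8 : 0 ≤ ‖h0 f (pt (u k) θ)‖ ^ 2 := by positivity
          nlinarith
      _ = ENNReal.ofReal (ph f (u k)) := ph_eq hf.1 (hu0 k)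
      _ ≤ _ := ENNReal.ofReal_le_ofReal (hanti ht (hu0 k) hk.le)
  calc liminf (fun k => ∫⁻ θ in Ioc 0 (2 * π), F k θ) atTop
      ≤ liminf (fun _ : ℕ => ENNReal.ofReal (ph f t)) atTop := liminf_le_liminf h5
    _ = _ := liminf_const _

lemma eq_zero_of_ev {f : ℂ → ℂ} (hf : DifferentiableOn ℂ f (Metric.ball 0 1))
    (h : ∀ᶠ z in 𝓝 (0:ℂ), f z = 0) : ∀ z ∈ Metric.ball (0:ℂ) 1, f z = 0 := by
  have ha : AnalyticOnNhd ℂ f (Metric.ball 0 1) := hf.analyticOnNhd Metric.isOpen_ball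
  have := ha.eqOn_zero_of_preconnected_of_eventuallyEq_zero
    (convex_ball (0:ℂ) 1).isPreconnected (by simp : (0:ℂ) ∈ Metric.ball (0:ℂ) 1) h
  exact fun z hz => this hz

lemma expInt_zero {f : ℂ → ℂ} (hf : DifferentiableOn ℂ f (Metric.ball 0 1))
    (h : ∀ᶠ z in 𝓝 (0:ℂ), f z = 0) {b : ℝ → ℂ} (hb : IsBoundaryFn f b) :
    expInt b = ENNReal.ofReal (2 * π) := by
  have h0' := eq_zero_of_ev hf h
  have hb0 : ∀ᵐ θ ∂(volume.restrict (Ioc 0 (2 * π))), b θ = 0 := by
    filter_upwards [hb] with θ hθ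
    have h1 := radial hθ
    have h2 : Tendsto (fun t : ℝ => h0 f (pt t θ)) (𝓝[<] 0) (𝓝 0) := by
      refine (tendsto_congr' ?_).2 tendsto_const_nhds
      filter_upwards [self_mem_nhdsWithin] with t ht
      exact h0' _ (exp_mem (by rw [pt_re]; exact ht))
    exact tendsto_nhds_unique h1 h2
  unfold expInt
  rw [lintegral_congr_ae (g := fun _ => 1)]
  · simp
  · filter_upwards [hb0] with θ hθ
    rw [hθ]; simp

lemma expInt_le {f : ℂ → ℂ} (hf : f ∈ ClassF) {b : ℝ → ℂ} (hb : IsBoundaryFn f b) :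
    expInt b ≤ ENNReal.ofReal (2 * π * Real.exp 1) := by
  by_cases hne : ∀ᶠ z in 𝓝 (0:ℂ), f z = 0
  · rw [expInt_zero hf.1 hne hb]
    apply ENNReal.ofReal_le_ofReal
    have : 1 ≤ Real.exp 1 := Real.one_le_exp zero_le_one
    nlinarith [Real.pi_pos]
  · obtain ⟨m, hm, g, hg, hg0, hfg, hfg1⟩ := local_form hf.1 hf.2.1 hne
    have h1 := expInt_le_ph hf hne hb (t := -1) (by norm_num)
    have h2 := ph_le hf.1 hf.2.1 hne hm hg hg0 hfg hfg1 (t := -1) (by norm_num)
    refine h1.trans (ENNReal.ofReal_le_ofReal (h2.trans ?_))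
    gcongr
    have : (1:ℝ) ≤ m := by exact_mod_cast hm
    rw [div_le_one (by linarith)]
    exact this

end Pool.Agent.Helper793.CM
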