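import Pool.Agent.Helper793.CM.Rigid

set_option autoImplicit false

open MeasureTheory Set Real Complex Filter Topology
open scoped ENNReal NNReal ComplexConjugate

namespace Pool.Agent.Helper793.CM

/-- the value of the exponential integral for a linear function -/
lemma expInt_linear {f : ℂ → ℂ} {c : ℂ} (hf : ∀ z ∈ Metric.ball (0:ℂ) 1, f z = c * z)
    {b : ℝ → ℂ} (hb : IsBoundaryFn f b) :
    expInt b = ENNReal.ofReal (2 * π * Real.exp (‖c‖ ^ 2)) := by
  have hbc : ∀ᵐ θ ∂(volume.restrict (Ioc 0 (2 * π))), b θ = c * bpt θ := by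
    filter_upwards [hb] with θ hθ
    have h1 := radial hθ
    have h2 : Tendsto (fun t : ℝ => h0 f (pt t θ)) (𝓝[<] 0) (𝓝 (c * bpt θ)) := by
      have h3 : Tendsto (fun t : ℝ => c * Complex.exp (pt t θ)) (𝓝[<] 0) (𝓝 (c * bpt θ)) := by
        have hc : Continuous (fun t : ℝ => c * Complex.exp (pt t θ)) := by unfold pt; fun_prop
        have := hc.tendsto 0
        rw [exp_pt_eq, Real.exp_zero, Complex.ofReal_one, one_mul] at this
        exact this.mono_left nhdsWithin_le_nhds
      refine (tendsto_congr' ?_).2 h3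
      filter_upwards [self_mem_nhdsWithin] with t ht
      exact hf _ (exp_mem (by rw [pt_re]; exact ht))
    exact tendsto_nhds_unique h1 h2
  unfold expInt
  rw [lintegral_congr_ae (g := fun _ => ENNReal.ofReal (Real.exp (‖c‖ ^ 2)))]
  · rw [setLIntegral_const, Real.volume_Ioc, sub_zero, ← ENNReal.ofReal_mul (Real.exp_pos _).le]
    congr 1; ring
  · filter_upwards [hbc] with θ hθ
    rw [hθ, norm_mul, norm_bpt, mul_one]

lemma id_mem : (fun z : ℂ => z) ∈ ClassF := by
  refine ⟨differentiableOn_id, rfl, ?_⟩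
  unfold dirichletSq
  have h1 : ∀ z : ℂ, ENNReal.ofReal (‖deriv (fun z : ℂ => z) z‖ ^ 2) = 1 := by
    intro z; simp
  simp only [h1]
  rw [setLIntegral_one, Complex.volume_ball, ENNReal.ofReal_one, one_pow, one_mul]
  have : ENNReal.ofReal π = (NNReal.pi : ℝ≥0∞) := by
    rw [← NNReal.coe_real_pi, ENNReal.ofReal_coe_nnreal]
  rw [this, ENNReal.inv_mul_cancel]
  · simp [NNReal.pi_ne_zero]
  · exact ENNReal.coe_ne_top

lemma id_bdry : IsBoundaryFn (fun z : ℂ => z) bpt :=
  ae_of_all _ fun _ _ => tendsto_id.mono_left nhdsWithin_le_nhds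

/-- the equality case -/
theorem eq_case {f : ℂ → ℂ} (hf : f ∈ ClassF) {b : ℝ → ℂ} (hb : IsBoundaryFn f b) :
    expInt b = ENNReal.ofReal (2 * π * Real.exp 1) ↔
      ∃ c : ℂ, ‖c‖ = 1 ∧ ∀ z ∈ Metric.ball (0:ℂ) 1, f z = c * z := by
  constructor
  · intro he
    have hne : ¬ ∀ᶠ z in 𝓝 (0:ℂ), f z = 0 := by
      intro h
      rw [expInt_zero hf.1 h hb] at he
      rw [ENNReal.ofReal_eq_ofReal_iff (by positivity) (by positivity)] at he
      have : 1 < Real.exp 1 := Real.one_lt_exp_iff.2 one_pos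
      nlinarith [Real.pi_pos]
    have hpos := ar_pos hf.1 hf.2.1 hne
    obtain ⟨m, hm, g, hg, hg0, hfg, hfg1⟩ := local_form hf.1 hf.2.1 hne
    have hlow : ∀ t < 0, 2 * π * Real.exp 1 ≤ ph f t := by
      intro t ht
      have h1 := expInt_le_ph hf hne hb ht
      rw [he] at h1
      rcases ENNReal.ofReal_le_ofReal_iff'.1 h1 with h | h
      · exact h
      · exact absurd h (not_le.2 (by positivity))
    have hup : ∀ t < 0, ph f t ≤ 2 * π * Real.exp (1 / m) := fun t ht =>
      ph_le hf.1 hf.2.1 hne hm hg hg0 hfg hfg1 ht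
    have hm1 : m = 1 := by
      by_contra hcon
      have h2 : (2:ℝ) ≤ m := by
        have : 2 ≤ m := by omega
        exact_mod_cast this
      have h3 := (hlow (-1) (by norm_num)).trans (hup (-1) (by norm_num))
      have h4 : Real.exp (1 / m) < Real.exp 1 := by
        apply Real.exp_lt_exp.2
        rw [div_lt_one (by linarith)]
        linarith
      have h5 : 0 < 2 * π := by positivity
      have := mul_lt_mul_of_pos_left h4 h5
      linarith
    subst hm1
    have hconst : ∀ t < 0, ph f t = 2 * π * Real.exp 1 := by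
      intro t ht
      apply le_antisymm _ (hlow t ht)
      have := hup t ht
      simpa using this
    have hlin := rigid hf.1 hf.2.1 hg hg0 hfg hfg1 hpos hconst
    refine ⟨g 0, ?_, hlin⟩
    rw [expInt_linear hlin hb, ENNReal.ofReal_eq_ofReal_iff (by positivity) (by positivity)] at he
    have h6 := mul_left_cancel₀ (by positivity : (2 * π) ≠ 0) he
    have h7 : ‖g 0‖ ^ 2 = 1 := Real.exp_injective h6
    have h8 : (0:ℝ) ≤ ‖g 0‖ := norm_nonneg _
    nlinarith
  · rintro ⟨c, hc, hlin⟩
    rw [expInt_linear hlin hb, hc, one_pow]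

end Pool.Agent.Helper793.CM
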