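import Pool.Agent.Helper793.CM.Wir

set_option autoImplicit false

open MeasureTheory Set Real Complex Filter Topology
open scoped ENNReal NNReal ComplexConjugate

namespace Pool.Agent.Helper793.CM

/-- reparametrisation by a positive weight -/
lemma exists_reparam {w : ℝ → ℝ} {δ : ℝ} (hδ : 0 < δ) (hw : Continuous w) (hwδ : ∀ θ, δ ≤ w θ) :
    ∃ τ σ : ℝ → ℝ, (∀ θ, HasDerivAt τ (w θ) θ) ∧ τ 0 = 0 ∧ (∀ θ, τ θ = ∫ x in (0:ℝ)..θ, w x) ∧
      (∀ θ, σ (τ θ) = θ) ∧ (∀ s, τ (σ s) = s) ∧ (∀ s, HasDerivAt σ (w (σ s))⁻¹ s) ∧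
      Continuous τ ∧ Continuous σ := by
  set τ : ℝ → ℝ := fun θ => ∫ x in (0:ℝ)..θ, w x with hτ
  have hd : ∀ θ, HasDerivAt τ (w θ) θ := fun θ =>
    intervalIntegral.integral_hasDerivAt_right (hw.intervalIntegrable _ _)
      hw.aestronglyMeasurable.stronglyMeasurableAtFilter hw.continuousAt
  have hτc : Continuous τ := continuous_iff_continuousAt.2 fun s => (hd s).continuousAt
  have hmono : StrictMono τ := by
    apply strictMono_of_deriv_pos
    intro x
    rw [(hd x).deriv]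
    exact hδ.trans_le (hwδ x)
  have hge : ∀ θ, 0 ≤ θ → δ * θ ≤ τ θ := by
    intro θ hθ
    have := intervalIntegral.integral_mono_on (μ := volume) (a := 0) (b := θ) hθ
      ((continuous_const (y := δ)).intervalIntegrable _ _) (hw.intervalIntegrable _ _)
      (fun x _ => hwδ x)
    simpa [mul_comm] using this
  have hle : ∀ θ, θ ≤ 0 → τ θ ≤ δ * θ := by
    intro θ hθ
    have := intervalIntegral.integral_mono_on (μ := volume) (a := θ) (b := 0) hθ
      ((continuous_const (y := δ)).intervalIntegrable _ _) (hw.intervalIntegrable _ _)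
      (fun x _ => hwδ x)
    rw [intervalIntegral.integral_const] at this
    simp only [hτ]
    rw [intervalIntegral.integral_symm]
    simp only [smul_eq_mul] at this
    linarith
  have hsurj : Function.Surjective τ := by
    apply hτc.surjective
    · rw [tendsto_atTop]
      intro b
      filter_upwards [eventually_ge_atTop (max 0 (b/δ))] with x hx
      have h0 : 0 ≤ x := (le_max_left _ _).trans hx
      have h1 : b / δ ≤ x := (le_max_right _ _).trans hx
      have := hge x h0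
      rw [div_le_iff₀ hδ] at h1
      linarith
    · rw [tendsto_atBot]
      intro b
      filter_upwards [eventually_le_atBot (min 0 (b/δ))] with x hx
      have h0 : x ≤ 0 := hx.trans (min_le_left _ _)
      have h1 : x ≤ b / δ := hx.trans (min_le_right _ _)
      have := hle x h0
      rw [le_div_iff₀ hδ] at h1
      linarith
  let e : ℝ ≃o ℝ := hmono.orderIsoOfSurjective τ hsurj
  have he : ∀ x, e x = τ x := fun x => rfl
  refine ⟨τ, e.symm, hd, ?_, fun θ => rfl, ?_, ?_, ?_, hτc, e.symm.continuous⟩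
  · simp [hτ]
  · intro θ; rw [← he]; exact e.symm_apply_apply θ
  · intro s; rw [← he]; exact e.apply_symm_apply s
  · intro s
    refine HasDerivAt.of_local_left_inverse e.symm.continuous.continuousAt (hd _) ?_ ?_
    · exact (hδ.trans_le (hwδ _)).ne'
    · exact Eventually.of_forall fun y => by rw [← he]; exact e.apply_symm_apply y

lemma iso_w {w : ℝ → ℝ} {δ : ℝ} (hδ : 0 < δ) (hw : Continuous w) (hwδ : ∀ θ, δ ≤ w θ)
    {T : ℝ} (hT : 0 < T)
    {Γ Γ' : ℝ → ℂ} (hΓ : ∀ θ, HasDerivAt Γ (Γ' θ) θ) (hΓ' : Continuous Γ')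
    (hper : Γ 0 = Γ T) :
    2 * π * ∫ θ in (0:ℝ)..T, (conj (Γ θ) * Γ' θ).im ≤
      (∫ θ in (0:ℝ)..T, w θ) * (∫ θ in (0:ℝ)..T, ‖Γ' θ‖ ^ 2 / w θ) ∧
    ((∫ θ in (0:ℝ)..T, w θ) * (∫ θ in (0:ℝ)..T, ‖Γ' θ‖ ^ 2 / w θ) ≤
      2 * π * ∫ θ in (0:ℝ)..T, (conj (Γ θ) * Γ' θ).im →
      ∀ θ ∈ Icc 0 T, ‖Γ' θ‖ / w θ = ‖Γ' 0‖ / w 0) := by
  obtain ⟨τ, σ, hτd, hτ0, hτi, hστ, hτσ, hσd, hτc, hσc⟩ := exists_reparam hδ hw hwδ
  have hwpos : ∀ θ, 0 < w θ := fun θ => hδ.trans_le (hwδ θ)
  set W := τ T with hWdef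
  have hW : 0 < W := by
    have hm : StrictMono τ := by
      apply strictMono_of_deriv_pos
      intro x; rw [(hτd x).deriv]; exact hwpos x
    have := hm hT
    rwa [hτ0] at this
  have hWi : (∫ θ in (0:ℝ)..T, w θ) = W := (hτi _).symm
  set v : ℝ → ℂ := fun s => Γ (σ s) with hv
  set v' : ℝ → ℂ := fun s => (((w (σ s))⁻¹ : ℝ) : ℂ) * Γ' (σ s) with hv'
  have hvd : ∀ s, HasDerivAt v (v' s) s := by
    intro s
    have := (hΓ (σ s)).scomp s (hσd s)
    simpa [v, v', Function.comp_def] using this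
  have hv'c : Continuous v' := by
    refine (Complex.continuous_ofReal.comp ((hw.comp hσc).inv₀ fun s => (hwpos _).ne')).mul
      (hΓ'.comp hσc)
  have hσ0 : σ 0 = 0 := by
    have := hστ 0; rwa [hτ0] at this
  have hσW : σ W = T := by rw [hWdef, hστ]
  have hvper : v 0 = v W := by simp only [hv, hσ0, hσW, hper]
  have hvc : Continuous v := continuous_iff_continuousAt.2 fun s => (hvd s).continuousAt
  have c1 : ∫ s in (0:ℝ)..W, (conj (v s) * v' s).im = ∫ θ in (0:ℝ)..T, (conj (Γ θ) * Γ' θ).im := by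
    have g : Continuous (fun s => (conj (v s) * v' s).im) :=
      Complex.continuous_im.comp ((Complex.continuous_conj.comp hvc).mul hv'c)
    have := intervalIntegral.integral_comp_mul_deriv (a := 0) (b := T) (f := τ) (f' := w)
      (g := fun s => (conj (v s) * v' s).im) (fun x _ => hτd x) hw.continuousOn g
    rw [hτ0] at this
    rw [← this]
    apply intervalIntegral.integral_congr
    intro θ _
    simp only [Function.comp_apply, hv, hv', hστ]
    have hne := (hwpos θ).ne'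
    rw [show conj (Γ θ) * ((((w θ)⁻¹ : ℝ) : ℂ) * Γ' θ) = (((w θ)⁻¹ : ℝ) : ℂ) * (conj (Γ θ) * Γ' θ) by ring,
      Complex.im_ofReal_mul]
    field_simp
  have c2 : ∫ s in (0:ℝ)..W, ‖v' s‖ ^ 2 = ∫ θ in (0:ℝ)..T, ‖Γ' θ‖ ^ 2 / w θ := by
    have g : Continuous (fun s => ‖v' s‖ ^ 2) := hv'c.norm.pow 2
    have := intervalIntegral.integral_comp_mul_deriv (a := 0) (b := T) (f := τ) (f' := w)
      (g := fun s => ‖v' s‖ ^ 2) (fun x _ => hτd x) hw.continuousOn g
    rw [hτ0] at this
    rw [← this]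
    apply intervalIntegral.integral_congr
    intro θ _
    simp only [Function.comp_apply, hv', hστ, norm_mul, Complex.norm_real, Real.norm_eq_abs,
      abs_of_pos (inv_pos.2 (hwpos θ))]
    have hne := (hwpos θ).ne'
    field_simp
  refine ⟨?_, ?_⟩
  · have := iso hW hvd hv'c hvper
    rw [c1, c2] at this
    rwa [hWi]
  · intro heq θ hθ
    rw [hWi, ← c1, ← c2] at heq
    have h := iso_eq hW hvd hv'c hvper heq (τ θ) ?_
    · simp only [hv', hστ, hσ0, norm_mul, Complex.norm_real, Real.norm_eq_abs,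
        abs_of_pos (inv_pos.2 (hwpos _))] at h
      rw [div_eq_inv_mul, div_eq_inv_mul]; exact h
    · have hm : Monotone τ := by
        apply monotone_of_deriv_nonneg (fun x => (hτd x).differentiableAt)
        intro x; rw [(hτd x).deriv]; exact (hwpos x).le
      exact ⟨by rw [← hτ0]; exact hm hθ.1, hm hθ.2⟩

end Pool.Agent.Helper793.CM
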