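import Pool.Agent.Helper793.CM.IsoW

set_option autoImplicit false

open MeasureTheory Set Real Complex Filter Topology
open scoped ENNReal NNReal ComplexConjugate

namespace Pool.Agent.Helper793.CM

lemma hasDerivAt_normsq {u : ℝ → ℂ} {d : ℂ} {θ : ℝ} (hu : HasDerivAt u d θ) :
    HasDerivAt (fun θ => ‖u θ‖ ^ 2) (2 * (conj (u θ) * d).re) θ := by
  have h8 : HasDerivAt (fun s => conj (u s)) (conj d) θ := hu.star
  have h9 := h8.mul hu
  have h10 : HasDerivAt (fun s => (conj (u s) * u s).re)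
      ((conj d * u θ + conj (u θ) * d).re) θ :=
    Complex.reCLM.hasFDerivAt.comp_hasDerivAt θ h9
  convert h10 using 1
  · funext s
    rw [← Complex.normSq_eq_norm_sq, mul_comm, Complex.mul_conj, Complex.ofReal_re]
  · simp only [Complex.add_re, Complex.mul_re, Complex.conj_re, Complex.conj_im]
    ring

/-- the auxiliary closed curve `Γ = exp (∫ conj u du / A)` -/
lemma exists_curve {u u1 : ℝ → ℂ} (hu : ∀ θ, HasDerivAt u (I * u1 θ) θ) (hu1 : Continuous u1)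
    (hper : u 0 = u (2 * π)) {A : ℝ} (hA : 0 < A)
    (hAi : ∫ θ in (0:ℝ)..(2 * π), (conj (u θ) * u1 θ).re = 2 * π * A) :
    ∃ Γ : ℝ → ℂ, (∀ θ, HasDerivAt Γ (Γ θ * (conj (u θ) * (I * u1 θ) / A)) θ) ∧
      Γ 0 = Γ (2 * π) ∧ (∀ θ, ‖Γ θ‖ ^ 2 = Real.exp (‖u θ‖ ^ 2 / A)) := by
  have huc : Continuous u := continuous_iff_continuousAt.2 fun s => (hu s).continuousAt
  set q : ℝ → ℂ := fun θ => conj (u θ) * (I * u1 θ) / A with hq
  have hqc : Continuous q := by
    refine Continuous.div_const ?_ _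
    exact (Complex.continuous_conj.comp huc).mul (continuous_const.mul hu1)
  set E : ℝ → ℂ := fun θ => ∫ x in (0:ℝ)..θ, q x with hE
  have hEd : ∀ θ, HasDerivAt E (q θ) θ := fun θ =>
    intervalIntegral.integral_hasDerivAt_right (hqc.intervalIntegrable _ _)
      hqc.aestronglyMeasurable.stronglyMeasurableAtFilter hqc.continuousAt
  have hE0 : E 0 = 0 := by simp [hE]
  have hAne : (A:ℂ) ≠ 0 := by exact_mod_cast hA.ne'
  -- real part of E
  have hre : ∀ θ, 2 * (E θ).re = (‖u θ‖ ^ 2 - ‖u 0‖ ^ 2) / A := by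
    intro θ
    have h1 : ∀ x, HasDerivAt (fun x => ‖u x‖ ^ 2 / A) (2 * (q x).re) x := by
      intro x
      have h0 := (hasDerivAt_normsq (hu x)).div_const A
      have h1 : 2 * (conj (u x) * (I * u1 x)).re / A = 2 * (q x).re := by
        rw [show q x = conj (u x) * (I * u1 x) / A from rfl, Complex.div_ofReal_re]
        ring
      rw [← h1]
      exact h0
    have h2 : Continuous (fun x => 2 * (q x).re) :=
      continuous_const.mul (Complex.continuous_re.comp hqc)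
    have h3 := intervalIntegral.integral_eq_sub_of_hasDerivAt (a := 0) (b := θ) (fun x _ => h1 x)
      (h2.intervalIntegrable _ _)
    have h4 : ∫ x in (0:ℝ)..θ, 2 * (q x).re = 2 * (E θ).re := by
      rw [intervalIntegral.integral_const_mul]
      congr 1
      exact intervalIntegral.intervalIntegral_re (hqc.intervalIntegrable _ _)
    rw [← h4, h3]
    ring
  have hE2 : E (2 * π) = 2 * π * I := by
    have h1 := hre (2 * π)
    rw [← hper, sub_self, zero_div] at h1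
    have h2 : (E (2 * π)).im = 2 * π := by
      have h3 : (E (2 * π)).im = ∫ x in (0:ℝ)..(2 * π), (q x).im :=
        (intervalIntegral.intervalIntegral_im (hqc.intervalIntegrable _ _)).symm
      rw [h3]
      have h4 : ∀ x, (q x).im = (conj (u x) * u1 x).re / A := by
        intro x
        simp only [hq, Complex.div_ofReal_im]
        congr 1
        simp only [Complex.mul_re, Complex.mul_im, Complex.conj_re, Complex.conj_im, Complex.I_re,
          Complex.I_im]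
        ring
      simp only [h4]
      rw [intervalIntegral.integral_div, hAi]
      field_simp
    apply Complex.ext
    · simp only [Complex.mul_re, Complex.mul_im, Complex.I_re, Complex.I_im, Complex.ofReal_re,
        Complex.ofReal_im, Complex.re_ofNat, Complex.im_ofNat]
      linarith
    · rw [h2]; simp
  refine ⟨fun θ => Complex.exp (E θ + (‖u 0‖ ^ 2 / (2 * A) : ℝ)), ?_, ?_, ?_⟩
  · intro θ
    exact ((hEd θ).add_const _).cexp
  · simp only [hE0, hE2]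
    rw [add_comm (2 * (π:ℂ) * I), Complex.exp_add _ (2 * (π:ℂ) * I), Complex.exp_two_pi_mul_I,
      mul_one, zero_add]
  · intro θ
    rw [Complex.norm_exp, ← Real.exp_nat_mul]
    congr 1
    simp only [Complex.add_re, Complex.ofReal_re]
    have := hre θ
    push_cast
    rw [mul_add, this]
    field_simp
    ring

lemma key_ineq {u u1 : ℝ → ℂ} (hu : ∀ θ, HasDerivAt u (I * u1 θ) θ) (hu1 : Continuous u1)
    (hper : u 0 = u (2 * π)) {A : ℝ} (hA : 0 < A)
    (hAi : ∫ θ in (0:ℝ)..(2 * π), (conj (u θ) * u1 θ).re = 2 * π * A) :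
    2 * π * A * (∫ θ in (0:ℝ)..(2 * π), Real.exp (‖u θ‖ ^ 2 / A) * (conj (u θ) * u1 θ).re) ≤
      (∫ θ in (0:ℝ)..(2 * π), ‖u1 θ‖ ^ 2) *
        (∫ θ in (0:ℝ)..(2 * π), ‖u θ‖ ^ 2 * Real.exp (‖u θ‖ ^ 2 / A)) := by
  have huc : Continuous u := continuous_iff_continuousAt.2 fun s => (hu s).continuousAt
  obtain ⟨Γ, hΓ, hΓp, hΓn⟩ := exists_curve hu hu1 hper hA hAi
  have hΓc : Continuous Γ := continuous_iff_continuousAt.2 fun s => (hΓ s).continuousAt
  have hT : (0:ℝ) < 2 * π := by positivity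
  set Γ' : ℝ → ℂ := fun θ => Γ θ * (conj (u θ) * (I * u1 θ) / A) with hΓ'
  have hΓ'c : Continuous Γ' := hΓc.mul (((Complex.continuous_conj.comp huc).mul
    (continuous_const.mul hu1)).div_const _)
  have e1 : ∀ θ, (conj (Γ θ) * Γ' θ).im
      = Real.exp (‖u θ‖ ^ 2 / A) * (conj (u θ) * u1 θ).re / A := by
    intro θ
    have : conj (Γ θ) * Γ' θ = ((‖Γ θ‖ ^ 2 : ℝ) : ℂ) * (conj (u θ) * (I * u1 θ) / A) := by
      simp only [hΓ']
      rw [← mul_assoc, Complex.conj_mul']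
      push_cast; ring
    rw [this, hΓn, Complex.im_ofReal_mul, Complex.div_ofReal_im, mul_div_assoc]
    congr 2
    simp only [Complex.mul_re, Complex.mul_im, Complex.conj_re, Complex.conj_im, Complex.I_re,
      Complex.I_im]
    ring
  have e2 : ∀ θ, ‖Γ' θ‖ ^ 2 = Real.exp (‖u θ‖ ^ 2 / A) * ‖u θ‖ ^ 2 * ‖u1 θ‖ ^ 2 / A ^ 2 := by
    intro θ
    simp only [hΓ', norm_mul, norm_div, Complex.norm_I, one_mul, Complex.norm_real,
      Real.norm_eq_abs, abs_of_pos hA, RCLike.norm_conj]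
    rw [mul_pow, hΓn]
    ring
  set X := ∫ θ in (0:ℝ)..(2 * π), Real.exp (‖u θ‖ ^ 2 / A) * (conj (u θ) * u1 θ).re with hX
  set Y := ∫ θ in (0:ℝ)..(2 * π), ‖u1 θ‖ ^ 2 with hY
  set Z := ∫ θ in (0:ℝ)..(2 * π), ‖u θ‖ ^ 2 * Real.exp (‖u θ‖ ^ 2 / A) with hZ
  have hexpc : Continuous (fun θ => Real.exp (‖u θ‖ ^ 2 / A)) :=
    Real.continuous_exp.comp ((huc.norm.pow 2).div_const _)
  have cZ : Continuous (fun θ => ‖u θ‖ ^ 2 * Real.exp (‖u θ‖ ^ 2 / A)) :=
    (huc.norm.pow 2).mul hexpc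
  have hZ0 : 0 ≤ Z := intervalIntegral.integral_nonneg hT.le (fun x _ => by positivity)
  have hY0 : 0 ≤ Y := intervalIntegral.integral_nonneg hT.le (fun x _ => by positivity)
  have main : ∀ ε > 0, 2 * π * (X / A) ≤ (Y + 2 * π * ε) * (Z / A ^ 2) := by
    intro ε hε
    have hw : Continuous (fun θ => ‖u1 θ‖ ^ 2 + ε) := (hu1.norm.pow 2).add continuous_const
    have h := (iso_w (Γ' := Γ') hε hw (fun θ => by have := sq_nonneg ‖u1 θ‖; linarith) hT hΓ hΓ'c
      hΓp).1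
    simp only [e1] at h
    rw [intervalIntegral.integral_div] at h
    refine h.trans ?_
    have h2 : ∫ θ in (0:ℝ)..(2 * π), (‖u1 θ‖ ^ 2 + ε) = Y + 2 * π * ε := by
      have hwc : Continuous (fun θ => ‖u1 θ‖ ^ 2) := hu1.norm.pow 2
      rw [intervalIntegral.integral_add (hwc.intervalIntegrable _ _)
        ((continuous_const).intervalIntegrable _ _), intervalIntegral.integral_const]
      simp [hY]
    rw [h2]
    have h3 : ∫ θ in (0:ℝ)..(2 * π), ‖Γ' θ‖ ^ 2 / (‖u1 θ‖ ^ 2 + ε) ≤ Z / A ^ 2 := by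
      rw [hZ, ← intervalIntegral.integral_div]
      apply intervalIntegral.integral_mono_on hT.le
      · exact ((hΓ'c.norm.pow 2).div hw (fun θ => by positivity)).intervalIntegrable _ _
      · exact (cZ.div_const _).intervalIntegrable _ _
      · intro θ _
        rw [e2]
        have hpos : 0 < ‖u1 θ‖ ^ 2 + ε := by positivity
        rw [div_div, div_le_div_iff₀ (by positivity) (by positivity)]
        have : Real.exp (‖u θ‖ ^ 2 / A) * ‖u θ‖ ^ 2 * ‖u1 θ‖ ^ 2 * A ^ 2 ≤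
            Real.exp (‖u θ‖ ^ 2 / A) * ‖u θ‖ ^ 2 * (‖u1 θ‖ ^ 2 + ε) * A ^ 2 := by
          gcongr; linarith
        calc _ ≤ _ := this
          _ = _ := by ring
    gcongr
  have main2 : 2 * π * (X / A) ≤ Y * (Z / A ^ 2) := by
    apply le_of_forall_pos_le_add
    intro e he
    have hc : 0 < 2 * π * (Z / A ^ 2) + 1 := by positivity
    have := main (e / (2 * π * (Z / A ^ 2) + 1)) (by positivity)
    refine this.trans ?_
    rw [add_mul]
    have : 2 * π * (e / (2 * π * (Z / A ^ 2) + 1)) * (Z / A ^ 2) ≤ e := by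
      have : 2 * π * (e / (2 * π * (Z / A ^ 2) + 1)) * (Z / A ^ 2)
          = e * ((2 * π * (Z / A ^ 2)) / (2 * π * (Z / A ^ 2) + 1)) := by ring
      rw [this]
      have : (2 * π * (Z / A ^ 2)) / (2 * π * (Z / A ^ 2) + 1) ≤ 1 := by
        rw [div_le_one hc]; linarith
      nlinarith
    linarith
  have h5 : A ^ 2 * (2 * π * (X / A)) ≤ A ^ 2 * (Y * (Z / A ^ 2)) := by gcongr
  calc _ = A ^ 2 * (2 * π * (X / A)) := by field_simp
    _ ≤ _ := h5
    _ = _ := by field_simp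

/-- equality case -/
lemma key_eq {u u1 : ℝ → ℂ} (hu : ∀ θ, HasDerivAt u (I * u1 θ) θ) (hu1 : Continuous u1)
    (hper : u 0 = u (2 * π)) {A : ℝ} (hA : 0 < A)
    (hAi : ∫ θ in (0:ℝ)..(2 * π), (conj (u θ) * u1 θ).re = 2 * π * A)
    {δ : ℝ} (hδ : 0 < δ) (hδu : ∀ θ, δ ≤ ‖u1 θ‖ ^ 2)
    (heq : (∫ θ in (0:ℝ)..(2 * π), ‖u1 θ‖ ^ 2) *
        (∫ θ in (0:ℝ)..(2 * π), ‖u θ‖ ^ 2 * Real.exp (‖u θ‖ ^ 2 / A)) ≤
      2 * π * A * (∫ θ in (0:ℝ)..(2 * π), Real.exp (‖u θ‖ ^ 2 / A) * (conj (u θ) * u1 θ).re)) :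
    ∃ K : ℝ, ∀ θ ∈ Icc 0 (2 * π),
      Real.exp (‖u θ‖ ^ 2 / A) * ‖u θ‖ ^ 2 = K * ‖u1 θ‖ ^ 2 := by
  have huc : Continuous u := continuous_iff_continuousAt.2 fun s => (hu s).continuousAt
  obtain ⟨Γ, hΓ, hΓp, hΓn⟩ := exists_curve hu hu1 hper hA hAi
  have hΓc : Continuous Γ := continuous_iff_continuousAt.2 fun s => (hΓ s).continuousAt
  have hT : (0:ℝ) < 2 * π := by positivity
  set Γ' : ℝ → ℂ := fun θ => Γ θ * (conj (u θ) * (I * u1 θ) / A) with hΓ'
  have hΓ'c : Continuous Γ' := hΓc.mul (((Complex.continuous_conj.comp huc).mul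
    (continuous_const.mul hu1)).div_const _)
  have e1 : ∀ θ, (conj (Γ θ) * Γ' θ).im
      = Real.exp (‖u θ‖ ^ 2 / A) * (conj (u θ) * u1 θ).re / A := by
    intro θ
    have : conj (Γ θ) * Γ' θ = ((‖Γ θ‖ ^ 2 : ℝ) : ℂ) * (conj (u θ) * (I * u1 θ) / A) := by
      simp only [hΓ']
      rw [← mul_assoc, Complex.conj_mul']
      push_cast; ring
    rw [this, hΓn, Complex.im_ofReal_mul, Complex.div_ofReal_im, mul_div_assoc]
    congr 2
    simp only [Complex.mul_re, Complex.mul_im, Complex.conj_re, Complex.conj_im, Complex.I_re,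
      Complex.I_im]
    ring
  have e2 : ∀ θ, ‖Γ' θ‖ ^ 2 = Real.exp (‖u θ‖ ^ 2 / A) * ‖u θ‖ ^ 2 * ‖u1 θ‖ ^ 2 / A ^ 2 := by
    intro θ
    simp only [hΓ', norm_mul, norm_div, Complex.norm_I, one_mul, Complex.norm_real,
      Real.norm_eq_abs, abs_of_pos hA, RCLike.norm_conj]
    rw [mul_pow, hΓn]
    ring
  have hwpos : ∀ θ, 0 < ‖u1 θ‖ ^ 2 := fun θ => hδ.trans_le (hδu θ)
  have hwc : Continuous (fun θ => ‖u1 θ‖ ^ 2) := hu1.norm.pow 2
  have h := (iso_w (w := fun θ => ‖u1 θ‖ ^ 2) (Γ' := Γ') hδ hwc hδu hT hΓ hΓ'c hΓp).2 ?_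
  · refine ⟨(‖Γ' 0‖ / ‖u1 0‖ ^ 2) ^ 2 * A ^ 2, fun θ hθ => ?_⟩
    have h1 := h θ hθ
    have hp := hwpos θ
    have hne : ‖u1 θ‖ ≠ 0 := fun h0 => by rw [h0] at hp; simp at hp
    rw [← h1, div_pow, e2]
    field_simp
  · simp only [e1, e2]
    rw [intervalIntegral.integral_div]
    have : ∀ θ, Real.exp (‖u θ‖ ^ 2 / A) * ‖u θ‖ ^ 2 * ‖u1 θ‖ ^ 2 / A ^ 2 / ‖u1 θ‖ ^ 2
        = ‖u θ‖ ^ 2 * Real.exp (‖u θ‖ ^ 2 / A) / A ^ 2 := by
      intro θ
      have hp := hwpos θ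
      have hne : ‖u1 θ‖ ≠ 0 := fun h0 => by rw [h0] at hp; simp at hp
      field_simp
    simp only [this]
    rw [intervalIntegral.integral_div]
    have h6 : (1 / A ^ 2) * ((∫ θ in (0:ℝ)..(2 * π), ‖u1 θ‖ ^ 2) *
        (∫ θ in (0:ℝ)..(2 * π), ‖u θ‖ ^ 2 * Real.exp (‖u θ‖ ^ 2 / A))) ≤
      (1 / A ^ 2) * (2 * π * A *
        (∫ θ in (0:ℝ)..(2 * π), Real.exp (‖u θ‖ ^ 2 / A) * (conj (u θ) * u1 θ).re)) := by
      gcongr
    calc _ = _ := by ring
      _ ≤ _ := h6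
      _ = _ := by field_simp

end Pool.Agent.Helper793.CM
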