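import Pool.Agent.Helper793.CM.Setup

set_option autoImplicit false

open MeasureTheory Set Real Complex Filter Topology
open scoped ENNReal NNReal ComplexConjugate

namespace Pool.Agent.Helper793.CM

lemma local_form {f : ℂ → ℂ} (hf : DifferentiableOn ℂ f (Metric.ball 0 1)) (hf0 : f 0 = 0)
    (hne : ¬ ∀ᶠ z in 𝓝 (0:ℂ), f z = 0) :
    ∃ m : ℕ, 1 ≤ m ∧ ∃ g : ℂ → ℂ, AnalyticAt ℂ g 0 ∧ g 0 ≠ 0 ∧
      (∀ᶠ z in 𝓝 (0:ℂ), f z = z ^ m * g z) ∧
      (∀ᶠ z in 𝓝 (0:ℂ), z * deriv f z = z ^ m * (m * g z + z * deriv g z)) := by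
  have ho : IsOpen (Metric.ball (0:ℂ) 1) := Metric.isOpen_ball
  have hfa : AnalyticAt ℂ f 0 := hf.analyticAt (ho.mem_nhds (by simp))
  obtain ⟨m, g, hg, hg0, hfg⟩ := hfa.exists_eventuallyEq_pow_smul_nonzero_iff.2 hne
  have hfg' : ∀ᶠ z in 𝓝 (0:ℂ), f z = z ^ m * g z := by
    filter_upwards [hfg] with z hz
    simpa using hz
  have hm : 1 ≤ m := by
    rcases Nat.eq_zero_or_pos m with h | h
    · exfalso
      have := hfg'.self_of_nhds
      rw [h, hf0] at this
      simp at this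
      exact hg0 this.symm
    · exact h
  refine ⟨m, hm, g, hg, hg0, hfg', ?_⟩
  have hd : deriv f =ᶠ[𝓝 0] deriv (fun z => z ^ m * g z) := EventuallyEq.deriv hfg'
  filter_upwards [hd, hg.eventually_analyticAt] with z hz hgz
  rw [hz]
  have h1 : HasDerivAt (fun z : ℂ => z ^ m * g z) (m * z ^ (m - 1) * g z + z ^ m * deriv g z) z :=
    (hasDerivAt_pow m z).mul hgz.differentiableAt.hasDerivAt
  rw [h1.deriv]
  obtain ⟨k, rfl⟩ := Nat.exists_eq_add_of_le hm
  simp only [Nat.add_sub_cancel_left]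
  ring

lemma lim_ratio {f : ℂ → ℂ} (hf : DifferentiableOn ℂ f (Metric.ball 0 1)) {m : ℕ} (hm : 1 ≤ m)
    {g : ℂ → ℂ} (hg : AnalyticAt ℂ g 0) (hg0 : g 0 ≠ 0)
    (hfg : ∀ᶠ z in 𝓝 (0:ℂ), f z = z ^ m * g z)
    (hfg1 : ∀ᶠ z in 𝓝 (0:ℂ), z * deriv f z = z ^ m * (m * g z + z * deriv g z))
    {ε : ℝ} (hε : 0 < ε) :
    ∃ t0 < (0:ℝ), ∀ t < t0, 0 < ar f t ∧ ∀ θ, ‖h0 f (pt t θ)‖ ^ 2 ≤ ((1 + ε) / m) * ar f t := by
  have H := mkHP hf
  set a := ‖g 0‖ with ha
  have ha0 : 0 < a := norm_pos_iff.2 hg0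
  have hmR : (1:ℝ) ≤ m := by exact_mod_cast hm
  set e' : ℝ := ε / (2 + ε) with he'
  have he'0 : 0 < e' := by positivity
  have he'1 : e' < 1 := by rw [he', div_lt_one (by positivity)]; linarith
  have hrel : (1 + e') ≤ (1 + ε) * (1 - e') := by
    rw [he']; field_simp; nlinarith
  have c1 : ContinuousAt (fun z => ‖g z‖ ^ 2) 0 := hg.continuousAt.norm.pow 2
  have c2 : ContinuousAt (fun z => ‖(m:ℂ) * g z + z * deriv g z‖ ^ 2) 0 :=
    ((continuousAt_const.mul hg.continuousAt).add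
      (continuousAt_id.mul hg.deriv.continuousAt)).norm.pow 2
  have e1 : ∀ᶠ z in 𝓝 (0:ℂ), ‖g z‖ ^ 2 < (1 + e') * a ^ 2 :=
    c1.eventually_lt_const (by
      have : 0 < a ^ 2 := by positivity
      nlinarith)
  have e2 : ∀ᶠ z in 𝓝 (0:ℂ), (1 - e') * (m ^ 2 * a ^ 2) < ‖(m:ℂ) * g z + z * deriv g z‖ ^ 2 :=
    c2.eventually_const_lt (by
      simp only [zero_mul, add_zero, norm_mul, Complex.norm_natCast]
      rw [← ha, mul_pow]
      have : 0 < (m:ℝ) ^ 2 * a ^ 2 := by positivity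
      nlinarith)
  have hall := (e1.and e2).and (hfg.and hfg1)
  rw [Metric.eventually_nhds_iff_ball] at hall
  obtain ⟨r, hr, hball⟩ := hall
  set r' := min r (1/2) with hr'
  have hr'0 : 0 < r' := lt_min hr (by norm_num)
  refine ⟨Real.log r', Real.log_neg hr'0 ((min_le_right _ _).trans_lt (by norm_num)), ?_⟩
  have hmem : ∀ t < Real.log r', ∀ θ, Complex.exp (pt t θ) ∈ Metric.ball (0:ℂ) r := by
    intro t ht θ
    rw [mem_ball_zero_iff, norm_exp_pt]
    have : Real.exp t < r' := by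
      rw [← Real.exp_log hr'0]; exact Real.exp_lt_exp.2 ht
    exact this.trans_le (min_le_left _ _)
  have hlog0 : Real.log r' < 0 := Real.log_neg hr'0 ((min_le_right _ _).trans_lt (by norm_num))
  set K : ℝ := (1 - e') * m * a ^ 2 with hK
  have hK0 : 0 < K := by
    have : 0 < 1 - e' := by linarith
    positivity
  -- lower bound on the area
  have hlow : ∀ t < Real.log r', K * Real.exp (2 * m * t) ≤ ar f t := by
    set D : ℝ → ℝ := fun s => ar f s - K * Real.exp (2 * m * s) with hD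
    have hDd : ∀ s < 0, HasDerivAt D (area' (h1 f) s - K * (Real.exp (2 * m * s) * (2 * m))) s := by
      intro s hs
      have k1 := H.area_deriv hs
      have k2 : HasDerivAt (fun s : ℝ => 2 * (m:ℝ) * s) (2 * m) s := by
        simpa using (hasDerivAt_id s).const_mul (2 * (m:ℝ))
      exact k1.sub ((k2.exp).const_mul K)
    have hDm : MonotoneOn D (Iio (Real.log r')) := by
      apply monotoneOn_of_deriv_nonneg (convex_Iio _)
      · exact fun s hs => (hDd s (lt_trans hs hlog0)).continuousAt.continuousWithinAt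
      · rw [interior_Iio]
        exact fun s hs => (hDd s (lt_trans hs hlog0)).differentiableAt.differentiableWithinAt
      · rw [interior_Iio]
        intro s hs
        rw [(hDd s (lt_trans hs hlog0)).deriv]
        have hs0 : s < 0 := lt_trans hs hlog0
        have k3 : (2 * π) * ((Real.exp (2 * m * s)) * ((1 - e') * (m ^ 2 * a ^ 2))) ≤
            ∫ θ in (0:ℝ)..(2 * π), ‖h1 f (pt s θ)‖ ^ 2 := by
          have k4 := intervalIntegral.integral_mono_on (μ := volume) (a := 0) (b := 2 * π)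
            (f := fun _ => (Real.exp (2 * m * s)) * ((1 - e') * (m ^ 2 * a ^ 2)))
            (g := fun θ => ‖h1 f (pt s θ)‖ ^ 2) (by positivity)
            (continuous_const.intervalIntegrable _ _)
            (((comp_pt' H.c1 hs0).norm.pow 2).intervalIntegrable _ _) ?_
          · rw [intervalIntegral.integral_const] at k4
            simpa using k4
          · intro θ _
            have hz := hball _ (hmem s hs θ)
            obtain ⟨⟨_, hz2⟩, _, hz4⟩ := hz
            simp only [h1]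
            rw [hz4, norm_mul, norm_pow, norm_exp_pt, mul_pow, ← Real.exp_nat_mul,
              ← Real.exp_nat_mul]
            have : ((2:ℕ):ℝ) * ((m:ℝ) * s) = 2 * m * s := by push_cast; ring
            rw [this]
            exact mul_le_mul_of_nonneg_left hz2.le (Real.exp_pos _).le
        unfold area'
        have k5 : (1 / π) * ((2 * π) * ((Real.exp (2 * m * s)) * ((1 - e') * (m ^ 2 * a ^ 2)))) ≤
          (1 / π) * ∫ θ in (0:ℝ)..(2 * π), ‖h1 f (pt s θ)‖ ^ 2 := by gcongr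
        have k6 : (1 / π) * ((2 * π) * ((Real.exp (2 * m * s)) * ((1 - e') * (m ^ 2 * a ^ 2))))
          = K * (Real.exp (2 * m * s) * (2 * m)) := by rw [hK]; field_simp
        linarith
    have hDlim : Tendsto D atBot (𝓝 0) := by
      have k1 := ar_tendsto hf
      have k2 : Tendsto (fun s : ℝ => K * Real.exp (2 * m * s)) atBot (𝓝 0) := by
        have k3 : Tendsto (fun s : ℝ => 2 * (m:ℝ) * s) atBot atBot :=
          tendsto_id.const_mul_atBot (by positivity)
        simpa using (Real.tendsto_exp_atBot.comp k3).const_mul K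
      simpa using k1.sub k2
    intro t ht
    have : 0 ≤ D t := by
      refine le_of_tendsto hDlim ?_
      filter_upwards [Iio_mem_atBot t] with s hs
      exact hDm (lt_trans hs ht) ht (le_of_lt hs)
    simp only [hD] at this
    linarith
  intro t ht
  have hlt := hlow t ht
  refine ⟨lt_of_lt_of_le (by positivity) hlt, fun θ => ?_⟩
  obtain ⟨⟨hz1, _⟩, hz3, _⟩ := hball _ (hmem t ht θ)
  simp only [h0]
  rw [hz3, norm_mul, norm_pow, norm_exp_pt, mul_pow, ← Real.exp_nat_mul,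
              ← Real.exp_nat_mul]
  have : ((2:ℕ):ℝ) * ((m:ℝ) * t) = 2 * m * t := by push_cast; ring
  rw [this]
  calc Real.exp (2 * m * t) * ‖g (Complex.exp (pt t θ))‖ ^ 2
      ≤ Real.exp (2 * m * t) * ((1 + e') * a ^ 2) := by gcongr
    _ ≤ Real.exp (2 * m * t) * (((1 + ε) * (1 - e')) * a ^ 2) := by gcongr
    _ = ((1 + ε) / m) * (K * Real.exp (2 * m * t)) := by rw [hK]; field_simp
    _ ≤ _ := by gcongr

lemma ar_pos {f : ℂ → ℂ} (hf : DifferentiableOn ℂ f (Metric.ball 0 1)) (hf0 : f 0 = 0)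
    (hne : ¬ ∀ᶠ z in 𝓝 (0:ℂ), f z = 0) : ∀ t < 0, 0 < ar f t := by
  obtain ⟨m, hm, g, hg, hg0, hfg, hfg1⟩ := local_form hf hf0 hne
  obtain ⟨t0, ht0, h⟩ := lim_ratio hf hm hg hg0 hfg hfg1 one_pos
  intro t ht
  rcases lt_or_ge t t0 with h1 | h1
  · exact (h t h1).1
  · have := (h (t0 - 1) (by linarith)).1
    exact this.trans_le (ar_mono hf (by show t0 - 1 < 0; linarith) ht (by linarith))

/-- **Upper bound**: `Φ(t) ≤ 2π e^{1/m}` for all `t < 0`. -/
lemma ph_le {f : ℂ → ℂ} (hf : DifferentiableOn ℂ f (Metric.ball 0 1)) (hf0 : f 0 = 0)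
    (hne : ¬ ∀ᶠ z in 𝓝 (0:ℂ), f z = 0) {m : ℕ} (hm : 1 ≤ m)
    {g : ℂ → ℂ} (hg : AnalyticAt ℂ g 0) (hg0 : g 0 ≠ 0)
    (hfg : ∀ᶠ z in 𝓝 (0:ℂ), f z = z ^ m * g z)
    (hfg1 : ∀ᶠ z in 𝓝 (0:ℂ), z * deriv f z = z ^ m * (m * g z + z * deriv g z))
    {t : ℝ} (ht : t < 0) : ph f t ≤ 2 * π * Real.exp (1 / m) := by
  have H := mkHP hf
  have hpos := ar_pos hf hf0 hne
  have hanti := H.Phi_antitone hpos
  have hb : ∀ ε > 0, ph f t ≤ 2 * π * Real.exp ((1 + ε) / m) := by
    intro ε hε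
    obtain ⟨t0, ht0, h⟩ := lim_ratio hf hm hg hg0 hfg hfg1 hε
    set s := min t t0 - 1 with hs
    have hst : s ≤ t := by have := min_le_left t t0; linarith
    have hst0 : s < t0 := by have := min_le_right t t0; linarith
    have hs0 : s < 0 := by linarith
    have k1 : ph f t ≤ ph f s := hanti hs0 ht hst
    refine k1.trans ?_
    obtain ⟨hA, hθ⟩ := h s hst0
    have kc : Continuous (fun θ => Real.exp (‖h0 f (pt s θ)‖ ^ 2 / ar f s)) :=
      Real.continuous_exp.comp (((comp_pt' H.c0 hs0).norm.pow 2).div_const _)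
    have k2 := intervalIntegral.integral_mono_on (μ := volume) (a := 0) (b := 2 * π)
      (f := fun θ => Real.exp (‖h0 f (pt s θ)‖ ^ 2 / ar f s))
      (g := fun _ => Real.exp ((1 + ε) / m)) (by positivity)
      (kc.intervalIntegrable _ _) (continuous_const.intervalIntegrable _ _) ?_
    · rw [intervalIntegral.integral_const, sub_zero, smul_eq_mul] at k2
      exact k2
    · intro θ _
      apply Real.exp_le_exp.2
      rw [div_le_iff₀ hA]
      exact hθ θ
  have hlim : Tendsto (fun ε : ℝ => 2 * π * Real.exp ((1 + ε) / m)) (𝓝[>] 0)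
      (𝓝 (2 * π * Real.exp (1 / m))) := by
    have : Continuous (fun ε : ℝ => 2 * π * Real.exp ((1 + ε) / m)) := by fun_prop
    have := this.tendsto 0
    rw [add_zero] at this
    exact this.mono_left nhdsWithin_le_nhds
  refine ge_of_tendsto hlim ?_
  filter_upwards [self_mem_nhdsWithin] with ε hε
  exact hb ε hε

end Pool.Agent.Helper793.CM
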