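import Pool.Agent.Helper793.CM.Key

set_option autoImplicit false

open MeasureTheory Set Real Complex Filter Topology
open scoped ENNReal NNReal ComplexConjugate

namespace Pool.Agent.Helper793.CM

/-- derivative under the integral sign over `[0, 2π]`. -/
lemma hasDerivAt_param {G G' : ℝ → ℝ → ℝ} {t0 : ℝ} (ht0 : t0 < 0)
    (hG : ∀ t < 0, ∀ θ, HasDerivAt (fun t => G t θ) (G' t θ) t)
    (hGc : ∀ t < 0, Continuous (G t))
    (hG'c : ContinuousOn (fun p : ℝ × ℝ => G' p.1 p.2) (Iio 0 ×ˢ univ)) :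
    HasDerivAt (fun t => ∫ θ in (0:ℝ)..(2 * π), G t θ) (∫ θ in (0:ℝ)..(2 * π), G' t0 θ) t0 := by
  have hK : IsCompact (Icc (3 * t0 / 2) (t0 / 2) ×ˢ Icc (0:ℝ) (2 * π)) :=
    isCompact_Icc.prod isCompact_Icc
  obtain ⟨C, hC⟩ := hK.exists_bound_of_continuousOn (hG'c.mono (by
    rintro ⟨a, b⟩ ⟨ha, hb⟩
    exact ⟨lt_of_le_of_lt ha.2 (by linarith), mem_univ _⟩))
  have hs : Ioo (3 * t0 / 2) (t0 / 2) ∈ 𝓝 t0 := Ioo_mem_nhds (by linarith) (by linarith)
  have hG't : ∀ t < 0, Continuous (G' t) := by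
    intro t ht
    have : ContinuousOn (fun θ : ℝ => G' t θ) univ := by
      have h := hG'c.comp (f := fun θ : ℝ => (t, θ)) (s := univ)
        (Continuous.continuousOn (by fun_prop)) (fun θ _ => ⟨ht, mem_univ _⟩)
      exact h
    exact continuousOn_univ.1 this
  have hpi : (0:ℝ) ≤ 2 * π := by positivity
  refine (intervalIntegral.hasDerivAt_integral_of_dominated_loc_of_deriv_le (F := G) (F' := G')
    (bound := fun _ => C) hs ?_ ?_ ?_ ?_ ?_ ?_).2
  · filter_upwards [hs] with t ht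
    exact (hGc t (by linarith [ht.2])).aestronglyMeasurable
  · exact (hGc t0 ht0).intervalIntegrable _ _
  · exact (hG't t0 ht0).aestronglyMeasurable
  · refine ae_of_all _ fun θ hθ t ht => ?_
    rw [uIoc_of_le hpi] at hθ
    exact hC (t, θ) ⟨⟨ht.1.le, ht.2.le⟩, ⟨hθ.1.le, hθ.2⟩⟩
  · exact (continuous_const).intervalIntegrable _ _
  · refine ae_of_all _ fun θ _ t ht => hG t (by linarith [ht.2]) θ

structure HP (h h1 h2 : ℂ → ℂ) : Prop where
  d0 : ∀ ζ : ℂ, ζ.re < 0 → HasDerivAt h (h1 ζ) ζ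
  d1 : ∀ ζ : ℂ, ζ.re < 0 → HasDerivAt h1 (h2 ζ) ζ
  c2 : ContinuousOn h2 {ζ : ℂ | ζ.re < 0}
  per : ∀ ζ : ℂ, ζ.re < 0 → h (ζ + 2 * π * I) = h ζ
  per1 : ∀ ζ : ℂ, ζ.re < 0 → h1 (ζ + 2 * π * I) = h1 ζ

/-- the point `t + iθ` -/
noncomputable def pt (t θ : ℝ) : ℂ := (t : ℂ) + θ * I

lemma pt_re (t θ : ℝ) : (pt t θ).re = t := by simp [pt]

lemma continuous_pt : Continuous (fun p : ℝ × ℝ => pt p.1 p.2) := by
  unfold pt; fun_prop

lemma pt_per (t θ : ℝ) : pt t (θ + 2 * π) = pt t θ + 2 * π * I := by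
  simp only [pt]; push_cast; ring

section
variable {h h1 h2 : ℂ → ℂ}

lemma HP.dt (H : HP h h1 h2) {t : ℝ} (ht : t < 0) (θ : ℝ) :
    HasDerivAt (fun t : ℝ => h (pt t θ)) (h1 (pt t θ)) t := by
  have hp : HasDerivAt (fun t : ℝ => pt t θ) 1 t := by
    simpa [pt] using (Complex.ofRealCLM.hasDerivAt (x := t)).add_const ((θ:ℂ) * I)
  have := (H.d0 (pt t θ) (by rwa [pt_re])).comp t hp
  simpa [Function.comp_def] using this

lemma HP.dt1 (H : HP h h1 h2) {t : ℝ} (ht : t < 0) (θ : ℝ) :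
    HasDerivAt (fun t : ℝ => h1 (pt t θ)) (h2 (pt t θ)) t := by
  have hp : HasDerivAt (fun t : ℝ => pt t θ) 1 t := by
    simpa [pt] using (Complex.ofRealCLM.hasDerivAt (x := t)).add_const ((θ:ℂ) * I)
  have := (H.d1 (pt t θ) (by rwa [pt_re])).comp t hp
  simpa [Function.comp_def] using this

lemma HP.dθ (H : HP h h1 h2) {t : ℝ} (ht : t < 0) (θ : ℝ) :
    HasDerivAt (fun θ : ℝ => h (pt t θ)) (I * h1 (pt t θ)) θ := by
  have hp : HasDerivAt (fun θ : ℝ => pt t θ) I θ := by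
    simpa [pt] using ((Complex.ofRealCLM.hasDerivAt (x := θ)).mul_const I).const_add (t:ℂ)
  have := (H.d0 (pt t θ) (by rwa [pt_re])).comp θ hp
  simpa [Function.comp_def, mul_comm] using this

lemma HP.dθ1 (H : HP h h1 h2) {t : ℝ} (ht : t < 0) (θ : ℝ) :
    HasDerivAt (fun θ : ℝ => h1 (pt t θ)) (I * h2 (pt t θ)) θ := by
  have hp : HasDerivAt (fun θ : ℝ => pt t θ) I θ := by
    simpa [pt] using ((Complex.ofRealCLM.hasDerivAt (x := θ)).mul_const I).const_add (t:ℂ)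
  have := (H.d1 (pt t θ) (by rwa [pt_re])).comp θ hp
  simpa [Function.comp_def, mul_comm] using this

lemma HP.c0 (H : HP h h1 h2) : ContinuousOn h {ζ : ℂ | ζ.re < 0} :=
  fun ζ hζ => (H.d0 ζ hζ).continuousAt.continuousWithinAt

lemma HP.c1 (H : HP h h1 h2) : ContinuousOn h1 {ζ : ℂ | ζ.re < 0} :=
  fun ζ hζ => (H.d1 ζ hζ).continuousAt.continuousWithinAt

lemma comp_pt {k : ℂ → ℂ} (hk : ContinuousOn k {ζ : ℂ | ζ.re < 0}) :
    ContinuousOn (fun p : ℝ × ℝ => k (pt p.1 p.2)) (Iio 0 ×ˢ univ) :=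
  hk.comp continuous_pt.continuousOn (fun p hp => by
    show (pt p.1 p.2).re < 0
    rw [pt_re]; exact hp.1)

lemma comp_pt' {k : ℂ → ℂ} (hk : ContinuousOn k {ζ : ℂ | ζ.re < 0}) {t : ℝ} (ht : t < 0) :
    Continuous (fun θ : ℝ => k (pt t θ)) := by
  have h := (comp_pt hk).comp (f := fun θ : ℝ => (t, θ)) (s := univ)
    (Continuous.continuousOn (by fun_prop)) (fun θ _ => ⟨ht, mem_univ _⟩)
  exact continuousOn_univ.1 h

/-- Area function `A(t)` (`= ∑ n |a_n|² e^{2nt}`). -/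
noncomputable def area (h h1 : ℂ → ℂ) (t : ℝ) : ℝ :=
  (1 / (2 * π)) * ∫ θ in (0:ℝ)..(2 * π), (conj (h (pt t θ)) * h1 (pt t θ)).re

noncomputable def area' (h1 : ℂ → ℂ) (t : ℝ) : ℝ :=
  (1 / π) * ∫ θ in (0:ℝ)..(2 * π), ‖h1 (pt t θ)‖ ^ 2

lemma HP.int_h2 (H : HP h h1 h2) {t : ℝ} (ht : t < 0) :
    ∫ θ in (0:ℝ)..(2 * π), (conj (h (pt t θ)) * h2 (pt t θ)).re =
      ∫ θ in (0:ℝ)..(2 * π), ‖h1 (pt t θ)‖ ^ 2 := by
  have c0 := comp_pt' H.c0 ht
  have c1 := comp_pt' H.c1 ht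
  have c2 := comp_pt' H.c2 ht
  have hd : ∀ θ, HasDerivAt (fun θ : ℝ => (conj (h (pt t θ)) * h1 (pt t θ)).im)
      ((conj (h (pt t θ)) * h2 (pt t θ)).re - ‖h1 (pt t θ)‖ ^ 2) θ := by
    intro θ
    have k1 : HasDerivAt (fun θ : ℝ => conj (h (pt t θ))) (conj (I * h1 (pt t θ))) θ :=
      (H.dθ ht θ).star
    have k2 := k1.mul (H.dθ1 ht θ)
    have k3 : HasDerivAt (fun θ : ℝ => (conj (h (pt t θ)) * h1 (pt t θ)).im)
      ((conj (I * h1 (pt t θ)) * h1 (pt t θ) + conj (h (pt t θ)) * (I * h2 (pt t θ))).im) θ :=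
      Complex.imCLM.hasFDerivAt.comp_hasDerivAt θ k2
    convert k3 using 1
    rw [← Complex.normSq_eq_norm_sq]
    simp only [Complex.normSq_apply, Complex.add_im, Complex.mul_re, Complex.mul_im,
      Complex.conj_re, Complex.conj_im, Complex.I_re, Complex.I_im]
    ring
  have hc : Continuous (fun θ : ℝ => (conj (h (pt t θ)) * h2 (pt t θ)).re) :=
    Complex.continuous_re.comp ((Complex.continuous_conj.comp c0).mul c2)
  have hc' : Continuous (fun θ : ℝ => ‖h1 (pt t θ)‖ ^ 2) := c1.norm.pow 2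
  have hF := intervalIntegral.integral_eq_sub_of_hasDerivAt (a := 0) (b := 2 * π)
    (fun θ _ => hd θ) ((hc.sub hc').intervalIntegrable _ _)
  rw [intervalIntegral.integral_sub (hc.intervalIntegrable _ _) (hc'.intervalIntegrable _ _)] at hF
  have e1 : pt t (2 * π) = pt t 0 + 2 * π * I := by
    have := pt_per t 0; rwa [zero_add] at this
  rw [e1, H.per _ (by rwa [pt_re]), H.per1 _ (by rwa [pt_re]), sub_self] at hF
  linarith

lemma HP.area_deriv (H : HP h h1 h2) {t : ℝ} (ht : t < 0) :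
    HasDerivAt (area h h1) (area' h1 t) t := by
  have c0 := comp_pt H.c0
  have c1 := comp_pt H.c1
  have c2 := comp_pt H.c2
  have key := hasDerivAt_param (t0 := t)
    (G := fun t θ => (conj (h (pt t θ)) * h1 (pt t θ)).re)
    (G' := fun t θ => ‖h1 (pt t θ)‖ ^ 2 + (conj (h (pt t θ)) * h2 (pt t θ)).re) ht ?_ ?_ ?_
  · have k2 := key.const_mul (1 / (2 * π))
    have e : (1 / (2 * π)) * ∫ θ in (0:ℝ)..(2 * π), (‖h1 (pt t θ)‖ ^ 2 +
        (conj (h (pt t θ)) * h2 (pt t θ)).re) = area' h1 t := by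
      have c0 := comp_pt' H.c0 ht
      have c1 := comp_pt' H.c1 ht
      have c2 := comp_pt' H.c2 ht
      have hc : Continuous (fun θ : ℝ => (conj (h (pt t θ)) * h2 (pt t θ)).re) :=
        Complex.continuous_re.comp ((Complex.continuous_conj.comp c0).mul c2)
      have hc' : Continuous (fun θ : ℝ => ‖h1 (pt t θ)‖ ^ 2) := c1.norm.pow 2
      rw [intervalIntegral.integral_add (hc'.intervalIntegrable _ _) (hc.intervalIntegrable _ _),
        H.int_h2 ht]
      unfold area'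
      field_simp
      ring
    rw [e] at k2
    exact k2
  · intro s hs θ
    have k1 : HasDerivAt (fun s : ℝ => conj (h (pt s θ))) (conj (h1 (pt s θ))) s :=
      (H.dt hs θ).star
    have k2 := k1.mul (H.dt1 hs θ)
    have k3 : HasDerivAt (fun s : ℝ => (conj (h (pt s θ)) * h1 (pt s θ)).re)
      ((conj (h1 (pt s θ)) * h1 (pt s θ) + conj (h (pt s θ)) * (h2 (pt s θ))).re) s :=
      Complex.reCLM.hasFDerivAt.comp_hasDerivAt s k2
    convert k3 using 1
    rw [← Complex.normSq_eq_norm_sq]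
    simp only [Complex.normSq_apply, Complex.add_re, Complex.mul_re,
      Complex.conj_re, Complex.conj_im]
    ring
  · intro s hs
    exact Complex.continuous_re.comp ((Complex.continuous_conj.comp (comp_pt' H.c0 hs)).mul
      (comp_pt' H.c1 hs))
  · exact (c1.norm.pow 2).add (Complex.continuous_re.comp_continuousOn
      ((Complex.continuous_conj.comp_continuousOn c0).mul c2))

lemma HP.area'_cont (H : HP h h1 h2) : ContinuousOn (area' h1) (Iio 0) := by
  intro t ht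
  have key := hasDerivAt_param (t0 := t)
    (G := fun t θ => ‖h1 (pt t θ)‖ ^ 2)
    (G' := fun t θ => 2 * (conj (h1 (pt t θ)) * h2 (pt t θ)).re) ht
    (fun s hs θ => hasDerivAt_normsq (H.dt1 hs θ)) ?_ ?_
  · exact (key.const_mul (1 / π)).continuousAt.continuousWithinAt
  · intro s hs
    exact (comp_pt' H.c1 hs).norm.pow 2
  · exact continuousOn_const.mul (Complex.continuous_re.comp_continuousOn
      ((Complex.continuous_conj.comp_continuousOn (comp_pt H.c1)).mul (comp_pt H.c2)))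

lemma HP.area_cont (H : HP h h1 h2) : ContinuousOn (area h h1) (Iio 0) :=
  fun t ht => (H.area_deriv ht).continuousAt.continuousWithinAt

noncomputable def Phi (h h1 : ℂ → ℂ) (t : ℝ) : ℝ :=
  ∫ θ in (0:ℝ)..(2 * π), Real.exp (‖h (pt t θ)‖ ^ 2 / area h h1 t)

lemma HP.Phi_deriv (H : HP h h1 h2) (hpos : ∀ t < 0, 0 < area h h1 t) {t : ℝ} (ht : t < 0) :
    HasDerivAt (Phi h h1) ((1 / (area h h1 t) ^ 2) *
      (2 * area h h1 t * (∫ θ in (0:ℝ)..(2 * π), Real.exp (‖h (pt t θ)‖ ^ 2 / area h h1 t) *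
        (conj (h (pt t θ)) * h1 (pt t θ)).re) -
      area' h1 t * (∫ θ in (0:ℝ)..(2 * π), ‖h (pt t θ)‖ ^ 2 *
        Real.exp (‖h (pt t θ)‖ ^ 2 / area h h1 t)))) t := by
  have key := hasDerivAt_param (t0 := t)
    (G := fun t θ => Real.exp (‖h (pt t θ)‖ ^ 2 / area h h1 t))
    (G' := fun t θ => Real.exp (‖h (pt t θ)‖ ^ 2 / area h h1 t) *
      ((2 * (conj (h (pt t θ)) * h1 (pt t θ)).re * area h h1 t
        - ‖h (pt t θ)‖ ^ 2 * area' h1 t) / (area h h1 t) ^ 2)) ht ?_ ?_ ?_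
  · change HasDerivAt (fun t => ∫ θ in (0:ℝ)..(2 * π),
      Real.exp (‖h (pt t θ)‖ ^ 2 / area h h1 t)) _ _
    convert key using 1
    set A := area h h1 t
    have hA : 0 < A := hpos t ht
    have c0 := comp_pt' H.c0 ht
    have c1 := comp_pt' H.c1 ht
    have hc1 : Continuous (fun θ : ℝ => (2 / A) * (Real.exp (‖h (pt t θ)‖ ^ 2 / A) *
        (conj (h (pt t θ)) * h1 (pt t θ)).re)) :=
      continuous_const.mul ((Real.continuous_exp.comp ((c0.norm.pow 2).div_const _)).mul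
        (Complex.continuous_re.comp ((Complex.continuous_conj.comp c0).mul c1)))
    have hc2 : Continuous (fun θ : ℝ => (area' h1 t / A ^ 2) * (‖h (pt t θ)‖ ^ 2 *
        Real.exp (‖h (pt t θ)‖ ^ 2 / A))) :=
      continuous_const.mul ((c0.norm.pow 2).mul
        (Real.continuous_exp.comp ((c0.norm.pow 2).div_const _)))
    have e : ∀ θ : ℝ, Real.exp (‖h (pt t θ)‖ ^ 2 / A) *
      ((2 * (conj (h (pt t θ)) * h1 (pt t θ)).re * A
        - ‖h (pt t θ)‖ ^ 2 * area' h1 t) / A ^ 2) =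
        (2 / A) * (Real.exp (‖h (pt t θ)‖ ^ 2 / A) *
        (conj (h (pt t θ)) * h1 (pt t θ)).re) - (area' h1 t / A ^ 2) * (‖h (pt t θ)‖ ^ 2 *
        Real.exp (‖h (pt t θ)‖ ^ 2 / A)) := by
      intro θ; field_simp
    rw [intervalIntegral.integral_congr (fun θ _ => e θ)]
    rw [intervalIntegral.integral_sub (hc1.intervalIntegrable _ _) (hc2.intervalIntegrable _ _),
      intervalIntegral.integral_const_mul, intervalIntegral.integral_const_mul]
    field_simp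
  · intro s hs θ
    have hA := hpos s hs
    have k := (((hasDerivAt_normsq (H.dt hs θ)).div (H.area_deriv hs) hA.ne')).exp
    exact k
  · intro s hs
    exact Real.continuous_exp.comp (((comp_pt' H.c0 hs).norm.pow 2).div_const _)
  · have c0 := comp_pt H.c0
    have c1 := comp_pt H.c1
    have cA : ContinuousOn (fun p : ℝ × ℝ => area h h1 p.1) (Iio 0 ×ˢ univ) :=
      H.area_cont.comp continuous_fst.continuousOn (fun p hp => hp.1)
    have cA' : ContinuousOn (fun p : ℝ × ℝ => area' h1 p.1) (Iio 0 ×ˢ univ) :=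
      H.area'_cont.comp continuous_fst.continuousOn (fun p hp => hp.1)
    have hne : ∀ p ∈ (Iio (0:ℝ) ×ˢ (univ : Set ℝ)), area h h1 p.1 ≠ 0 :=
      fun p hp => (hpos p.1 hp.1).ne'
    refine ((Real.continuous_exp.comp_continuousOn ((c0.norm.pow 2).div cA hne))).mul ?_
    refine ContinuousOn.div ?_ (cA.pow 2) (fun p hp => pow_ne_zero _ (hne p hp))
    refine ContinuousOn.sub ?_ ((c0.norm.pow 2).mul cA')
    exact (continuousOn_const.mul (Complex.continuous_re.comp_continuousOn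
      ((Complex.continuous_conj.comp_continuousOn c0).mul c1))).mul cA

lemma HP.ineq (H : HP h h1 h2) (hpos : ∀ t < 0, 0 < area h h1 t) {t : ℝ} (ht : t < 0) :
    2 * area h h1 t * (∫ θ in (0:ℝ)..(2 * π), Real.exp (‖h (pt t θ)‖ ^ 2 / area h h1 t) *
        (conj (h (pt t θ)) * h1 (pt t θ)).re) ≤
      area' h1 t * (∫ θ in (0:ℝ)..(2 * π), ‖h (pt t θ)‖ ^ 2 *
        Real.exp (‖h (pt t θ)‖ ^ 2 / area h h1 t)) := by
  have e1 : pt t (2 * π) = pt t 0 + 2 * π * I := by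
    have := pt_per t 0; rwa [zero_add] at this
  have := key_ineq (u := fun θ => h (pt t θ)) (u1 := fun θ => h1 (pt t θ)) (A := area h h1 t)
    (fun θ => H.dθ ht θ) (comp_pt' H.c1 ht) (by
      simp only [e1]; rw [H.per _ (by rwa [pt_re])]) (hpos t ht) (by
      unfold area; field_simp)
  unfold area'
  have h2 : (1 / π) * (2 * π * area h h1 t *
      (∫ θ in (0:ℝ)..(2 * π), Real.exp (‖h (pt t θ)‖ ^ 2 / area h h1 t) *
        (conj (h (pt t θ)) * h1 (pt t θ)).re)) ≤ (1 / π) *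
      ((∫ θ in (0:ℝ)..(2 * π), ‖h1 (pt t θ)‖ ^ 2) * (∫ θ in (0:ℝ)..(2 * π), ‖h (pt t θ)‖ ^ 2 *
        Real.exp (‖h (pt t θ)‖ ^ 2 / area h h1 t))) := by gcongr
  calc _ = (1 / π) * (2 * π * area h h1 t *
      (∫ θ in (0:ℝ)..(2 * π), Real.exp (‖h (pt t θ)‖ ^ 2 / area h h1 t) *
        (conj (h (pt t θ)) * h1 (pt t θ)).re)) := by field_simp
    _ ≤ _ := h2
    _ = _ := by ring

/-- **Monotonicity**: `Φ` is antitone on `(-∞, 0)`. -/
theorem HP.Phi_antitone (H : HP h h1 h2) (hpos : ∀ t < 0, 0 < area h h1 t) :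
    AntitoneOn (Phi h h1) (Iio 0) := by
  apply antitoneOn_of_deriv_nonpos (convex_Iio 0)
  · exact fun t ht => (H.Phi_deriv hpos ht).continuousAt.continuousWithinAt
  · rw [interior_Iio]
    exact fun t ht => (H.Phi_deriv hpos ht).differentiableAt.differentiableWithinAt
  · rw [interior_Iio]
    intro t ht
    rw [(H.Phi_deriv hpos ht).deriv]
    have := H.ineq hpos ht
    have h0 : 0 ≤ 1 / (area h h1 t) ^ 2 := by positivity
    exact mul_nonpos_of_nonneg_of_nonpos h0 (by linarith)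

end

end Pool.Agent.Helper793.CM
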