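import Pool.Agent.Helper793.CM.Series

set_option autoImplicit false

open MeasureTheory Set Real Complex Filter Topology
open scoped ENNReal NNReal ComplexConjugate

namespace Pool.Agent.Helper793.CM

/-- the algebra of the coefficient relations -/
lemma coeff_algebra {a q : ℕ → ℂ} (h1 : a 1 ≠ 0)
    (h : ∀ l, 1 ≤ l → ∀ n, conj (a n) * a (n + l) = q l * (n * (conj (a n) * a n))) :
    ∀ n, 2 ≤ n → a n = 0 := by
  have h' : ∀ l, 1 ≤ l → ∀ n, a n ≠ 0 → a (n + l) = n * q l * a n := by
    intro l hl n hn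
    have := h l hl n
    have hc : conj (a n) ≠ 0 := by rwa [ne_eq, map_eq_zero]
    apply mul_left_cancel₀ hc
    rw [this]; ring
  by_contra hcon
  push Not at hcon
  classical
  set p := Nat.find hcon with hp
  obtain ⟨hp2, hpa⟩ := Nat.find_spec hcon
  rw [← hp] at hp2 hpa
  have e1 : a p = q (p - 1) * a 1 := by
    have := h' (p - 1) (by omega) 1 h1
    rw [show 1 + (p - 1) = p by omega] at this
    rw [this]; push_cast; ring
  have hq : q (p - 1) ≠ 0 := by
    intro h0; rw [h0, zero_mul] at e1; exact hpa e1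
  have e2 : a (2 * p - 1) = p * q (p - 1) * a p := by
    have := h' (p - 1) (by omega) p hpa
    rwa [show p + (p - 1) = 2 * p - 1 by omega] at this
  have hpR : (p : ℂ) ≠ 0 := by
    have : p ≠ 0 := by omega
    exact_mod_cast this
  have hne2 : a (2 * p - 1) ≠ 0 := by rw [e2]; exact mul_ne_zero (mul_ne_zero hpR hq) hpa
  have e3 : a (2 * p - 1) = q (2 * p - 2) * a 1 := by
    have := h' (2 * p - 2) (by omega) 1 h1
    rw [show 1 + (2 * p - 2) = 2 * p - 1 by omega] at this
    rw [this]; push_cast; ring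
  have e4 : a (3 * p - 2) = p * q (2 * p - 2) * a p := by
    have := h' (2 * p - 2) (by omega) p hpa
    rwa [show p + (2 * p - 2) = 3 * p - 2 by omega] at this
  have e5 : a (3 * p - 2) = ((2 * p - 1 : ℕ) : ℂ) * q (p - 1) * a (2 * p - 1) := by
    have := h' (p - 1) (by omega) (2 * p - 1) hne2
    rwa [show (2 * p - 1) + (p - 1) = 3 * p - 2 by omega] at this
  have e6 : (p : ℂ) * (a (2 * p - 1) * a p) = ((2 * p - 1 : ℕ) : ℂ) * (a (2 * p - 1) * a p) := by
    calc (p : ℂ) * (a (2 * p - 1) * a p) = (p * q (2 * p - 2) * a p) * a 1 := by rw [e3]; ring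
      _ = (((2 * p - 1 : ℕ) : ℂ) * q (p - 1) * a (2 * p - 1)) * a 1 := by rw [← e4, e5]
      _ = ((2 * p - 1 : ℕ) : ℂ) * (a (2 * p - 1) * (q (p - 1) * a 1)) := by ring
      _ = _ := by rw [← e1]
  have e7 : (p : ℂ) = ((2 * p - 1 : ℕ) : ℂ) :=
    mul_right_cancel₀ (mul_ne_zero hne2 hpa) e6
  have e8 : p = 2 * p - 1 := by exact_mod_cast e7
  omega

lemma int_h1_ch {f : ℂ → ℂ} (hf : DifferentiableOn ℂ f (Metric.ball 0 1)) {t : ℝ} (ht : t < 0)
    (n : ℕ) : ∫ θ in (0:ℝ)..(2 * π), h1 f (pt t θ) * ch (-n) θ =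
      n * ∫ θ in (0:ℝ)..(2 * π), h0 f (pt t θ) * ch (-n) θ := by
  have H := mkHP hf
  have hd : ∀ θ, HasDerivAt (fun θ : ℝ => h0 f (pt t θ) * ch (-n) θ)
      (I * (h1 f (pt t θ) * ch (-n) θ) - I * (n * (h0 f (pt t θ) * ch (-n) θ))) θ := by
    intro θ
    have k1 := H.dθ ht θ
    have k2 : HasDerivAt (ch (-n)) (ch (-n) θ * (-(n:ℂ) * I)) θ := by
      unfold ch
      have k3 : HasDerivAt (fun θ : ℝ => ((-(n:ℤ) : ℤ) : ℂ) * (θ:ℂ) * I) (-(n:ℂ) * I) θ := by
        have := ((Complex.ofRealCLM.hasDerivAt (x := θ)).const_mul (((-(n:ℤ) : ℤ) : ℂ))).mul_const I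
        simpa using this
      exact k3.cexp
    have k4 := k1.mul k2
    have k5 : I * (h1 f (pt t θ) * ch (-n) θ) - I * (n * (h0 f (pt t θ) * ch (-n) θ)) =
        (I * h1 f (pt t θ)) * ch (-n) θ + h0 f (pt t θ) * (ch (-n) θ * (-(n:ℂ) * I)) := by ring
    rw [k5]
    exact k4
  have c0 := comp_pt' H.c0 ht
  have c1 := comp_pt' H.c1 ht
  have cc := continuous_ch (-n)
  have d1 : Continuous (fun θ : ℝ => I * (h1 f (pt t θ) * ch (-n) θ)) :=
    continuous_const.mul (c1.mul cc)
  have d2 : Continuous (fun θ : ℝ => I * (n * (h0 f (pt t θ) * ch (-n) θ))) :=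
    continuous_const.mul (continuous_const.mul (c0.mul cc))
  have hF := intervalIntegral.integral_eq_sub_of_hasDerivAt (a := 0) (b := 2 * π)
    (fun θ _ => hd θ) ((d1.sub d2).intervalIntegrable _ _)
  rw [intervalIntegral.integral_sub (d1.intervalIntegrable _ _) (d2.intervalIntegrable _ _),
    intervalIntegral.integral_const_mul, intervalIntegral.integral_const_mul,
    intervalIntegral.integral_const_mul] at hF
  have e1 : pt t (2 * π) = pt t 0 + 2 * π * I := by
    have := pt_per t 0; rwa [zero_add] at this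
  have e2 : ch (-n) (2 * π) = ch (-n) 0 := by
    unfold ch
    have : Complex.exp (((-(n:ℤ) : ℤ) : ℂ) * ((2 * π : ℝ) : ℂ) * I) = 1 := by
      rw [Complex.exp_eq_one_iff]
      exact ⟨-n, by push_cast; ring⟩
    rw [this]; simp
  rw [e1, H.per _ (by rwa [pt_re]), e2, sub_self] at hF
  have h3 : I * ((∫ θ in (0:ℝ)..(2 * π), h1 f (pt t θ) * ch (-n) θ) -
      n * ∫ θ in (0:ℝ)..(2 * π), h0 f (pt t θ) * ch (-n) θ) = 0 := by
    rw [mul_sub]; exact hF
  have h4 := (mul_eq_zero.1 h3).resolve_left Complex.I_ne_zero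
  exact sub_eq_zero.1 h4

/-- series for the area -/
lemma ar_series {f : ℂ → ℂ} (hf : DifferentiableOn ℂ f (Metric.ball 0 1)) {a : ℕ → ℂ} {R : ℝ}
    (hps : PS f a R) {t : ℝ} (ht : t < 0) (htR : Real.exp t < R) :
    HasSum (fun n : ℕ => (n * (conj (a n) * a n)) * ((Real.exp t ^ 2 : ℝ) : ℂ) ^ n) (ar f t : ℂ) := by
  have H := mkHP hf
  have c0 := comp_pt' H.c0 ht
  have c1 := comp_pt' H.c1 ht
  have h1' := hps.prodconj htR c1
  have h2 : (fun n : ℕ => conj (a n) * (Real.exp t : ℂ) ^ n *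
        ∫ θ in (0:ℝ)..(2 * π), h1 f (pt t θ) * ch (-n) θ) =
      fun n : ℕ => (2 * π : ℂ) * ((n * (conj (a n) * a n)) * ((Real.exp t ^ 2 : ℝ) : ℂ) ^ n) := by
    funext n
    rw [int_h1_ch hf ht]
    have := hps.coef htR n
    simp only [h0]
    rw [this]
    push_cast
    rw [← pow_mul, mul_comm 2 n, pow_mul]
    ring
  rw [h2] at h1'
  -- identify the sum
  have hre : (∫ θ in (0:ℝ)..(2 * π), h1 f (pt t θ) * conj (f (Complex.exp (pt t θ)))).re
      = 2 * π * ar f t := by
    have hc : Continuous (fun θ : ℝ => h1 f (pt t θ) * conj (f (Complex.exp (pt t θ)))) :=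
      c1.mul (Complex.continuous_conj.comp c0)
    have k := intervalIntegral.intervalIntegral_re (μ := volume) (a := 0) (b := 2 * π)
      (f := fun θ : ℝ => h1 f (pt t θ) * conj (f (Complex.exp (pt t θ)))) (hc.intervalIntegrable _ _)
    have k2 : RCLike.re (∫ θ in (0:ℝ)..(2 * π), h1 f (pt t θ) * conj (f (Complex.exp (pt t θ))))
      = (∫ θ in (0:ℝ)..(2 * π), h1 f (pt t θ) * conj (f (Complex.exp (pt t θ)))).re := rfl
    rw [← k2, ← k]
    have e : ar f t = (1 / (2 * π)) * ∫ θ in (0:ℝ)..(2 * π),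
      (conj (h0 f (pt t θ)) * h1 f (pt t θ)).re := rfl
    rw [e]
    have e2 : ∫ θ in (0:ℝ)..(2 * π), RCLike.re (h1 f (pt t θ) * conj (f (Complex.exp (pt t θ)))) =
        ∫ θ in (0:ℝ)..(2 * π), (conj (h0 f (pt t θ)) * h1 f (pt t θ)).re := by
      apply intervalIntegral.integral_congr
      intro θ _
      show (h1 f (pt t θ) * conj (f (Complex.exp (pt t θ)))).re = _
      rw [mul_comm]; rfl
    rw [e2]
    field_simp
  have him : (∫ θ in (0:ℝ)..(2 * π), h1 f (pt t θ) * conj (f (Complex.exp (pt t θ)))).im = 0 := by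
    have k := Complex.hasSum_im h1'
    have k2 : ∀ n : ℕ, ((2 * π : ℂ) * ((n * (conj (a n) * a n)) *
        ((Real.exp t ^ 2 : ℝ) : ℂ) ^ n)).im = 0 := by
      intro n
      have : (2 * π : ℂ) * ((n * (conj (a n) * a n)) * ((Real.exp t ^ 2 : ℝ) : ℂ) ^ n) =
          ((2 * π * (n * ‖a n‖ ^ 2 * (Real.exp t ^ 2) ^ n) : ℝ) : ℂ) := by
        rw [Complex.conj_mul']; push_cast; ring
      rw [this, Complex.ofReal_im]
    simp only [k2] at k
    exact k.unique hasSum_zero
  have hval : (∫ θ in (0:ℝ)..(2 * π), h1 f (pt t θ) * conj (f (Complex.exp (pt t θ)))) =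
      (2 * π : ℂ) * (ar f t : ℂ) := by
    apply Complex.ext
    · rw [hre]; simp
    · rw [him]; simp
  rw [hval] at h1'
  have hpi : (2 * π : ℂ) ≠ 0 := by
    have : (2 * π : ℝ) ≠ 0 := by positivity
    exact_mod_cast this
  have h5 := h1'.mul_left ((2 * π : ℂ)⁻¹)
  simpa only [inv_mul_cancel_left₀ hpi] using h5

/-- the equality case on one circle -/
lemma circle_eq {f : ℂ → ℂ} (hf : DifferentiableOn ℂ f (Metric.ball 0 1))
    (hpos : ∀ t < 0, 0 < ar f t) {C : ℝ} (hconst : ∀ t < 0, ph f t = C)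
    {t : ℝ} (ht : t < 0) {δ : ℝ} (hδ : 0 < δ) (hδ1 : ∀ θ, δ ≤ ‖h1 f (pt t θ)‖ ^ 2) :
    ∃ K : ℝ, ∀ θ ∈ Icc 0 (2 * π),
      Real.exp (‖h0 f (pt t θ)‖ ^ 2 / ar f t) * ‖h0 f (pt t θ)‖ ^ 2 = K * ‖h1 f (pt t θ)‖ ^ 2 := by
  have H := mkHP hf
  have hd := H.Phi_deriv hpos ht
  have hd0 : HasDerivAt (Phi (h0 f) (h1 f)) 0 t := by
    have : Phi (h0 f) (h1 f) =ᶠ[𝓝 t] fun _ => C := by
      filter_upwards [Iio_mem_nhds ht] with s hs
      exact hconst s hs
    exact (hasDerivAt_const t C).congr_of_eventuallyEq this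
  have huniq := hd.unique hd0
  set A := ar f t with hA
  have hA0 : 0 < A := hpos t ht
  have hAA : area (h0 f) (h1 f) t = A := rfl
  rw [hAA] at huniq
  have h3 := (mul_eq_zero.1 huniq).resolve_left (by positivity)
  have e1 : pt t (2 * π) = pt t 0 + 2 * π * I := by
    have := pt_per t 0; rwa [zero_add] at this
  refine key_eq (u := fun θ => h0 f (pt t θ)) (u1 := fun θ => h1 f (pt t θ)) (A := A)
    (fun θ => H.dθ ht θ) (comp_pt' H.c1 ht) (by
      simp only [e1]; rw [H.per _ (by rwa [pt_re])]) hA0 (by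
      rw [hA]; unfold ar area; field_simp) hδ hδ1 ?_
  unfold area' at h3
  have h4 : π * (2 * A * (∫ θ in (0:ℝ)..(2 * π), Real.exp (‖h0 f (pt t θ)‖ ^ 2 / A) *
        (conj (h0 f (pt t θ)) * h1 f (pt t θ)).re)) =
      (∫ θ in (0:ℝ)..(2 * π), ‖h1 f (pt t θ)‖ ^ 2) * (∫ θ in (0:ℝ)..(2 * π),
        ‖h0 f (pt t θ)‖ ^ 2 * Real.exp (‖h0 f (pt t θ)‖ ^ 2 / A)) := by
    have h5 := sub_eq_zero.1 h3
    rw [h5]
    field_simp
  rw [← h4]
  apply le_of_eq
  ring

theorem rigid {f : ℂ → ℂ} (hf : DifferentiableOn ℂ f (Metric.ball 0 1)) (hf0 : f 0 = 0)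
    {g : ℂ → ℂ} (hg : AnalyticAt ℂ g 0) (hg0 : g 0 ≠ 0)
    (hfg : ∀ᶠ z in 𝓝 (0:ℂ), f z = z ^ 1 * g z)
    (hfg1 : ∀ᶠ z in 𝓝 (0:ℂ), z * deriv f z = z ^ 1 * ((1:ℕ) * g z + z * deriv g z))
    (hpos : ∀ t < 0, 0 < ar f t) {C : ℝ} (hconst : ∀ t < 0, ph f t = C) :
    ∀ z ∈ Metric.ball (0:ℂ) 1, f z = g 0 * z := by
  have H := mkHP hf
  have hfa : AnalyticAt ℂ f 0 := hf.analyticAt (Metric.isOpen_ball.mem_nhds (by simp))
  set G : ℂ → ℂ := fun z => g z + z * deriv g z with hG
  have hGa : AnalyticAt ℂ G 0 := hg.add (analyticAt_id.mul hg.deriv)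
  have hG0 : G 0 = g 0 := by simp [hG]
  set q : ℂ → ℂ := fun z => G z / g z with hq
  have hqa : AnalyticAt ℂ q 0 := hGa.div hg hg0
  have hq0 : q 0 = 1 := by simp only [hq, hG0]; exact div_self hg0
  set Q : ℂ → ℂ := fun z => Complex.log (q z) with hQ
  have hQa : AnalyticAt ℂ Q 0 := hqa.clog (by rw [hq0]; exact Complex.one_mem_slitPlane)
  obtain ⟨a, Ra, ha⟩ := exists_PS hfa
  obtain ⟨c, Rc, hc⟩ := exists_PS hQa
  -- small radius
  have hne : ∀ᶠ z in 𝓝 (0:ℂ), g z ≠ 0 := hg.continuousAt.eventually_ne hg0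
  have hneG : ∀ᶠ z in 𝓝 (0:ℂ), ‖g 0‖ / 2 < ‖G z‖ := by
    refine (hGa.continuousAt.norm).eventually_const_lt ?_
    show ‖g 0‖ / 2 < ‖G 0‖
    rw [hG0]
    have := norm_pos_iff.2 hg0
    linarith
  have hall := (hne.and hneG).and (hfg.and hfg1)
  rw [Metric.eventually_nhds_iff_ball] at hall
  obtain ⟨r, hr, hball⟩ := hall
  set ρ := min (min r (1/2)) (min Ra Rc) with hρ
  have hρ0 : 0 < ρ := lt_min (lt_min hr (by norm_num)) (lt_min ha.pos hc.pos)
  have key : ∀ t : ℝ, Real.exp t < ρ → ∀ l : ℕ, 1 ≤ l →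
      HasSum (fun n : ℕ => (conj (a n) * a (n + l)) * ((Real.exp t ^ 2 : ℝ) : ℂ) ^ n)
        (c l * (ar f t : ℂ)) := by
    intro t htρ l hl
    have ht1 : Real.exp t < 1/2 := htρ.trans_le ((min_le_left _ _).trans (min_le_right _ _))
    have ht0 : t < 0 := Real.exp_lt_one_iff.1 (by linarith)
    have htr : Real.exp t < r := htρ.trans_le ((min_le_left _ _).trans (min_le_left _ _))
    have hta : Real.exp t < Ra := htρ.trans_le ((min_le_right _ _).trans (min_le_left _ _))
    have htc : Real.exp t < Rc := htρ.trans_le ((min_le_right _ _).trans (min_le_right _ _))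
    have hmem : ∀ θ, Complex.exp (pt t θ) ∈ Metric.ball (0:ℂ) r := by
      intro θ; rw [mem_ball_zero_iff, norm_exp_pt]; exact htr
    have hA := hpos t ht0
    have hh0 : ∀ θ, h0 f (pt t θ) = Complex.exp (pt t θ) * g (Complex.exp (pt t θ)) := by
      intro θ
      have := (hball _ (hmem θ)).2.1
      simpa [h0] using this
    have hh1 : ∀ θ, h1 f (pt t θ) = Complex.exp (pt t θ) * G (Complex.exp (pt t θ)) := by
      intro θ
      have := (hball _ (hmem θ)).2.2
      simpa [h1, hG] using this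
    have hgpos : 0 < ‖g 0‖ := norm_pos_iff.2 hg0
    obtain ⟨K, hK⟩ := circle_eq hf hpos hconst ht0 (δ := (Real.exp t * (‖g 0‖ / 2)) ^ 2)
      (by positivity) (by
        intro θ
        rw [hh1, norm_mul, norm_exp_pt]
        have := (hball _ (hmem θ)).1.2
        gcongr)
    -- pointwise identity
    have hpt : ∀ θ ∈ Icc 0 (2 * π), ‖h0 f (pt t θ)‖ ^ 2 =
        ar f t * (Real.log K + 2 * (Q (Complex.exp (pt t θ))).re) := by
      intro θ hθ
      have k1 := hK θ hθ
      have hg1 : g (Complex.exp (pt t θ)) ≠ 0 := (hball _ (hmem θ)).1.1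
      have hG1 : 0 < ‖G (Complex.exp (pt t θ))‖ := by
        have := (hball _ (hmem θ)).1.2
        linarith
      have hgn : 0 < ‖g (Complex.exp (pt t θ))‖ := norm_pos_iff.2 hg1
      have hez : 0 < Real.exp t := Real.exp_pos t
      set E := Real.exp (‖h0 f (pt t θ)‖ ^ 2 / ar f t) with hE
      have hEpos : 0 < E := Real.exp_pos _
      have k2 : E * (Real.exp t ^ 2 * ‖g (Complex.exp (pt t θ))‖ ^ 2) =
          K * (Real.exp t ^ 2 * ‖G (Complex.exp (pt t θ))‖ ^ 2) := by
        have e1 : ‖h0 f (pt t θ)‖ ^ 2 = Real.exp t ^ 2 * ‖g (Complex.exp (pt t θ))‖ ^ 2 := by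
          rw [hh0, norm_mul, norm_exp_pt, mul_pow]
        have e2 : ‖h1 f (pt t θ)‖ ^ 2 = Real.exp t ^ 2 * ‖G (Complex.exp (pt t θ))‖ ^ 2 := by
          rw [hh1, norm_mul, norm_exp_pt, mul_pow]
        rw [← e1, ← e2]; exact k1
      have hKpos : 0 < K := by
        by_contra hcon
        push Not at hcon
        have : K * (Real.exp t ^ 2 * ‖G (Complex.exp (pt t θ))‖ ^ 2) ≤ 0 :=
          mul_nonpos_of_nonpos_of_nonneg hcon (by positivity)
        have h7 : 0 < E * (Real.exp t ^ 2 * ‖g (Complex.exp (pt t θ))‖ ^ 2) := by positivity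
        linarith
      have k3 : E = K * (‖G (Complex.exp (pt t θ))‖ / ‖g (Complex.exp (pt t θ))‖) ^ 2 := by
        have h8 : Real.exp t ^ 2 * (E * ‖g (Complex.exp (pt t θ))‖ ^ 2) =
          Real.exp t ^ 2 * (K * ‖G (Complex.exp (pt t θ))‖ ^ 2) := by linarith
        have h9 := mul_left_cancel₀ (by positivity) h8
        rw [div_pow]
        field_simp
        linarith
      have k4 : ‖h0 f (pt t θ)‖ ^ 2 / ar f t = Real.log K +
          2 * Real.log (‖G (Complex.exp (pt t θ))‖ / ‖g (Complex.exp (pt t θ))‖) := by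
        have : Real.log E = ‖h0 f (pt t θ)‖ ^ 2 / ar f t := by rw [hE, Real.log_exp]
        rw [← this, k3, Real.log_mul hKpos.ne' (by positivity), Real.log_pow]
        push_cast; ring
      have k5 : (Q (Complex.exp (pt t θ))).re =
          Real.log (‖G (Complex.exp (pt t θ))‖ / ‖g (Complex.exp (pt t θ))‖) := by
        simp only [hQ, hq, Complex.log_re, norm_div]
      rw [k5, ← k4]
      field_simp
    -- integrate against the character
    have c0 := comp_pt' H.c0 ht0
    have hF : Continuous (fun θ : ℝ => h0 f (pt t θ) * ch (-l) θ) := c0.mul (continuous_ch _)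
    have s1 := ha.prodconj hta hF
    have s2 : (fun n : ℕ => conj (a n) * (Real.exp t : ℂ) ^ n *
        ∫ θ in (0:ℝ)..(2 * π), h0 f (pt t θ) * ch (-l) θ * ch (-n) θ) =
        fun n : ℕ => (2 * π * (Real.exp t : ℂ) ^ l) *
          ((conj (a n) * a (n + l)) * ((Real.exp t ^ 2 : ℝ) : ℂ) ^ n) := by
      funext n
      have e1 : ∀ θ, h0 f (pt t θ) * ch (-l) θ * ch (-n) θ =
          f (Complex.exp (pt t θ)) * ch (-((n + l : ℕ) : ℤ)) θ := by
        intro θ
        rw [mul_assoc, ch_mul]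
        congr 2
        push_cast; ring
      simp only [e1]
      rw [ha.coef hta (n + l)]
      push_cast
      rw [← pow_mul, mul_comm 2 n, pow_mul]
      ring
    rw [s2] at s1
    have s3 : ∫ θ in (0:ℝ)..(2 * π), h0 f (pt t θ) * ch (-l) θ * conj (f (Complex.exp (pt t θ))) =
        (2 * π * (Real.exp t : ℂ) ^ l) * (c l * (ar f t : ℂ)) := by
      have e1 : ∫ θ in (0:ℝ)..(2 * π), h0 f (pt t θ) * ch (-l) θ * conj (f (Complex.exp (pt t θ))) =
          ∫ θ in (0:ℝ)..(2 * π), (ar f t : ℂ) * ((Real.log K : ℂ) * ch (-l) θ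
            + Q (Complex.exp (pt t θ)) * ch (-l) θ + conj (Q (Complex.exp (pt t θ))) * ch (-l) θ) := by
        apply intervalIntegral.integral_congr
        intro θ hθ
        rw [uIcc_of_le (by positivity)] at hθ
        have k1 := hpt θ hθ
        simp only
        have k2 : h0 f (pt t θ) * conj (f (Complex.exp (pt t θ))) = ((‖h0 f (pt t θ)‖ ^ 2 : ℝ) : ℂ) := by
          show h0 f (pt t θ) * conj (h0 f (pt t θ)) = _
          rw [Complex.mul_conj']; push_cast; rfl
        have k3 : Q (Complex.exp (pt t θ)) + conj (Q (Complex.exp (pt t θ))) =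
            ((2 * (Q (Complex.exp (pt t θ))).re : ℝ) : ℂ) := by
          rw [Complex.add_conj]
        calc h0 f (pt t θ) * ch (-l) θ * conj (f (Complex.exp (pt t θ)))
            = (h0 f (pt t θ) * conj (f (Complex.exp (pt t θ)))) * ch (-l) θ := by ring
          _ = ((ar f t * (Real.log K + 2 * (Q (Complex.exp (pt t θ))).re) : ℝ) : ℂ) * ch (-l) θ := by
              rw [k2, k1]
          _ = (ar f t : ℂ) * ((Real.log K : ℂ) + (Q (Complex.exp (pt t θ)) +
              conj (Q (Complex.exp (pt t θ))))) * ch (-l) θ := by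
              rw [k3]; push_cast; ring
          _ = _ := by ring
      have cQ : Continuous (fun θ : ℝ => Q (Complex.exp (pt t θ))) := by
        rw [continuous_iff_continuousAt]
        intro θ
        have hz := hball _ (hmem θ)
        -- analytic at the point via the power series
        have hcont : ContinuousOn Q (Metric.ball 0 Rc) := by
          have hps : HasFPowerSeriesOnBall Q (FormalMultilinearSeries.ofScalars ℂ c) 0
              (ENNReal.ofReal Rc) := by
            have hrad : ENNReal.ofReal Rc ≤ (FormalMultilinearSeries.ofScalars ℂ c :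
                FormalMultilinearSeries ℂ ℂ ℂ).radius := by
              apply ENNReal.le_of_forall_nnreal_lt
              intro x hx
              apply FormalMultilinearSeries.le_radius_of_summable_norm
              have hx' : (x:ℝ) < Rc := by
                have := ENNReal.toReal_lt_of_lt_ofReal hx
                simpa using this
              have h9 := (hc.hs (x:ℂ) (by simpa using hx')).summable.norm
              simpa [FormalMultilinearSeries.ofScalars_norm] using h9
            refine ⟨hrad, ENNReal.ofReal_pos.2 hc.pos, ?_⟩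
            intro y hy
            rw [Metric.mem_eball, edist_zero_right, ← ofReal_norm] at hy
            have hy' : ‖y‖ < Rc := (ENNReal.ofReal_lt_ofReal_iff hc.pos).1 hy
            have h9 := hc.hs y hy'
            simpa [FormalMultilinearSeries.ofScalars_apply_eq, mul_comm] using h9
          have := hps.continuousOn
          rwa [Metric.eball_ofReal] at this
        have h8 : ContinuousAt Q (Complex.exp (pt t θ)) :=
          hcont.continuousAt (Metric.isOpen_ball.mem_nhds (by
            rw [mem_ball_zero_iff, norm_exp_pt]; exact htc))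
        exact h8.comp (f := fun θ : ℝ => Complex.exp (pt t θ))
          (by unfold pt; fun_prop : Continuous (fun θ : ℝ => Complex.exp (pt t θ))).continuousAt
      have cch := continuous_ch (-l)
      have d1 : Continuous (fun θ : ℝ => (Real.log K : ℂ) * ch (-l) θ) := continuous_const.mul cch
      have d2 : Continuous (fun θ : ℝ => Q (Complex.exp (pt t θ)) * ch (-l) θ) := cQ.mul cch
      have d3 : Continuous (fun θ : ℝ => conj (Q (Complex.exp (pt t θ))) * ch (-l) θ) :=
        (Complex.continuous_conj.comp cQ).mul cch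
      have d12 : Continuous (fun θ : ℝ => (Real.log K : ℂ) * ch (-l) θ +
        Q (Complex.exp (pt t θ)) * ch (-l) θ) := d1.add d2
      rw [e1, intervalIntegral.integral_const_mul,
        intervalIntegral.integral_add (d12.intervalIntegrable _ _) (d3.intervalIntegrable _ _),
        intervalIntegral.integral_add (d1.intervalIntegrable _ _) (d2.intervalIntegrable _ _),
        intervalIntegral.integral_const_mul, integral_ch, hc.coef htc l, hc.coefconj htc hl,
        if_neg (by omega)]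
      ring
    rw [s3] at s1
    have hne1 : (2 * π * (Real.exp t : ℂ) ^ l) ≠ 0 := by
      have : (2 * π * Real.exp t ^ l : ℝ) ≠ 0 := by positivity
      exact_mod_cast this
    have s4 := s1.mul_left ((2 * π * (Real.exp t : ℂ) ^ l)⁻¹)
    simpa only [inv_mul_cancel_left₀ hne1] using s4
  -- coefficient relations
  have hrel : ∀ l, 1 ≤ l → ∀ n, conj (a n) * a (n + l) = c l * (n * (conj (a n) * a n)) := by
    intro l hl
    have hz := coeff_zero (c := fun n => conj (a n) * a (n + l) - c l * (n * (conj (a n) * a n)))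
      (δ := ρ ^ 2) (by positivity) ?_
    · intro n
      exact sub_eq_zero.1 (hz n)
    · intro x hx0 hx
      set t := Real.log (Real.sqrt x) with ht
      have hsx : 0 < Real.sqrt x := Real.sqrt_pos.2 hx0
      have het : Real.exp t = Real.sqrt x := Real.exp_log hsx
      have hex : Real.exp t ^ 2 = x := by rw [het, Real.sq_sqrt hx0.le]
      have htρ : Real.exp t < ρ := by
        rw [het]
        calc Real.sqrt x < Real.sqrt (ρ ^ 2) := Real.sqrt_lt_sqrt hx0.le hx
          _ = ρ := Real.sqrt_sq hρ0.le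
      have ht1 : Real.exp t < 1/2 := htρ.trans_le ((min_le_left _ _).trans (min_le_right _ _))
      have ht0 : t < 0 := Real.exp_lt_one_iff.1 (by linarith)
      have hta : Real.exp t < Ra := htρ.trans_le ((min_le_right _ _).trans (min_le_left _ _))
      have k1 := key t htρ l hl
      have k2 := (ar_series hf ha ht0 hta).mul_left (c l)
      have k3 := k1.sub k2
      rw [hex, sub_self] at k3
      have k4 : (fun n : ℕ => (conj (a n) * a (n + l) - c l * (n * (conj (a n) * a n))) * (x:ℂ) ^ n) =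
          fun n : ℕ => (conj (a n) * a (n + l)) * (x:ℂ) ^ n -
            c l * ((n * (conj (a n) * a n)) * (x:ℂ) ^ n) := by
        funext n; ring
      rw [k4]
      exact k3
  have ha0 : a 0 = 0 := by
    have := ha.hs 0 (by simpa using ha.pos)
    have h2 : (fun n => a n * (0:ℂ) ^ n) = fun n => if n = 0 then a 0 else 0 := by
      funext n
      rcases Nat.eq_zero_or_pos n with h | h
      · subst h; simp
      · rw [zero_pow h.ne', mul_zero, if_neg h.ne']
    rw [h2] at this
    rw [← hf0]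
    exact ((hasSum_ite_eq 0 (a 0)).unique this)
  -- `a 1 = g 0`
  have hd0 : deriv f 0 = g 0 := by
    have hev : f =ᶠ[𝓝 0] fun z => z ^ 1 * g z := hfg
    rw [hev.deriv_eq]
    have : HasDerivAt (fun z : ℂ => z ^ 1 * g z) (((1:ℕ):ℂ) * (0:ℂ) ^ (1 - 1) * g 0 + (0:ℂ) ^ 1 * deriv g 0) 0 :=
      (hasDerivAt_pow 1 0).mul hg.differentiableAt.hasDerivAt
    rw [this.deriv]; simp
  have ha1 : a 1 = g 0 := by
    rw [← hd0]
    have hps : HasFPowerSeriesAt f (FormalMultilinearSeries.ofScalars ℂ a) 0 := by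
      rw [hasFPowerSeriesAt_iff, Metric.eventually_nhds_iff_ball]
      refine ⟨Ra, ha.pos, fun z hz => ?_⟩
      rw [mem_ball_zero_iff] at hz
      have := ha.hs z hz
      simp only [zero_add, smul_eq_mul, FormalMultilinearSeries.coeff_ofScalars]
      simpa [mul_comm] using this
    have h3 := hps.hasDerivAt
    rw [h3.deriv, FormalMultilinearSeries.ofScalars_apply_eq]
    simp
  have hlin := coeff_algebra (a := a) (q := c) (by rw [ha1]; exact hg0) hrel
  have hev : ∀ᶠ z in 𝓝 (0:ℂ), f z - g 0 * z = 0 := by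
    rw [Metric.eventually_nhds_iff_ball]
    refine ⟨Ra, ha.pos, fun z hz => ?_⟩
    rw [mem_ball_zero_iff] at hz
    have h1 := ha.hs z hz
    have h2 : (fun n => a n * z ^ n) = fun n => if n = 1 then a 1 * z else 0 := by
      funext n
      rcases lt_trichotomy n 1 with h | h | h
      · have : n = 0 := by omega
        subst this; simp [ha0]
      · subst h; simp
      · rw [hlin n (by omega), zero_mul, if_neg (by omega)]
    rw [h2] at h1
    have h3 := h1.unique (hasSum_ite_eq 1 (a 1 * z))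
    rw [h3, ha1, sub_self]
  have hD : DifferentiableOn ℂ (fun z => f z - g 0 * z) (Metric.ball 0 1) :=
    hf.sub ((differentiable_const _).mul differentiable_id).differentiableOn
  intro z hz
  exact sub_eq_zero.1 (eq_zero_of_ev hD hev z hz)

end Pool.Agent.Helper793.CM
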