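import Pool.Agent.Helper793.CM.Fatou

set_option autoImplicit false

open MeasureTheory Set Real Complex Filter Topology
open scoped ENNReal NNReal ComplexConjugate

namespace Pool.Agent.Helper793.CM

/-- `φ(z) = ∑ c_n z^n` for `|z| < R`. -/
structure PS (φ : ℂ → ℂ) (c : ℕ → ℂ) (R : ℝ) : Prop where
  pos : 0 < R
  hs : ∀ z : ℂ, ‖z‖ < R → HasSum (fun n => c n * z ^ n) (φ z)

lemma exists_PS {φ : ℂ → ℂ} (h : AnalyticAt ℂ φ 0) : ∃ c R, PS φ c R := by
  obtain ⟨p, hp⟩ := h
  have := hasFPowerSeriesAt_iff.1 hp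
  rw [Metric.eventually_nhds_iff_ball] at this
  obtain ⟨R, hR, hh⟩ := this
  refine ⟨p.coeff, R, hR, fun z hz => ?_⟩
  have := hh z (by rwa [mem_ball_zero_iff])
  simp only [zero_add, smul_eq_mul] at this
  simpa [mul_comm] using this

/-- the character `e^{ijθ}` -/
noncomputable def ch (j : ℤ) (θ : ℝ) : ℂ := Complex.exp (j * θ * I)

lemma continuous_ch (j : ℤ) : Continuous (ch j) := by unfold ch; fun_prop

lemma ch_mul (i j : ℤ) (θ : ℝ) : ch i θ * ch j θ = ch (i + j) θ := by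
  unfold ch; rw [← Complex.exp_add]; push_cast; congr 1; ring

lemma norm_ch (j : ℤ) (θ : ℝ) : ‖ch j θ‖ = 1 := by
  unfold ch
  have : ((j:ℂ) * (θ:ℂ) * I) = ((j * θ : ℝ) : ℂ) * I := by push_cast; ring
  rw [this]; exact Complex.norm_exp_ofReal_mul_I _

lemma conj_ch (j : ℤ) (θ : ℝ) : conj (ch j θ) = ch (-j) θ := by
  unfold ch
  rw [← Complex.exp_conj]
  congr 1
  simp only [map_mul, Complex.conj_ofReal, Complex.conj_I, map_intCast]
  push_cast; ring

lemma integral_ch (j : ℤ) : ∫ θ in (0:ℝ)..(2 * π), ch j θ = if j = 0 then (2 * (π:ℂ)) else (0:ℂ) := by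
  split_ifs with h
  · subst h
    simp [ch]
  · have hc : ((j:ℂ) * I) ≠ 0 := mul_ne_zero (by exact_mod_cast h) Complex.I_ne_zero
    have e : ∀ θ : ℝ, ch j θ = Complex.exp (((j:ℂ) * I) * θ) := by
      intro θ; unfold ch; congr 1; ring
    simp only [e]
    rw [integral_exp_mul_complex hc]
    have : Complex.exp ((j:ℂ) * I * ((2 * π : ℝ) : ℂ)) = 1 := by
      rw [Complex.exp_eq_one_iff]
      exact ⟨j, by push_cast; ring⟩
    rw [this]
    simp

lemma exp_pt_pow (t θ : ℝ) (n : ℕ) : Complex.exp (pt t θ) ^ n = (Real.exp t : ℂ) ^ n * ch n θ := by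
  have : Complex.exp (pt t θ) = (Real.exp t : ℂ) * ch 1 θ := by
    unfold pt ch
    rw [Complex.exp_add, Complex.ofReal_exp]
    push_cast; rw [one_mul]
  rw [this, mul_pow]
  congr 1
  unfold ch
  rw [← Complex.exp_nat_mul]
  congr 1; push_cast; ring

lemma termwise {F G : ℝ → ℂ} {d : ℕ → ℝ → ℂ} {B : ℕ → ℝ} (hF : Continuous F)
    (hd : ∀ n, Continuous (d n)) (hB : ∀ n θ, ‖d n θ‖ ≤ B n) (hBs : Summable B)
    (hG : ∀ θ, HasSum (fun n => d n θ) (G θ)) :
    HasSum (fun n => ∫ θ in (0:ℝ)..(2 * π), F θ * d n θ) (∫ θ in (0:ℝ)..(2 * π), F θ * G θ) := by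
  obtain ⟨M, hM⟩ := (isCompact_Icc (a := (0:ℝ)) (b := 2 * π)).exists_bound_of_continuousOn
    hF.continuousOn
  have hpi : (0:ℝ) ≤ 2 * π := by positivity
  have hM0 : 0 ≤ M := (norm_nonneg _).trans (hM 0 ⟨le_rfl, hpi⟩)
  refine intervalIntegral.hasSum_integral_of_dominated_convergence (fun n _ => M * B n)
    (fun n => (hF.mul (hd n)).aestronglyMeasurable) ?_ ?_ ?_ ?_
  · intro n
    refine ae_of_all _ fun θ hθ => ?_
    rw [uIoc_of_le hpi] at hθ
    rw [norm_mul]
    exact mul_le_mul (hM θ ⟨hθ.1.le, hθ.2⟩) (hB n θ) (norm_nonneg _) hM0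
  · exact ae_of_all _ fun θ _ => hBs.mul_left M
  · exact continuous_const.intervalIntegrable _ _
  · exact ae_of_all _ fun θ _ => (hG θ).mul_left (F θ)

lemma PS.bound {φ : ℂ → ℂ} {c : ℕ → ℂ} {R : ℝ} (h : PS φ c R) {t : ℝ} (ht : Real.exp t < R) :
    Summable (fun n => ‖c n‖ * Real.exp t ^ n) := by
  have h1 := (h.hs (Real.exp t : ℂ) (by
    rw [Complex.norm_real, Real.norm_eq_abs, abs_of_pos (Real.exp_pos t)]; exact ht)).summable.norm
  simpa [norm_mul, norm_pow, Complex.norm_real, abs_of_pos (Real.exp_pos t)] using h1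

lemma PS.prod {φ : ℂ → ℂ} {c : ℕ → ℂ} {R : ℝ} (h : PS φ c R) {t : ℝ} (ht : Real.exp t < R)
    {F : ℝ → ℂ} (hF : Continuous F) :
    HasSum (fun n : ℕ => c n * (Real.exp t : ℂ) ^ n * ∫ θ in (0:ℝ)..(2 * π), F θ * ch n θ)
      (∫ θ in (0:ℝ)..(2 * π), F θ * φ (Complex.exp (pt t θ))) := by
  have h1 := termwise (F := F) (G := fun θ => φ (Complex.exp (pt t θ)))
    (d := fun n θ => c n * (Real.exp t : ℂ) ^ n * ch n θ)
    (B := fun n => ‖c n‖ * Real.exp t ^ n) hF
    (fun n => continuous_const.mul (continuous_ch _)) ?_ (h.bound ht) ?_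
  · convert h1 using 2 with n
    rw [← intervalIntegral.integral_const_mul]
    apply intervalIntegral.integral_congr
    intro θ _
    simp only; ring
  · intro n θ
    rw [norm_mul, norm_mul, norm_pow, norm_ch, mul_one, Complex.norm_real, Real.norm_eq_abs,
      abs_of_pos (Real.exp_pos t)]
  · intro θ
    have := h.hs (Complex.exp (pt t θ)) (by rw [norm_exp_pt]; exact ht)
    simpa only [exp_pt_pow, mul_assoc] using this

lemma PS.prodconj {φ : ℂ → ℂ} {c : ℕ → ℂ} {R : ℝ} (h : PS φ c R) {t : ℝ} (ht : Real.exp t < R)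
    {F : ℝ → ℂ} (hF : Continuous F) :
    HasSum (fun n : ℕ => conj (c n) * (Real.exp t : ℂ) ^ n *
        ∫ θ in (0:ℝ)..(2 * π), F θ * ch (-n) θ)
      (∫ θ in (0:ℝ)..(2 * π), F θ * conj (φ (Complex.exp (pt t θ)))) := by
  have h1 := termwise (F := F) (G := fun θ => conj (φ (Complex.exp (pt t θ))))
    (d := fun n θ => conj (c n) * (Real.exp t : ℂ) ^ n * ch (-n) θ)
    (B := fun n => ‖c n‖ * Real.exp t ^ n) hF
    (fun n => continuous_const.mul (continuous_ch _)) ?_ (h.bound ht) ?_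
  · convert h1 using 2 with n
    rw [← intervalIntegral.integral_const_mul]
    apply intervalIntegral.integral_congr
    intro θ _
    simp only; ring
  · intro n θ
    rw [norm_mul, norm_mul, norm_pow, norm_ch, mul_one, Complex.norm_real, Real.norm_eq_abs,
      abs_of_pos (Real.exp_pos t), RCLike.norm_conj]
  · intro θ
    have h2 := h.hs (Complex.exp (pt t θ)) (by rw [norm_exp_pt]; exact ht)
    have h3 : HasSum (fun n => conj (c n * Complex.exp (pt t θ) ^ n))
      (conj (φ (Complex.exp (pt t θ)))) := Complex.hasSum_conj'.2 (by simpa using h2)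
    convert h3 using 2 with n
    rw [exp_pt_pow, map_mul, map_mul, map_pow, Complex.conj_ofReal, conj_ch, mul_assoc]

lemma PS.coef {φ : ℂ → ℂ} {c : ℕ → ℂ} {R : ℝ} (h : PS φ c R) {t : ℝ} (ht : Real.exp t < R)
    (m : ℕ) : ∫ θ in (0:ℝ)..(2 * π), φ (Complex.exp (pt t θ)) * ch (-m) θ =
      2 * π * (c m * (Real.exp t : ℂ) ^ m) := by
  have h1 := h.prod ht (continuous_ch (-m))
  have h2 : (fun n : ℕ => c n * (Real.exp t : ℂ) ^ n * ∫ θ in (0:ℝ)..(2 * π), ch (-m) θ * ch n θ) =
      fun n : ℕ => if n = m then 2 * π * (c m * (Real.exp t : ℂ) ^ m) else 0 := by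
    funext n
    simp only [ch_mul]
    rw [integral_ch]
    by_cases hn : n = m
    · subst hn; simp; ring
    · have : (-(m:ℤ) + n) ≠ 0 := by omega
      rw [if_neg this, if_neg hn, mul_zero]
  rw [h2] at h1
  have h3 := hasSum_ite_eq m (2 * π * (c m * (Real.exp t : ℂ) ^ m))
  have h4 := h1.unique h3
  rw [← h4]
  apply intervalIntegral.integral_congr
  intro θ _
  simp only; ring

lemma PS.coefconj {φ : ℂ → ℂ} {c : ℕ → ℂ} {R : ℝ} (h : PS φ c R) {t : ℝ} (ht : Real.exp t < R)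
    {m : ℕ} (hm : 1 ≤ m) :
    ∫ θ in (0:ℝ)..(2 * π), conj (φ (Complex.exp (pt t θ))) * ch (-m) θ = 0 := by
  have h1 := h.prodconj ht (continuous_ch (-m))
  have h2 : (fun n : ℕ => conj (c n) * (Real.exp t : ℂ) ^ n *
      ∫ θ in (0:ℝ)..(2 * π), ch (-m) θ * ch (-n) θ) = fun n : ℕ => 0 := by
    funext n
    simp only [ch_mul]
    rw [integral_ch]
    have : (-(m:ℤ) + -n) ≠ 0 := by omega
    rw [if_neg this, mul_zero]
  rw [h2] at h1
  have h4 := h1.unique hasSum_zero
  rw [← h4]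
  apply intervalIntegral.integral_congr
  intro θ _
  simp only; ring

/-- uniqueness of coefficients from small positive reals -/
lemma coeff_zero {c : ℕ → ℂ} {δ : ℝ} (hδ : 0 < δ)
    (h : ∀ x : ℝ, 0 < x → x < δ → HasSum (fun n => c n * (x:ℂ) ^ n) 0) : ∀ n, c n = 0 := by
  set p : FormalMultilinearSeries ℂ ℂ ℂ := FormalMultilinearSeries.ofScalars ℂ c with hp
  set F : ℂ → ℂ := fun z => ∑' n, c n * z ^ n with hF
  have hx := (h (δ/2) (by positivity) (by linarith)).summable.norm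
  have hsum : ∀ z : ℂ, ‖z‖ < δ/2 → HasSum (fun n => c n * z ^ n) (F z) := by
    intro z hz
    have : Summable (fun n => c n * z ^ n) := by
      apply Summable.of_norm
      refine Summable.of_nonneg_of_le (fun n => norm_nonneg _) (fun n => ?_) hx
      rw [norm_mul, norm_mul, norm_pow, norm_pow, Complex.norm_real, Real.norm_eq_abs,
        abs_of_pos (by positivity : (0:ℝ) < δ/2)]
      gcongr
    exact this.hasSum
  have hps : HasFPowerSeriesAt F p 0 := by
    rw [hasFPowerSeriesAt_iff, Metric.eventually_nhds_iff_ball]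
    refine ⟨δ/2, by positivity, fun z hz => ?_⟩
    rw [mem_ball_zero_iff] at hz
    have := hsum z hz
    simp only [zero_add, smul_eq_mul, hp, FormalMultilinearSeries.coeff_ofScalars]
    simpa [mul_comm] using this
  have hfreq : ∃ᶠ z in 𝓝[≠] (0:ℂ), F z = 0 := by
    have ht : Tendsto (fun k : ℕ => (((1:ℝ) / ((k:ℝ) + 1) : ℝ) : ℂ)) atTop (𝓝[≠] (0:ℂ)) := by
      rw [tendsto_nhdsWithin_iff]
      constructor
      · have := (Complex.continuous_ofReal.tendsto 0).comp
          (tendsto_one_div_add_atTop_nhds_zero_nat (𝕜 := ℝ))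
        simpa [Function.comp_def] using this
      · refine Eventually.of_forall fun k => ?_
        simp only [mem_compl_iff, mem_singleton_iff]
        have : ((1:ℝ) / ((k:ℝ) + 1)) ≠ 0 := by positivity
        exact_mod_cast this
    apply ht.frequently
    apply Eventually.frequently
    have h5 : ∀ᶠ k : ℕ in atTop, (1:ℝ) / ((k:ℝ) + 1) < δ/2 :=
      (tendsto_one_div_add_atTop_nhds_zero_nat (𝕜 := ℝ)).eventually_lt_const (by positivity)
    filter_upwards [h5] with k hk
    have hk0 : (0:ℝ) < (1:ℝ) / ((k:ℝ) + 1) := by positivity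
    have h6 := hsum (((1:ℝ) / ((k:ℝ) + 1) : ℝ) : ℂ) (by
      rw [Complex.norm_real, Real.norm_eq_abs, abs_of_pos hk0]; exact hk)
    exact h6.unique (h _ hk0 (by linarith))
  have hev := (AnalyticAt.frequently_zero_iff_eventually_zero ⟨p, hps⟩).1 hfreq
  have hp0 := hps.eq_zero_of_eventually hev
  intro n
  have : p.coeff n = c n := by rw [hp, FormalMultilinearSeries.coeff_ofScalars]
  rw [← this, hp0]
  simp [FormalMultilinearSeries.coeff]

end Pool.Agent.Helper793.CM
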