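import Pool.Agent.Helper793.CM.Mono
import Pool.Agent.Helper793.CM.Defs

set_option autoImplicit false

open MeasureTheory Set Real Complex Filter Topology
open scoped ENNReal NNReal ComplexConjugate

namespace Pool.Agent.Helper793.CM

noncomputable def h0 (f : ℂ → ℂ) (ζ : ℂ) : ℂ := f (Complex.exp ζ)
noncomputable def h1 (f : ℂ → ℂ) (ζ : ℂ) : ℂ := Complex.exp ζ * deriv f (Complex.exp ζ)
noncomputable def h2 (f : ℂ → ℂ) (ζ : ℂ) : ℂ :=
  Complex.exp ζ * deriv f (Complex.exp ζ) +
    Complex.exp ζ * (deriv (deriv f) (Complex.exp ζ) * Complex.exp ζ)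

lemma exp_mem {ζ : ℂ} (hζ : ζ.re < 0) : Complex.exp ζ ∈ Metric.ball (0:ℂ) 1 := by
  rw [mem_ball_zero_iff, Complex.norm_exp]
  exact Real.exp_lt_one_iff.2 hζ

lemma exp_per (ζ : ℂ) : Complex.exp (ζ + 2 * π * I) = Complex.exp ζ := by
  rw [Complex.exp_add, Complex.exp_two_pi_mul_I, mul_one]

lemma mkHP {f : ℂ → ℂ} (hf : DifferentiableOn ℂ f (Metric.ball 0 1)) : HP (h0 f) (h1 f) (h2 f) := by
  have ho : IsOpen (Metric.ball (0:ℂ) 1) := Metric.isOpen_ball
  have hf1 : DifferentiableOn ℂ (deriv f) (Metric.ball 0 1) := hf.deriv ho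
  have hf2 : DifferentiableOn ℂ (deriv (deriv f)) (Metric.ball 0 1) := hf1.deriv ho
  constructor
  · intro ζ hζ
    have hd : HasDerivAt f (deriv f (Complex.exp ζ)) (Complex.exp ζ) :=
      (hf.differentiableAt (ho.mem_nhds (exp_mem hζ))).hasDerivAt
    have h3 : HasDerivAt (fun ζ => f (Complex.exp ζ))
      (deriv f (Complex.exp ζ) * Complex.exp ζ) ζ := hd.comp ζ (Complex.hasDerivAt_exp ζ)
    rw [mul_comm] at h3
    exact h3
  · intro ζ hζ
    have hd : HasDerivAt (deriv f) (deriv (deriv f) (Complex.exp ζ)) (Complex.exp ζ) :=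
      (hf1.differentiableAt (ho.mem_nhds (exp_mem hζ))).hasDerivAt
    have h3 := hd.comp ζ (Complex.hasDerivAt_exp ζ)
    exact (Complex.hasDerivAt_exp ζ).mul h3
  · have he : ContinuousOn Complex.exp {ζ : ℂ | ζ.re < 0} := Complex.continuous_exp.continuousOn
    have hm : MapsTo Complex.exp {ζ : ℂ | ζ.re < 0} (Metric.ball 0 1) := fun ζ hζ => exp_mem hζ
    exact (he.mul (hf1.continuousOn.comp he hm)).add
      (he.mul ((hf2.continuousOn.comp he hm).mul he))
  · intro ζ _
    simp only [h0, exp_per]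
  · intro ζ _
    simp only [h1, exp_per]

/-- `Φ` and the area as functions attached to `f`. -/
noncomputable def ar (f : ℂ → ℂ) (t : ℝ) : ℝ := area (h0 f) (h1 f) t
noncomputable def ph (f : ℂ → ℂ) (t : ℝ) : ℝ := Phi (h0 f) (h1 f) t

lemma norm_exp_pt (t θ : ℝ) : ‖Complex.exp (pt t θ)‖ = Real.exp t := by
  rw [Complex.norm_exp, pt_re]

lemma ar_mono {f : ℂ → ℂ} (hf : DifferentiableOn ℂ f (Metric.ball 0 1)) :
    MonotoneOn (ar f) (Iio 0) := by
  have H := mkHP hf
  apply monotoneOn_of_deriv_nonneg (convex_Iio 0)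
  · exact H.area_cont
  · rw [interior_Iio]
    exact fun t ht => (H.area_deriv ht).differentiableAt.differentiableWithinAt
  · rw [interior_Iio]
    intro t ht
    rw [show ar f = area (h0 f) (h1 f) from rfl, (H.area_deriv ht).deriv]
    unfold area'
    have : 0 ≤ ∫ θ in (0:ℝ)..(2 * π), ‖h1 f (pt t θ)‖ ^ 2 :=
      intervalIntegral.integral_nonneg (by positivity) (fun θ _ => by positivity)
    positivity

/-- `A(t) → 0` as `t → -∞`. -/
lemma ar_tendsto {f : ℂ → ℂ} (hf : DifferentiableOn ℂ f (Metric.ball 0 1)) :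
    Tendsto (ar f) atBot (𝓝 0) := by
  have ho : IsOpen (Metric.ball (0:ℂ) 1) := Metric.isOpen_ball
  have hf1 : DifferentiableOn ℂ (deriv f) (Metric.ball 0 1) := hf.deriv ho
  have hK : IsCompact (Metric.closedBall (0:ℂ) (1/2)) := isCompact_closedBall _ _
  have hsub : Metric.closedBall (0:ℂ) (1/2) ⊆ Metric.ball 0 1 :=
    Metric.closedBall_subset_ball (by norm_num)
  obtain ⟨C, hC⟩ := hK.exists_bound_of_continuousOn (hf.continuousOn.mono hsub)
  obtain ⟨C1, hC1⟩ := hK.exists_bound_of_continuousOn (hf1.continuousOn.mono hsub)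
  have hC0 : 0 ≤ C := (norm_nonneg _).trans (hC 0 (by simp))
  have hC10 : 0 ≤ C1 := (norm_nonneg _).trans (hC1 0 (by simp))
  have hb : ∀ t < Real.log (1/2), |ar f t| ≤ (C * C1) * Real.exp t := by
    intro t ht
    have het : Real.exp t ≤ 1/2 := by
      rw [← Real.exp_log (by norm_num : (0:ℝ) < 1/2)]
      exact Real.exp_le_exp.2 ht.le
    have hmem : ∀ θ, Complex.exp (pt t θ) ∈ Metric.closedBall (0:ℂ) (1/2) := by
      intro θ; rw [mem_closedBall_zero_iff, norm_exp_pt]; exact het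
    have h5 : ∀ θ ∈ uIoc (0:ℝ) (2 * π), ‖(conj (h0 f (pt t θ)) * h1 f (pt t θ)).re‖
        ≤ (C * C1) * Real.exp t := by
      intro θ _
      refine (Complex.abs_re_le_norm _).trans ?_
      rw [norm_mul, RCLike.norm_conj]
      simp only [h0, h1, norm_mul, norm_exp_pt]
      have k1 := hC _ (hmem θ)
      have k2 := hC1 _ (hmem θ)
      have := mul_le_mul k1 k2 (norm_nonneg _) hC0
      have he := Real.exp_pos t
      nlinarith [mul_le_mul_of_nonneg_right this he.le]
    have h6 := intervalIntegral.norm_integral_le_of_norm_le_const h5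
    rw [show ar f t = (1 / (2 * π)) * ∫ θ in (0:ℝ)..(2 * π),
      (conj (h0 f (pt t θ)) * h1 f (pt t θ)).re from rfl, abs_mul,
      abs_of_pos (by positivity : (0:ℝ) < 1 / (2 * π))]
    rw [sub_zero, abs_of_pos (by positivity : (0:ℝ) < 2 * π), Real.norm_eq_abs] at h6
    calc _ ≤ (1 / (2 * π)) * (C * C1 * Real.exp t * (2 * π)) := by gcongr
      _ = _ := by field_simp
  have h7 : Tendsto (fun t => (C * C1) * Real.exp t) atBot (𝓝 0) := by
    simpa using Real.tendsto_exp_atBot.const_mul (C * C1)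
  refine squeeze_zero_norm' ?_ h7
  filter_upwards [Iio_mem_atBot (Real.log (1/2))] with t ht
  exact hb t ht

lemma ar_nonneg {f : ℂ → ℂ} (hf : DifferentiableOn ℂ f (Metric.ball 0 1)) {t : ℝ} (ht : t < 0) :
    0 ≤ ar f t := by
  refine le_of_tendsto (ar_tendsto hf) ?_
  filter_upwards [Iio_mem_atBot t] with s hs
  exact ar_mono hf (hs.trans ht) ht (le_of_lt hs)

end Pool.Agent.Helper793.CM
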