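import Mathlib

set_option autoImplicit false

open MeasureTheory Set Real Complex Filter Topology
open scoped ENNReal NNReal ComplexConjugate

namespace Pool.Agent.Helper793.CM

/-- mean value of `v` over `[0,W]` -/
noncomputable def mean (W : ℝ) (v : ℝ → ℂ) : ℂ := (1 / W : ℝ) • ∫ s in (0:ℝ)..W, v s

lemma wirtinger {W : ℝ} (hW : 0 < W) {v v' : ℝ → ℂ}
    (hv : ∀ s, HasDerivAt v (v' s) s) (hv' : Continuous v') (hper : v 0 = v W) :
    (2 * π / W) ^ 2 * ∫ s in (0:ℝ)..W, ‖v s - mean W v‖ ^ 2 ≤ ∫ s in (0:ℝ)..W, ‖v' s‖ ^ 2 := by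
  have hvc : Continuous v := continuous_iff_continuousAt.2 fun s => (hv s).continuousAt
  set c := mean W v with hc
  have hu : ∀ s, HasDerivAt (fun s => v s - c) (v' s) s := fun s => by
    simpa using (hv s).sub_const c
  have huc : Continuous (fun s => v s - c) := hvc.sub continuous_const
  have hL2 : ∀ g : ℝ → ℂ, Continuous g → MemLp g 2 (volume.restrict (Ioc 0 W)) := by
    intro g hg
    have h1 : MemLp g ⊤ (volume.restrict (Ioc 0 W)) := by
      obtain ⟨C, hC⟩ := (isCompact_Icc (a := (0:ℝ)) (b := W)).exists_bound_of_continuousOn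
        hg.continuousOn
      refine memLp_top_of_bound hg.aestronglyMeasurable C ?_
      filter_upwards [ae_restrict_mem measurableSet_Ioc] with x hx
      exact hC x ⟨hx.1.le, hx.2⟩
    exact h1.mono_exponent le_top
  have P1 := hasSum_sq_fourierCoeffOn (a := 0) (b := W) hW (hL2 _ huc)
  have P2 := hasSum_sq_fourierCoeffOn (a := 0) (b := W) hW (hL2 _ hv')
  have hcoef : ∀ n : ℤ, (2 * π / W) ^ 2 * ‖fourierCoeffOn hW (fun s => v s - c) n‖ ^ 2
      ≤ ‖fourierCoeffOn hW v' n‖ ^ 2 := by
    intro n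
    by_cases hn : n = 0
    · subst hn
      have h0 : fourierCoeffOn hW (fun s => v s - c) 0 = 0 := by
        rw [fourierCoeffOn_eq_integral]
        have : ∀ x : ℝ, (fourier (-0) (x : AddCircle (W - 0)) : ℂ) • (v x - c) = v x - c := by
          intro x; simp
        simp only [this]
        rw [intervalIntegral.integral_sub (hvc.intervalIntegrable _ _)
          (continuous_const.intervalIntegrable _ _), intervalIntegral.integral_const]
        simp only [hc, mean, sub_zero]
        rw [smul_smul]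
        have : W * (1 / W) = 1 := by field_simp
        rw [this, one_smul, sub_self, smul_zero]
      rw [h0]; simp
    · have h1 := fourierCoeffOn_of_hasDerivAt (a := 0) (b := W) hW (f := fun s => v s - c) (f' := v')
        hn (fun x _ => hu x) (hv'.intervalIntegrable _ _)
      rw [h1]
      have h2 : v W - c - (v 0 - c) = 0 := by rw [hper]; ring
      rw [h2, mul_zero, zero_sub]
      have hn1 : (1:ℝ) ≤ |(n:ℝ)| := by
        have := Int.one_le_abs hn
        exact_mod_cast this
      have hnpos : (0:ℝ) < |(n:ℝ)| := by linarith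
      have e1 : ‖1 / (-2 * (π:ℂ) * I * n) * -(((W:ℂ) - (0:ℝ)) * fourierCoeffOn hW v' n)‖
          = (W / (2 * π * |(n:ℝ)|)) * ‖fourierCoeffOn hW v' n‖ := by
        rw [norm_mul, norm_div, norm_neg, norm_mul, norm_mul, norm_mul, norm_mul]
        simp only [norm_neg, norm_one, Complex.norm_I, Complex.norm_real, Complex.norm_ofNat,
          Complex.norm_intCast, Complex.ofReal_zero, sub_zero, Real.norm_eq_abs, abs_of_pos hW,
          abs_of_pos Real.pi_pos]
        field_simp
      rw [e1, mul_pow, ← mul_assoc, ← mul_pow]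
      have h3 : (2 * π / W * (W / (2 * π * |(n:ℝ)|))) ^ 2 ≤ 1 := by
        have : 2 * π / W * (W / (2 * π * |(n:ℝ)|)) = 1 / |(n:ℝ)| := by
          field_simp
        rw [this, div_pow, one_pow]
        rw [div_le_one (by positivity)]
        nlinarith
      calc _ ≤ 1 * ‖fourierCoeffOn hW v' n‖ ^ 2 := by gcongr
        _ = _ := one_mul _
  have h := hasSum_le hcoef (P1.mul_left _) P2
  simp only [sub_zero, smul_eq_mul] at h
  have h4 : W * ((2 * π / W) ^ 2 * (W⁻¹ * ∫ s in (0:ℝ)..W, ‖v s - c‖ ^ 2))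
      ≤ W * (W⁻¹ * ∫ s in (0:ℝ)..W, ‖v' s‖ ^ 2) := by gcongr
  calc _ = W * ((2 * π / W) ^ 2 * (W⁻¹ * ∫ s in (0:ℝ)..W, ‖v s - c‖ ^ 2)) := by
        field_simp
    _ ≤ _ := h4
    _ = _ := by field_simp

lemma iso_aux {W : ℝ} (hW : 0 < W) {v v' : ℝ → ℂ}
    (hv : ∀ s, HasDerivAt v (v' s) s) (hv' : Continuous v') (hper : v 0 = v W) :
    2 * π * ∫ s in (0:ℝ)..W, (conj (v s) * v' s).im ≤
      W * (∫ s in (0:ℝ)..W, ‖v' s‖ ^ 2)
      - W / 2 * ∫ s in (0:ℝ)..W, ‖v' s - I * (2 * π / W : ℝ) * (v s - mean W v)‖ ^ 2 := by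
  have hvc : Continuous v := continuous_iff_continuousAt.2 fun s => (hv s).continuousAt
  have hw := wirtinger hW hv hv' hper
  set c := mean W v with hc
  set κ : ℝ := 2 * π / W with hκ
  have hκ0 : 0 < κ := by positivity
  have hint : ∫ s in (0:ℝ)..W, v' s = 0 := by
    rw [intervalIntegral.integral_eq_sub_of_hasDerivAt (fun x _ => hv x)
      (hv'.intervalIntegrable _ _), hper, sub_self]
  have e1 : ∫ s in (0:ℝ)..W, (conj (v s - c) * v' s).im
      = ∫ s in (0:ℝ)..W, (conj (v s) * v' s).im := by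
    have h2 : ∫ s in (0:ℝ)..W, (conj c * v' s).im = 0 := by
      have h3 : ∫ s in (0:ℝ)..W, conj c * v' s = 0 := by
        rw [intervalIntegral.integral_const_mul, hint, mul_zero]
      have h4 := intervalIntegral.intervalIntegral_im (μ := volume) (a := 0) (b := W)
        (f := fun s => conj c * v' s)
        ((continuous_const.mul hv').intervalIntegrable _ _)
      rw [h3] at h4
      simpa using h4
    have : ∀ s, (conj (v s - c) * v' s).im = (conj (v s) * v' s).im - (conj c * v' s).im := by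
      intro s; rw [map_sub, sub_mul, Complex.sub_im]
    simp only [this]
    have k1 : Continuous (fun s => (conj (v s) * v' s).im) :=
      Complex.continuous_im.comp ((Complex.continuous_conj.comp hvc).mul hv')
    have k2 : Continuous (fun s => (conj c * v' s).im) :=
      Complex.continuous_im.comp (continuous_const.mul hv')
    rw [intervalIntegral.integral_sub (k1.intervalIntegrable _ _) (k2.intervalIntegrable _ _), h2,
      sub_zero]
  have key : ∀ s, ‖v' s - I * (κ:ℝ) * (v s - c)‖ ^ 2 =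
      ‖v' s‖ ^ 2 + κ ^ 2 * ‖v s - c‖ ^ 2 - 2 * κ * (conj (v s - c) * v' s).im := by
    intro s
    rw [← Complex.normSq_eq_norm_sq, ← Complex.normSq_eq_norm_sq, ← Complex.normSq_eq_norm_sq]
    simp only [Complex.normSq_apply, Complex.sub_re, Complex.sub_im, Complex.mul_re, Complex.mul_im,
      Complex.I_re, Complex.I_im, Complex.ofReal_re, Complex.ofReal_im, Complex.conj_re,
      Complex.conj_im, Complex.sub_re, Complex.sub_im]
    ring
  have hc1 : Continuous (fun s => ‖v' s‖ ^ 2) := (hv'.norm).pow 2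
  have hc2 : Continuous (fun s => κ ^ 2 * ‖v s - c‖ ^ 2) :=
    continuous_const.mul (((hvc.sub continuous_const).norm).pow 2)
  have hc3 : Continuous (fun s => 2 * κ * (conj (v s - c) * v' s).im) :=
    continuous_const.mul (Complex.continuous_im.comp
      ((Complex.continuous_conj.comp (hvc.sub continuous_const)).mul hv'))
  have e2 : ∫ s in (0:ℝ)..W, ‖v' s - I * (κ:ℝ) * (v s - c)‖ ^ 2 =
      (∫ s in (0:ℝ)..W, ‖v' s‖ ^ 2) + κ ^ 2 * (∫ s in (0:ℝ)..W, ‖v s - c‖ ^ 2)
      - 2 * κ * ∫ s in (0:ℝ)..W, (conj (v s) * v' s).im := by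
    simp only [key]
    have hc12 : Continuous (fun s => ‖v' s‖ ^ 2 + κ ^ 2 * ‖v s - c‖ ^ 2) := hc1.add hc2
    rw [intervalIntegral.integral_sub (hc12.intervalIntegrable _ _)
      (hc3.intervalIntegrable _ _), intervalIntegral.integral_add (hc1.intervalIntegrable _ _)
      (hc2.intervalIntegrable _ _), intervalIntegral.integral_const_mul,
      intervalIntegral.integral_const_mul, e1]
  have e3 : κ * W = 2 * π := by rw [hκ]; field_simp
  have e4 : W / 2 * ∫ s in (0:ℝ)..W, ‖v' s - I * (κ:ℝ) * (v s - c)‖ ^ 2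
      = W / 2 * (∫ s in (0:ℝ)..W, ‖v' s‖ ^ 2) + W / 2 * (κ ^ 2 * (∫ s in (0:ℝ)..W, ‖v s - c‖ ^ 2))
      - 2 * π * ∫ s in (0:ℝ)..W, (conj (v s) * v' s).im := by
    rw [e2, ← e3]; ring
  have e5 : W / 2 * (κ ^ 2 * (∫ s in (0:ℝ)..W, ‖v s - c‖ ^ 2))
      ≤ W / 2 * (∫ s in (0:ℝ)..W, ‖v' s‖ ^ 2) := by gcongr
  rw [e4]
  linarith

lemma iso {W : ℝ} (hW : 0 < W) {v v' : ℝ → ℂ}
    (hv : ∀ s, HasDerivAt v (v' s) s) (hv' : Continuous v') (hper : v 0 = v W) :
    2 * π * ∫ s in (0:ℝ)..W, (conj (v s) * v' s).im ≤ W * (∫ s in (0:ℝ)..W, ‖v' s‖ ^ 2) := by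
  have h := iso_aux hW hv hv' hper
  have h2 : 0 ≤ ∫ s in (0:ℝ)..W, ‖v' s - I * (2 * π / W : ℝ) * (v s - mean W v)‖ ^ 2 :=
    intervalIntegral.integral_nonneg hW.le (fun s _ => by positivity)
  have h3 := mul_nonneg (by positivity : (0:ℝ) ≤ W / 2) h2
  linarith

/-- equality case: the speed is constant. -/
lemma iso_eq {W : ℝ} (hW : 0 < W) {v v' : ℝ → ℂ}
    (hv : ∀ s, HasDerivAt v (v' s) s) (hv' : Continuous v') (hper : v 0 = v W)
    (heq : W * (∫ s in (0:ℝ)..W, ‖v' s‖ ^ 2) ≤ 2 * π * ∫ s in (0:ℝ)..W, (conj (v s) * v' s).im) :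
    ∀ s ∈ Icc 0 W, ‖v' s‖ = ‖v' 0‖ := by
  have hvc : Continuous v := continuous_iff_continuousAt.2 fun s => (hv s).continuousAt
  have h := iso_aux hW hv hv' hper
  set c := mean W v with hc
  set κ : ℝ := 2 * π / W with hκ
  have hcont : Continuous (fun s => v' s - I * (κ:ℝ) * (v s - c)) :=
    hv'.sub (continuous_const.mul (hvc.sub continuous_const))
  have h2 : 0 ≤ ∫ s in (0:ℝ)..W, ‖v' s - I * (κ : ℝ) * (v s - c)‖ ^ 2 :=
    intervalIntegral.integral_nonneg hW.le (fun s _ => by positivity)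
  have h3 : ∫ s in (0:ℝ)..W, ‖v' s - I * (κ : ℝ) * (v s - c)‖ ^ 2 = 0 := by
    by_contra hne
    have : 0 < W / 2 * ∫ s in (0:ℝ)..W, ‖v' s - I * (κ : ℝ) * (v s - c)‖ ^ 2 :=
      mul_pos (by positivity) (lt_of_le_of_ne h2 (Ne.symm hne))
    linarith
  have h4 : ∀ s ∈ Icc 0 W, v' s - I * (κ:ℝ) * (v s - c) = 0 := by
    by_contra hcon
    push Not at hcon
    obtain ⟨s, hs, hne⟩ := hcon
    have := intervalIntegral.integral_pos (a := 0) (b := W) hW
      (f := fun s => ‖v' s - I * (κ : ℝ) * (v s - c)‖ ^ 2) ((hcont.norm.pow 2).continuousOn)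
      (fun x _ => by positivity) ⟨s, hs, by positivity⟩
    linarith
  have h5 : ∀ s ∈ Icc 0 W, ‖v' s‖ = κ * ‖v s - c‖ := by
    intro s hs
    have := h4 s hs
    rw [sub_eq_zero] at this
    rw [this, norm_mul, norm_mul, Complex.norm_I, one_mul, Complex.norm_real, Real.norm_eq_abs,
      abs_of_pos (by positivity)]
  -- the distance to c is constant
  have h6 : ∀ s ∈ Icc 0 W, ‖v s - c‖ ^ 2 = ‖v 0 - c‖ ^ 2 := by
    have hd : ∀ s, HasDerivAt (fun s => ‖v s - c‖ ^ 2) (2 * (conj (v s - c) * v' s).re) s := by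
      intro s
      have h7 : HasDerivAt (fun s => v s - c) (v' s) s := by simpa using (hv s).sub_const c
      have h8 : HasDerivAt (fun s => conj (v s - c)) (conj (v' s)) s := h7.star
      have h9 := (h8.mul h7)
      have h10 : HasDerivAt (fun s => (conj (v s - c) * (v s - c)).re)
          ((conj (v' s) * (v s - c) + conj (v s - c) * v' s).re) s :=
        Complex.reCLM.hasFDerivAt.comp_hasDerivAt s h9
      convert h10 using 1
      · funext s
        rw [← Complex.normSq_eq_norm_sq, mul_comm, Complex.mul_conj, Complex.ofReal_re]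
      · simp only [Complex.add_re, Complex.mul_re, Complex.conj_re, Complex.conj_im]
        ring
    intro s hs
    have hz : ∀ x ∈ Icc 0 W, 2 * (conj (v x - c) * v' x).re = 0 := by
      intro x hx
      have := h4 x hx
      rw [sub_eq_zero] at this
      rw [this]
      simp only [Complex.mul_re, Complex.mul_im, Complex.conj_re, Complex.conj_im, Complex.I_re,
        Complex.I_im, Complex.ofReal_re, Complex.ofReal_im, Complex.sub_re, Complex.sub_im]
      ring
    have hFTC := intervalIntegral.integral_eq_sub_of_hasDerivAt (a := 0) (b := s)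
      (fun x _ => hd x) (((continuous_const.mul (Complex.continuous_re.comp
      ((Complex.continuous_conj.comp (hvc.sub continuous_const)).mul hv'))).intervalIntegrable _ _))
    have hz2 : ∫ y in (0:ℝ)..s, 2 * (conj (v y - c) * v' y).re = 0 := by
      rw [intervalIntegral.integral_congr (g := fun _ => (0:ℝ))]
      · simp
      · intro x hx
        rw [uIcc_of_le hs.1] at hx
        exact hz x ⟨hx.1, hx.2.trans hs.2⟩
    linarith
  intro s hs
  rw [h5 s hs, h5 0 ⟨le_rfl, hW.le⟩]
  congr 1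
  have := h6 s hs
  exact (pow_left_inj₀ (norm_nonneg _) (norm_nonneg _) two_ne_zero).1 this

end Pool.Agent.Helper793.CM
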